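import Pool.Agent.Lib.MP_001d24_al.Grp

/-!
# Bad elements, the counting lemma and the chain of bad elements
-/

namespace Pool.Agent.Lib.MP_001d24_al

namespace GTF

open TF

variable {V : Bool → Variety} {Y : GTF V}

theorem al01_eq {w : Y.F} (hw : Y.inF {0} w) : Y.al 0 1 w = Y.ap w (Y.sm {0, 1}) := by
  have h1 : Y.ap w (Y.sm {0}) = w := by rw [sm_singleton, ap_v0 hw]
  conv_lhs => rw [← h1]
  rw [al_ap (by simp) (by simp), Finset.pair_comm]

variable (Y) in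
/-- bad elements: elements depending on the variable `0` only whose type changes under
the substitution `0 ↦ 0 + 1` -/
def Bd (w : Y.F) : Prop := Y.inF {0} w ∧ Y.ty w ≠ none ∧ Y.ty (Y.al 0 1 w) ≠ Y.ty w

variable (Y) in
/-- bad elements and the variable `0` -/
def DD (w : Y.F) : Prop := w = Y.v 0 ∨ Y.Bd w

theorem al_const {w : Y.F} (h : Y.inF ∅ w) (x z : ℕ) : Y.al x z w = w :=
  al_self (h.mono (Set.empty_subset _))

theorem Bd.nonconst {w : Y.F} (h : Y.Bd w) : ¬ Y.inF ∅ w := by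
  intro hc
  apply h.2.2
  rw [al_const hc]

theorem DD.inF {w : Y.F} (h : Y.DD w) : Y.inF {0} w := by
  rcases h with h | h
  · rw [h]; exact inF_v rfl
  · exact h.1

theorem DD.nonconst {w : Y.F} (h : Y.DD w) : ¬ Y.inF ∅ w := by
  rcases h with h | h
  · rw [h, inF_v_iff]; exact fun h => h
  · exact h.nonconst

theorem DD.ty_al {w : Y.F} (h : Y.DD w) : Y.ty (Y.al 0 1 w) ≠ none := by
  rw [al01_eq h.inF]
  exact ty_sum_ne_none h.inF h.nonconst (by simp)

theorem DD_of {w l : Y.F} {i : Bool} (hw : Y.inF {0} w) (hl : l ∈ Y.supp i w)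
    (h : Y.ty (Y.al 0 1 l) = some i) : Y.DD l := by
  have h1 : Y.inF {0} l := hw.supp hl
  cases ht : Y.ty l with
  | none =>
    left
    rcases Y.ty_none l ht with h2 | ⟨x, h2⟩
    · exact absurd h2 (Y.supp_ne_c hl)
    · rw [h2, inF_v_iff, Set.mem_singleton_iff] at h1
      rw [h2, h1]
  | some k =>
    right
    refine ⟨h1, by rw [ht]; simp, ?_⟩
    intro h2
    exact Y.supp_ty hl (h2.symm.trans h)

theorem Bd.step {w : Y.F} (h : Y.Bd w) {i : Bool} (hi : Y.ty w = some i) :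
    ∃ l ∈ Y.supp i w, Y.ty (Y.al 0 1 l) = some i ∧ Y.al 0 1 w ∈ Y.supp i (Y.al 0 1 l) ∧
      Y.DD l := by
  obtain ⟨l, h1, h2, h3⟩ := tp (al_inj (show (0 : ℕ) ≠ 1 by decide)) hi
    (by rw [← hi]; exact h.2.2)
  exact ⟨l, h1, h2, h3, DD_of h.1 h1 h2⟩

theorem below_finite (w : Y.F) : {v | Relation.ReflTransGen Y.R v w}.Finite := by
  induction w using Y.wf.induction with
  | _ w ih =>
    have hsub : {v | Relation.ReflTransGen Y.R v w} ⊆
        {w} ∪ ⋃ u ∈ {u | Y.R u w}, {v | Relation.ReflTransGen Y.R v u} := by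
      intro v hv
      rcases Relation.ReflTransGen.cases_tail hv with h | ⟨u, h1, h2⟩
      · left; exact h.symm
      · right
        rw [Set.mem_iUnion₂]
        exact ⟨u, h2, h1⟩
    have hfin : {u | Y.R u w}.Finite := by
      apply ((Y.supp_finite false w).union (Y.supp_finite true w)).subset
      rintro u ⟨i, _, hu⟩
      cases i
      · left; exact hu
      · right; exact hu
    apply Set.Finite.subset _ hsub
    exact (Set.finite_singleton w).union (hfin.biUnion (fun u hu => ih u hu))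

theorem Bd.below {w : Y.F} (h : Y.Bd w) :
    Relation.ReflTransGen Y.R (Y.al 0 1 w) (Y.al 0 1 (Y.v 0)) := by
  revert h
  induction w using strong_rk with
  | _ w ih =>
    intro h
    obtain ⟨i, hi⟩ := Option.ne_none_iff_exists'.mp h.2.1
    obtain ⟨l, h1, h2, h3, h4⟩ := h.step hi
    have h5 : Y.R (Y.al 0 1 w) (Y.al 0 1 l) := ⟨i, h2, h3⟩
    rcases h4 with h4 | h4
    · rw [← h4]
      exact Relation.ReflTransGen.single h5
    · exact Relation.ReflTransGen.head h5 (ih l (Y.rk_lt hi h1) h4)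

theorem bd_finite : {w | Y.Bd w}.Finite := by
  have h1 := below_finite (Y := Y) (Y.al 0 1 (Y.v 0))
  have h2 := h1.preimage (f := Y.al 0 1)
    ((al_inj (show (0 : ℕ) ≠ 1 by decide)).injOn)
  apply h2.subset
  intro w hw
  exact Bd.below hw

theorem Bd.rk_pos {w : Y.F} (h : Y.Bd w) : 0 < Y.rk w := by
  obtain ⟨i, hi⟩ := Option.ne_none_iff_exists'.mp h.2.1
  obtain ⟨l, h1, _⟩ := h.step hi
  exact (zero_le).trans_lt (Y.rk_lt hi h1)

theorem rk_v0 : Y.rk (Y.v 0) = 0 := Y.rk_none (Y.ty_v 0)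

section Count

variable {i : Bool} {M : Type} {J : Alg (V i).sig M}

/-- core comparison lemma -/
theorem ci {f f' : Y.F → M} (hf : IsHom (Y.alg i) J f) (hf' : IsHom (Y.alg i) J f')
    (hc : f Y.c = f' Y.c) {G C : Set Y.F} (hG : ∀ w ∈ G, Y.ty w = some i)
    (hz : ∀ z, Y.ty z ≠ some i → (¬ ∃ w, w ∈ G ∧ Y.al 0 1 w = z) → f z = f' z)
    {w : Y.F} (hcl : ∀ l ∈ Y.supp i w, Y.ty (Y.al 0 1 l) = some i → l ∈ C)
    (hC : ∀ l ∈ C, f (Y.al 0 1 l) = f' (Y.al 0 1 l)) : f (Y.al 0 1 w) = f' (Y.al 0 1 w) := by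
  apply Y.hom_eq (i := i) (f := fun x => f (Y.al 0 1 x)) (g := fun x => f' (Y.al 0 1 x))
    (hf.comp (Y.sub_hom _ i)) (hf'.comp (Y.sub_hom _ i))
  · have : Y.al 0 1 Y.c = Y.c := Y.sub_c _
    simp only [this]
    exact hc
  · intro l hl
    by_cases h : Y.ty (Y.al 0 1 l) = some i
    · exact hC l (hcl l hl h)
    · apply hz _ h
      rintro ⟨w', hw', h2⟩
      have := al_inj (show (0 : ℕ) ≠ 1 by decide) h2
      rw [this] at hw'
      exact Y.supp_ty hl (hG l hw')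

open Classical in
/-- prescribed values on the images of the elements of `G` -/
noncomputable def bfun (G : Set Y.F) (cM : M) (a : Y.F → M) : Y.F → M := fun z =>
  if h : ∃ w, w ∈ G ∧ Y.al 0 1 w = z then a h.choose else cM

theorem bfun_al {G : Set Y.F} (cM : M) (a : Y.F → M) {w : Y.F} (hw : w ∈ G) :
    bfun G cM a (Y.al 0 1 w) = a w := by
  have h : ∃ w', w' ∈ G ∧ Y.al 0 1 w' = Y.al 0 1 w := ⟨w, hw, rfl⟩
  unfold bfun
  rw [dif_pos h]
  congr 1
  exact al_inj (show (0 : ℕ) ≠ 1 by decide) h.choose_spec.2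

theorem bfun_not {G : Set Y.F} (cM : M) (a : Y.F → M) {z : Y.F}
    (hz : ¬ ∃ w, w ∈ G ∧ Y.al 0 1 w = z) : bfun G cM a z = cM := by
  unfold bfun
  rw [dif_neg hz]

variable (hJ : (V i).IsModel J)

/-- the homomorphism with prescribed values -/
noncomputable def fa (G : Set Y.F) (cM : M) (a : Y.F → M) : Y.F → M :=
  (Y.fo i).lift hJ (bfun G cM a)

theorem fa_hom (G : Set Y.F) (cM : M) (a : Y.F → M) : IsHom (Y.alg i) J (fa hJ G cM a) :=
  (Y.fo i).lift_hom hJ _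

theorem fa_al {G : Set Y.F} (cM : M) (a : Y.F → M) {w : Y.F} (hw : w ∈ G)
    (hty : Y.ty (Y.al 0 1 w) ≠ some i) : fa hJ G cM a (Y.al 0 1 w) = a w := by
  unfold fa
  rw [(Y.fo i).lift_eq hJ _ hty, bfun_al cM a hw]

theorem fa_not {G : Set Y.F} (cM : M) (a : Y.F → M) {z : Y.F} (hty : Y.ty z ≠ some i)
    (hz : ¬ ∃ w, w ∈ G ∧ Y.al 0 1 w = z) : fa hJ G cM a z = cM := by
  unfold fa
  rw [(Y.fo i).lift_eq hJ _ hty, bfun_not cM a hz]

theorem fa_c {G : Set Y.F} (hG : ∀ w ∈ G, Y.ty w = some i) (cM : M) (a : Y.F → M) :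
    fa hJ G cM a Y.c = cM := by
  apply fa_not
  · exact Y.c_mem i
  · rintro ⟨w, hw, h⟩
    have h2 : w = Y.c := by
      apply al_inj (show (0 : ℕ) ≠ 1 by decide)
      rw [h]
      exact (Y.sub_c _).symm
    have h3 := hG w hw
    rw [h2, Y.ty_c] at h3
    cases h3

include hJ in
theorem count [Finite M] [Nontrivial M] (G C : Finset Y.F)
    (hG : ∀ w ∈ G, Y.ty w = some i ∧ Y.ty (Y.al 0 1 w) ≠ some i)
    (hcl : ∀ w ∈ G, ∀ l ∈ Y.supp i w, Y.ty (Y.al 0 1 l) = some i → l ∈ C) :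
    G.card ≤ C.card := by
  classical
  have := Fintype.ofFinite M
  obtain ⟨cM, _⟩ := exists_pair_ne M
  let e : (G → M) → (Y.F → M) := fun a w => if h : w ∈ G then a ⟨w, h⟩ else cM
  let Θ : (G → M) → (C → M) := fun a l => fa hJ (G : Set Y.F) cM (e a) (Y.al 0 1 l.1)
  have hinj : Function.Injective Θ := by
    intro a b hab
    funext ⟨w, hw⟩
    have h1 := ci (fa_hom hJ (G : Set Y.F) cM (e a)) (fa_hom hJ (G : Set Y.F) cM (e b))
      (by rw [fa_c hJ (fun w hw => (hG w hw).1), fa_c hJ (fun w hw => (hG w hw).1)])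
      (G := (G : Set Y.F)) (C := (C : Set Y.F)) (fun w hw => (hG w hw).1)
      (fun z h1 h2 => by rw [fa_not hJ _ _ h1 h2, fa_not hJ _ _ h1 h2])
      (w := w) (hcl w hw) (fun l hl => congrFun hab ⟨l, hl⟩)
    rw [fa_al hJ _ _ hw (hG w hw).2, fa_al hJ _ _ hw (hG w hw).2] at h1
    simp only [e] at h1
    rw [dif_pos hw, dif_pos hw] at h1
    exact h1
  have h2 := Fintype.card_le_of_injective Θ hinj
  rw [Fintype.card_fun, Fintype.card_fun, Fintype.card_coe, Fintype.card_coe] at h2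
  exact (Nat.pow_le_pow_iff_right Fintype.one_lt_card).mp h2

include hJ in
theorem child [Finite M] [Nontrivial M] (G C : Finset Y.F) (w0 l0 : Y.F) (hw0 : w0 ∉ G)
    (hG0 : Y.ty w0 = some i ∧ Y.ty (Y.al 0 1 w0) ≠ some i)
    (hG : ∀ w ∈ G, Y.ty w = some i ∧ Y.ty (Y.al 0 1 w) ≠ some i)
    (hcl : ∀ w ∈ G, ∀ l ∈ Y.supp i w, Y.ty (Y.al 0 1 l) = some i → l ∈ C)
    (hcl0 : ∀ l ∈ Y.supp i w0, Y.ty (Y.al 0 1 l) = some i → l = l0 ∨ l ∈ C)
    (hcard : G.card = C.card) : Y.al 0 1 w0 ∈ Y.supp i (Y.al 0 1 l0) := by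
  classical
  by_contra hno
  have := Fintype.ofFinite M
  obtain ⟨m, m', hmm⟩ := exists_pair_ne M
  obtain ⟨cM, _⟩ : ∃ cM : M, cM = m := ⟨m, rfl⟩
  obtain ⟨a0, _⟩ : ∃ a0 : G → M, a0 = fun _ => m := ⟨_, rfl⟩
  let G1 : Set Y.F := insert w0 (G : Set Y.F)
  have hG1 : ∀ w ∈ G1, Y.ty w = some i := by
    rintro w (hw | hw)
    · rw [hw]; exact hG0.1
    · exact (hG w hw).1
  let e : M → (G → M) → (Y.F → M) := fun n a w => if h : w ∈ G then a ⟨w, h⟩ else n
  let Θ : M → (G → M) → (C → M) := fun n a l => fa hJ G1 cM (e n a) (Y.al 0 1 l.1)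
  have hval : ∀ n a w, (hw : w ∈ G) → fa hJ G1 cM (e n a) (Y.al 0 1 w) = a ⟨w, hw⟩ := by
    intro n a w hw
    rw [fa_al hJ _ _ (show w ∈ G1 from Or.inr hw) (hG w hw).2]
    simp only [e]
    rw [dif_pos hw]
  have hval0 : ∀ n a, fa hJ G1 cM (e n a) (Y.al 0 1 w0) = n := by
    intro n a
    rw [fa_al hJ _ _ (show w0 ∈ G1 from Or.inl rfl) hG0.2]
    simp only [e]
    rw [dif_neg hw0]
  have key : ∀ n n' a b, Θ n a = Θ n' b → a = b := by
    intro n n' a b hab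
    funext ⟨w, hw⟩
    have h1 := ci (fa_hom hJ G1 cM (e n a)) (fa_hom hJ G1 cM (e n' b))
      (by rw [fa_c hJ hG1, fa_c hJ hG1])
      (G := G1) (C := (C : Set Y.F)) hG1
      (fun z h1 h2 => by rw [fa_not hJ _ _ h1 h2, fa_not hJ _ _ h1 h2])
      (w := w) (hcl w hw) (fun l hl => congrFun hab ⟨l, hl⟩)
    rw [hval, hval] at h1
    exact h1
  have hbij : Function.Bijective (Θ m') := by
    rw [Fintype.bijective_iff_injective_and_card]
    refine ⟨fun a b hab => key m' m' a b hab, ?_⟩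
    rw [Fintype.card_fun, Fintype.card_fun, Fintype.card_coe, Fintype.card_coe, hcard]
  obtain ⟨b, hb⟩ := hbij.2 (Θ m a0)
  have hb2 : b = a0 := key m' m b a0 hb
  have h3 : fa hJ G1 cM (e m' b) (Y.al 0 1 l0) =
      fa hJ G1 cM (e m a0) (Y.al 0 1 l0) := by
    apply Y.hom_eq (i := i) (fa_hom hJ _ _ _) (fa_hom hJ _ _ _)
    · rw [fa_c hJ hG1, fa_c hJ hG1]
    · intro z hz
      by_cases h4 : ∃ w, w ∈ G1 ∧ Y.al 0 1 w = z
      · obtain ⟨w, hw, rfl⟩ := h4
        rcases hw with hw | hw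
        · exfalso
          apply hno
          rw [← hw]
          exact hz
        · rw [hval _ _ _ hw, hval _ _ _ hw, hb2]
      · rw [fa_not hJ _ _ (Y.supp_ty hz) h4, fa_not hJ _ _ (Y.supp_ty hz) h4]
  have h5 := ci (fa_hom hJ G1 cM (e m' b)) (fa_hom hJ G1 cM (e m a0))
      (by rw [fa_c hJ hG1, fa_c hJ hG1])
      (G := G1) (C := insert l0 (C : Set Y.F)) hG1
      (fun z h1 h2 => by rw [fa_not hJ _ _ h1 h2, fa_not hJ _ _ h1 h2])
      (w := w0) hcl0 (by
        rintro l (hl | hl)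
        · rw [hl]; exact h3
        · exact congrFun hb ⟨l, hl⟩)
  rw [hval0, hval0] at h5
  exact hmm h5.symm

end Count

section Chain

variable (Y) in
/-- the finite set of bad elements -/
noncomputable def Bf : Finset Y.F := (bd_finite (Y := Y)).toFinset

theorem mem_Bf {w : Y.F} : w ∈ Y.Bf ↔ Y.Bd w := by
  unfold Bf
  rw [Set.Finite.mem_toFinset]
  rfl

open Classical in
variable (Y) in
/-- bad elements and `v 0` -/
noncomputable def Df : Finset Y.F := insert (Y.v 0) Y.Bf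

theorem mem_Df {w : Y.F} : w ∈ Y.Df ↔ Y.DD w := by
  classical
  unfold Df DD
  rw [Finset.mem_insert, mem_Bf]

theorem v0_not_mem_Bf : Y.v 0 ∉ Y.Bf := by
  rw [mem_Bf]
  intro h
  exact h.2.1 (Y.ty_v 0)

open Classical in
variable (Y) in
/-- bad elements of type `i` and rank at most `r` -/
noncomputable def Gs (i : Bool) (r : Ordinal.{0}) : Finset Y.F :=
  Y.Bf.filter (fun w => Y.ty w = some i ∧ Y.rk w ≤ r)

open Classical in
variable (Y) in
/-- elements of `Df` of rank less than `r` and such that their shift has type `i` -/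
noncomputable def Cs (i : Bool) (r : Ordinal.{0}) : Finset Y.F :=
  Y.Df.filter (fun l => Y.ty (Y.al 0 1 l) = some i ∧ Y.rk l < r)

theorem mem_Gs {i : Bool} {r : Ordinal.{0}} {w : Y.F} :
    w ∈ Y.Gs i r ↔ Y.Bd w ∧ Y.ty w = some i ∧ Y.rk w ≤ r := by
  unfold Gs
  rw [Finset.mem_filter, mem_Bf]

theorem mem_Cs {i : Bool} {r : Ordinal.{0}} {w : Y.F} :
    w ∈ Y.Cs i r ↔ Y.DD w ∧ Y.ty (Y.al 0 1 w) = some i ∧ Y.rk w < r := by
  unfold Cs
  rw [Finset.mem_filter, mem_Df]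

theorem Gs_closed {i : Bool} {r : Ordinal.{0}} : ∀ w ∈ Y.Gs i r, ∀ l ∈ Y.supp i w,
    Y.ty (Y.al 0 1 l) = some i → l ∈ Y.Cs i r := by
  intro w hw l hl h
  rw [mem_Gs] at hw
  rw [mem_Cs]
  exact ⟨DD_of hw.1.1 hl h, h, (Y.rk_lt hw.2.1 hl).trans_le hw.2.2⟩

theorem Gs_ty {i : Bool} {r : Ordinal.{0}} : ∀ w ∈ Y.Gs i r,
    Y.ty w = some i ∧ Y.ty (Y.al 0 1 w) ≠ some i := by
  intro w hw
  rw [mem_Gs] at hw
  refine ⟨hw.2.1, ?_⟩
  intro h
  exact hw.1.2.2 (h.trans hw.2.1.symm)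

variable (hM : ∀ i, ∃ (M : Type) (J : Alg (V i).sig M), (V i).IsModel J ∧ Finite M ∧ Nontrivial M)

include hM in
theorem cnt (i : Bool) (r : Ordinal.{0}) : (Y.Gs i r).card ≤ (Y.Cs i r).card := by
  obtain ⟨M, J, hJ, h1, h2⟩ := hM i
  exact count hJ _ _ Gs_ty Gs_closed

open Classical in
theorem card_Bf_le (r : Ordinal.{0}) : (Y.Bf.filter (fun w => Y.rk w ≤ r)).card =
    (Y.Gs false r).card + (Y.Gs true r).card := by
  rw [← Finset.card_union_of_disjoint]
  · congr 1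
    ext w
    rw [Finset.mem_union, mem_Gs, mem_Gs, Finset.mem_filter, mem_Bf]
    constructor
    · rintro ⟨h1, h2⟩
      obtain ⟨i, hi⟩ := Option.ne_none_iff_exists'.mp h1.2.1
      cases i
      · left; exact ⟨h1, hi, h2⟩
      · right; exact ⟨h1, hi, h2⟩
    · rintro (⟨h1, _, h2⟩ | ⟨h1, _, h2⟩)
      · exact ⟨h1, h2⟩
      · exact ⟨h1, h2⟩
  · rw [Finset.disjoint_left]
    intro w h1 h2
    rw [mem_Gs] at h1 h2
    have := h1.2.1.symm.trans h2.2.1
    cases this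

open Classical in
theorem card_Df_lt (r : Ordinal.{0}) : (Y.Df.filter (fun w => Y.rk w < r)).card =
    (Y.Cs false r).card + (Y.Cs true r).card := by
  rw [← Finset.card_union_of_disjoint]
  · congr 1
    ext w
    rw [Finset.mem_union, mem_Cs, mem_Cs, Finset.mem_filter, mem_Df]
    constructor
    · rintro ⟨h1, h2⟩
      obtain ⟨i, hi⟩ := Option.ne_none_iff_exists'.mp h1.ty_al
      cases i
      · left; exact ⟨h1, hi, h2⟩
      · right; exact ⟨h1, hi, h2⟩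
    · rintro (⟨h1, _, h2⟩ | ⟨h1, _, h2⟩)
      · exact ⟨h1, h2⟩
      · exact ⟨h1, h2⟩
  · rw [Finset.disjoint_left]
    intro w h1 h2
    rw [mem_Cs] at h1 h2
    have := h1.2.1.symm.trans h2.2.1
    cases this

open Classical in
theorem card_Df_le (r : Ordinal.{0}) : (Y.Df.filter (fun w => Y.rk w < r)).card ≤
    (Y.Bf.filter (fun w => Y.rk w < r)).card + 1 := by
  have : Y.Df.filter (fun w => Y.rk w < r) ⊆
      insert (Y.v 0) (Y.Bf.filter (fun w => Y.rk w < r)) := by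
    intro w hw
    rw [Finset.mem_filter] at hw
    unfold Df at hw
    rw [Finset.mem_insert] at hw
    rw [Finset.mem_insert, Finset.mem_filter]
    rcases hw.1 with h | h
    · left; exact h
    · right; exact ⟨h, hw.2⟩
  exact (Finset.card_le_card this).trans (Finset.card_insert_le _ _)

include hM in
/-- bad elements have different ranks -/
theorem rk_inj {w w' : Y.F} (hw : Y.Bd w) (hw' : Y.Bd w') (h : Y.rk w = Y.rk w') : w = w' := by
  classical
  by_contra hne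
  have h1 := card_Bf_le (Y := Y) (Y.rk w)
  have h2 := card_Df_lt (Y := Y) (Y.rk w)
  have h3 := card_Df_le (Y := Y) (Y.rk w)
  have h4 := cnt (Y := Y) hM false (Y.rk w)
  have h5 := cnt (Y := Y) hM true (Y.rk w)
  have h6 : insert w (insert w' (Y.Bf.filter (fun u => Y.rk u < Y.rk w))) ⊆
      Y.Bf.filter (fun u => Y.rk u ≤ Y.rk w) := by
    intro u hu
    rw [Finset.mem_insert, Finset.mem_insert, Finset.mem_filter, mem_Bf] at hu
    rw [Finset.mem_filter, mem_Bf]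
    rcases hu with hu | hu | hu
    · rw [hu]; exact ⟨hw, le_refl _⟩
    · rw [hu]; exact ⟨hw', h.symm.le⟩
    · exact ⟨hu.1, hu.2.le⟩
  have h7 := Finset.card_le_card h6
  rw [Finset.card_insert_of_notMem, Finset.card_insert_of_notMem] at h7
  · omega
  · rw [Finset.mem_filter]
    rintro ⟨_, h8⟩
    rw [h] at h8
    exact lt_irrefl _ h8
  · rw [Finset.mem_insert, Finset.mem_filter]
    rintro (h8 | ⟨_, h8⟩)
    · exact hne h8
    · exact lt_irrefl _ h8

include hM in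
theorem cnt_eq {w : Y.F} (hw : Y.DD w) (i : Bool) :
    (Y.Gs i (Y.rk w)).card = (Y.Cs i (Y.rk w)).card := by
  classical
  rcases hw with hw | hw
  · have h1 : Y.Gs i (Y.rk w) = ∅ := by
      apply Finset.eq_empty_of_forall_notMem
      intro u hu
      rw [mem_Gs, hw, rk_v0] at hu
      exact absurd hu.1.rk_pos (not_lt.mpr hu.2.2)
    have h2 : Y.Cs i (Y.rk w) = ∅ := by
      apply Finset.eq_empty_of_forall_notMem
      intro u hu
      rw [mem_Cs, hw, rk_v0] at hu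
      exact absurd hu.2.2 (not_lt.mpr (zero_le))
    rw [h1, h2]
  · have h1 := card_Bf_le (Y := Y) (Y.rk w)
    have h2 := card_Df_lt (Y := Y) (Y.rk w)
    have h3 := card_Df_le (Y := Y) (Y.rk w)
    have h4 := cnt (Y := Y) hM false (Y.rk w)
    have h5 := cnt (Y := Y) hM true (Y.rk w)
    have h6 : insert w (Y.Bf.filter (fun u => Y.rk u < Y.rk w)) ⊆
        Y.Bf.filter (fun u => Y.rk u ≤ Y.rk w) := by
      intro u hu
      rw [Finset.mem_insert, Finset.mem_filter, mem_Bf] at hu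
      rw [Finset.mem_filter, mem_Bf]
      rcases hu with hu | hu
      · rw [hu]; exact ⟨hw, le_refl _⟩
      · exact ⟨hu.1, hu.2.le⟩
    have h7 := Finset.card_le_card h6
    rw [Finset.card_insert_of_notMem] at h7
    · cases i
      · omega
      · omega
    · rw [Finset.mem_filter]
      rintro ⟨_, h8⟩
      exact lt_irrefl _ h8

include hM in
theorem rk_inj' {w w' : Y.F} (hw : Y.DD w) (hw' : Y.DD w') (h : Y.rk w = Y.rk w') : w = w' := by
  rcases hw with hw | hw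
  · rcases hw' with hw' | hw'
    · rw [hw, hw']
    · have := hw'.rk_pos
      rw [← h, hw, rk_v0] at this
      exact absurd this (lt_irrefl _)
  · rcases hw' with hw' | hw'
    · have := hw.rk_pos
      rw [h, hw', rk_v0] at this
      exact absurd this (lt_irrefl _)
    · exact rk_inj hM hw hw' h

variable (Y) in
/-- consecutive bad elements -/
def Nx (l w : Y.F) : Prop :=
  Y.DD l ∧ Y.Bd w ∧ Y.rk l < Y.rk w ∧ ∀ u, Y.Bd u → ¬ (Y.rk l < Y.rk u ∧ Y.rk u < Y.rk w)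

include hM in
theorem Nx.prop {l w : Y.F} (h : Y.Nx l w) {i : Bool} (hi : Y.ty w = some i) :
    Y.ty (Y.al 0 1 l) = some i ∧ Y.al 0 1 w ∈ Y.supp i (Y.al 0 1 l) := by
  classical
  obtain ⟨hl, hw, hlw, hno⟩ := h
  have h1 : insert w (Y.Gs i (Y.rk l)) ⊆ Y.Gs i (Y.rk w) := by
    intro u hu
    rw [Finset.mem_insert, mem_Gs] at hu
    rw [mem_Gs]
    rcases hu with hu | hu
    · rw [hu]; exact ⟨hw, hi, le_refl _⟩
    · exact ⟨hu.1, hu.2.1, hu.2.2.trans hlw.le⟩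
  have hnot : w ∉ Y.Gs i (Y.rk l) := by
    rw [mem_Gs]
    rintro ⟨_, _, h⟩
    exact absurd hlw (not_lt.mpr h)
  have h2 := Finset.card_le_card h1
  rw [Finset.card_insert_of_notMem hnot, cnt_eq hM hl i] at h2
  rw [cnt_eq hM (show Y.DD w from Or.inr hw) i] at h2
  have h3 : ∀ u ∈ Y.Cs i (Y.rk w), u = l ∨ u ∈ Y.Cs i (Y.rk l) := by
    intro u hu
    rw [mem_Cs] at hu
    rcases lt_trichotomy (Y.rk u) (Y.rk l) with h4 | h4 | h4
    · right
      rw [mem_Cs]
      exact ⟨hu.1, hu.2.1, h4⟩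
    · left
      exact rk_inj' hM hu.1 hl h4
    · exfalso
      rcases hu.1 with h5 | h5
      · rw [h5, rk_v0] at h4
        exact absurd h4 (not_lt.mpr (zero_le))
      · exact hno u h5 ⟨h4, hu.2.2⟩
  have h4 : l ∈ Y.Cs i (Y.rk w) := by
    by_contra hl'
    have h5 : Y.Cs i (Y.rk w) ⊆ Y.Cs i (Y.rk l) := by
      intro u hu
      rcases h3 u hu with h6 | h6
      · rw [h6] at hu
        exact absurd hu hl'
      · exact h6
    have := Finset.card_le_card h5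
    omega
  have h5 : Y.ty (Y.al 0 1 l) = some i := by
    rw [mem_Cs] at h4
    exact h4.2.1
  refine ⟨h5, ?_⟩
  obtain ⟨M, J, hJ, hM1, hM2⟩ := hM i
  apply child hJ (Y.Gs i (Y.rk l)) (Y.Cs i (Y.rk l)) w l hnot
  · refine ⟨hi, ?_⟩
    intro h
    exact hw.2.2 (h.trans hi.symm)
  · exact Gs_ty
  · exact Gs_closed
  · intro l' hl' h6
    apply h3
    rw [mem_Cs]
    exact ⟨DD_of hw.1 hl' h6, h6, Y.rk_lt hi hl'⟩
  · exact cnt_eq hM hl i

theorem Nx.exists_left {w : Y.F} (hw : Y.Bd w) : ∃ l, Y.Nx l w := by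
  classical
  obtain ⟨l, hl, hmax⟩ := Finset.exists_max_image (Y.Df.filter (fun l => Y.rk l < Y.rk w)) Y.rk
    ⟨Y.v 0, by
      rw [Finset.mem_filter, mem_Df, rk_v0]
      exact ⟨Or.inl rfl, hw.rk_pos⟩⟩
  rw [Finset.mem_filter, mem_Df] at hl
  refine ⟨l, hl.1, hw, hl.2, ?_⟩
  rintro u hu ⟨h1, h2⟩
  have := hmax u (by
    rw [Finset.mem_filter, mem_Df]
    exact ⟨Or.inr hu, h2⟩)
  exact absurd h1 (not_lt.mpr this)

theorem Nx.exists_right {l u : Y.F} (hl : Y.DD l) (hu : Y.Bd u) (h : Y.rk l < Y.rk u) :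
    ∃ w, Y.Nx l w := by
  classical
  obtain ⟨w, hw, hmin⟩ := Finset.exists_min_image (Y.Bf.filter (fun w => Y.rk l < Y.rk w)) Y.rk
    ⟨u, by
      rw [Finset.mem_filter, mem_Bf]
      exact ⟨hu, h⟩⟩
  rw [Finset.mem_filter, mem_Bf] at hw
  refine ⟨w, hl, hw.1, hw.2, ?_⟩
  rintro u' hu' ⟨h1, h2⟩
  have := hmin u' (by
    rw [Finset.mem_filter, mem_Bf]
    exact ⟨hu', h1⟩)
  exact absurd h2 (not_lt.mpr this)

include hM in
theorem Nx.unique_right {l w w' : Y.F} (h : Y.Nx l w) (h' : Y.Nx l w') : w = w' := by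
  rcases lt_trichotomy (Y.rk w) (Y.rk w') with h1 | h1 | h1
  · exact absurd ⟨h.2.2.1, h1⟩ (h'.2.2.2 w h.2.1)
  · exact rk_inj hM h.2.1 h'.2.1 h1
  · exact absurd ⟨h'.2.2.1, h1⟩ (h.2.2.2 w' h'.2.1)

include hM in
theorem Nx.unique_left {l l' w : Y.F} (h : Y.Nx l w) (h' : Y.Nx l' w) : l = l' := by
  have key : ∀ {l l' : Y.F}, Y.Nx l w → Y.Nx l' w → ¬ Y.rk l < Y.rk l' := by
    intro l l' h h' hlt
    rcases h'.1 with h2 | h2
    · rw [h2, rk_v0] at hlt
      exact absurd hlt (not_lt.mpr (zero_le))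
    · exact h.2.2.2 l' h2 ⟨hlt, h'.2.2.1⟩
  apply rk_inj' hM h.1 h'.1
  exact le_antisymm (not_lt.mp (key h' h)) (not_lt.mp (key h h'))

include hM in
theorem chain : ∃ (j : Bool) (nx : Y.F → Y.F → Prop),
    (∀ l w, nx l w → Y.DD l ∧ Y.Bd w ∧ Y.rk l < Y.rk w ∧ Y.ty w = some j ∧
      Y.ty (Y.al 0 1 l) = some j ∧ Y.al 0 1 w ∈ Y.supp j (Y.al 0 1 l)) ∧
    (∀ w, Y.Bd w → Y.ty w = some j → ∃ l, nx l w) ∧
    (∀ l, Y.DD l → Y.ty (Y.al 0 1 l) = some j → ∃ w, nx l w) ∧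
    (∀ l w w', nx l w → nx l w' → w = w') ∧ (∀ l l' w, nx l w → nx l' w → l = l') := by
  classical
  obtain ⟨h, hh, hmax⟩ := Finset.exists_max_image Y.Df Y.rk
    ⟨Y.v 0, by rw [mem_Df]; exact Or.inl rfl⟩
  rw [mem_Df] at hh
  obtain ⟨i, hi⟩ := Option.ne_none_iff_exists'.mp hh.ty_al
  refine ⟨!i, fun l w => Y.Nx l w ∧ Y.ty w = some (!i), ?_, ?_, ?_, ?_, ?_⟩
  · rintro l w ⟨h1, h2⟩
    have h3 := h1.prop hM h2
    exact ⟨h1.1, h1.2.1, h1.2.2.1, h2, h3.1, h3.2⟩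
  · intro w hw hty
    obtain ⟨l, hl⟩ := Nx.exists_left hw
    exact ⟨l, hl, hty⟩
  · intro l hl hty
    have hne : l ≠ h := by
      intro e
      rw [e, hi] at hty
      have := Option.some.inj hty
      cases i <;> cases this
    have hlt : Y.rk l < Y.rk h := by
      apply lt_of_le_of_ne (hmax l (mem_Df.mpr hl))
      intro e
      exact hne (rk_inj' hM hl hh e)
    have hbd : Y.Bd h := by
      rcases hh with hh | hh
      · rw [hh, rk_v0] at hlt
        exact absurd hlt (not_lt.mpr (zero_le))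
      · exact hh
    obtain ⟨w, hw⟩ := Nx.exists_right hl hbd hlt
    refine ⟨w, hw, ?_⟩
    obtain ⟨k, hk⟩ := Option.ne_none_iff_exists'.mp hw.2.1.2.1
    have := (hw.prop hM hk).1
    rw [hk, ← this, hty]
  · rintro l w w' ⟨h1, _⟩ ⟨h2, _⟩
    exact Nx.unique_right hM h1 h2
  · rintro l l' w ⟨h1, _⟩ ⟨h2, _⟩
    exact Nx.unique_left hM h1 h2

end Chain

end GTF

end Pool.Agent.Lib.MP_001d24_al
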