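import Pool.Agent.Lib.MP_001d24_al.Psi

/-!
# Coproducts of theories and the primeness theorem
-/

namespace Pool.Agent.Lib.MP_001d24_al

section Group

/-- commutative associative operation of exponent `n` gives a group -/
theorem exists_group {F : Type} (add : F → F → F) (comm : ∀ a b, add a b = add b a)
    (assoc : ∀ a b d, add (add a b) d = add a (add b d)) (n : ℕ) (hn : 1 ≤ n)
    (exp : ∀ a b, (fun x => add x b)^[n] a = a) (c : F) :
    ∃ G : AddCommGroup F, (∀ a b, G.toAdd.add a b = add a b) ∧
      ∀ a : F, G.toSubNegMonoid.toAddMonoid.nsmul n a = G.toZero.zero := by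
  have h1 : ∀ (m : ℕ) (a : F), add a ((fun x => add x c)^[m] c) = (fun x => add x c)^[m + 1] a := by
    intro m
    induction m with
    | zero => intro a; rfl
    | succ m ih =>
      intro a
      rw [Function.iterate_succ_apply', ← assoc, ih, ← Function.iterate_succ_apply' (fun x => add x c)]
  obtain ⟨z, hz⟩ : ∃ z, ∀ a, add a z = a := by
    refine ⟨(fun x => add x c)^[n - 1] c, ?_⟩
    intro a
    rw [h1, Nat.sub_add_cancel hn]
    exact exp a c
  let I1 : Add F := ⟨add⟩
  let I2 : Zero F := ⟨z⟩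
  let I3 : Neg F := ⟨fun b => (fun x => add x b)^[n - 1] z⟩
  let G : AddCommGroup F :=
    { add := add
      zero := z
      neg := fun b => (fun x => add x b)^[n - 1] z
      add_assoc := assoc
      zero_add := fun a => (comm z a).trans (hz a)
      add_zero := hz
      nsmul := nsmulRec
      zsmul := zsmulRec
      neg_add_cancel := by
        intro b
        change add ((fun x => add x b)^[n - 1] z) b = z
        have h2 := exp z b
        have h3 : n = (n - 1) + 1 := by omega
        rw [h3, Function.iterate_succ_apply'] at h2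
        exact h2
      add_comm := comm }
  refine ⟨G, fun a b => rfl, ?_⟩
  intro a
  have h4 : ∀ m : ℕ, G.toSubNegMonoid.toAddMonoid.nsmul m a = (fun x => add x a)^[m] z := by
    intro m
    induction m with
    | zero => rfl
    | succ m ih =>
      rw [Function.iterate_succ_apply', ← ih]
      rfl
  rw [h4]
  exact exp z a

end Group

section Co

variable (V : Bool → Variety)

/-- signature of the coproduct -/
def coSig : Sig where
  Op := Σ i, (V i).sig.Op
  ar := fun o => (V o.1).sig.ar o.2

variable {V}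

/-- embedding of terms -/
def emb (i : Bool) {X : Type} : Tm (V i).sig X → Tm (coSig V) X
  | .var x => .var x
  | .app o args => .app (S := coSig V) ⟨i, o⟩ (fun k => emb i (args k))

variable (V) in
/-- the coproduct of two varieties (disjoint union of the signatures and of the axioms) -/
abbrev co : Variety where
  sig := coSig V
  ax := {p | ∃ i, ∃ q ∈ (V i).ax, p = (emb i q.1, emb i q.2)}

/-- reduct -/
def red {N : Type} (J : Alg (coSig V) N) (i : Bool) : Alg (V i).sig N :=
  fun o a => J ⟨i, o⟩ a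

theorem eval_emb {N : Type} (J : Alg (coSig V) N) (i : Bool) {X : Type} (t : Tm (V i).sig X)
    (f : X → N) : (emb i t).eval J f = t.eval (red J i) f := by
  induction t with
  | var x => rfl
  | app o args ih =>
    simp only [emb, Tm.eval, red]
    congr 1
    funext k
    exact ih k

theorem red_model {N : Type} {J : Alg (coSig V) N} (hJ : (co V).IsModel J) (i : Bool) :
    (V i).IsModel (red J i) := by
  intro p hp f
  rw [← eval_emb, ← eval_emb]
  exact hJ _ ⟨i, p, hp, rfl⟩ f

/-- combination of structures -/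
def coAlg {N : Type} (J : ∀ i, Alg (V i).sig N) : Alg (coSig V) N := fun o a => J o.1 o.2 a

theorem coAlg_model {N : Type} {J : ∀ i, Alg (V i).sig N} (hJ : ∀ i, (V i).IsModel (J i)) :
    (co V).IsModel (coAlg J) := by
  rintro p ⟨i, q, hq, rfl⟩ f
  exact (eval_emb (coAlg J) i q.1 f).trans ((hJ i q hq f).trans (eval_emb (coAlg J) i q.2 f).symm)

theorem coAlg_hom {N M : Type} {J : ∀ i, Alg (V i).sig N} {K : ∀ i, Alg (V i).sig M} {f : N → M}
    (h : ∀ i, IsHom (J i) (K i) f) : IsHom (coAlg J) (coAlg K) f := by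
  rintro ⟨i, o⟩ a
  exact h i o a

theorem co_satisfies {i : Bool} {σ : MalcevCond} (h : (V i).Satisfies σ) :
    (co V).Satisfies σ := by
  obtain ⟨t, ht⟩ := h
  refine ⟨fun j => emb i (t j), ?_⟩
  intro p hp N J hJ f
  rw [Tm.eval_interp, Tm.eval_interp]
  have h1 : termAlg (S := ⟨Fin σ.k, σ.ar⟩) (S' := (co V).sig) (fun j => emb i (t j)) J =
      termAlg (S := ⟨Fin σ.k, σ.ar⟩) t (red J i) := by
    funext o a
    exact eval_emb J i (t o) a
  rw [h1]
  have h2 := ht p hp N (red J i) (red_model hJ i) f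
  rw [Tm.eval_interp, Tm.eval_interp] at h2
  exact h2

variable [∀ i, Countable (V i).sig.Op]

theorem pprime_aux (hN : ∀ i, ∃ (N : Type) (I : Alg (V i).sig N), (V i).IsModel I ∧ Nontrivial N) :
    ∃ X : TF V, (co V).IsModel (coAlg X.alg) := by
  obtain ⟨X⟩ := TF.exists hN
  exact ⟨X, coAlg_model (fun i => (X.fo i).model)⟩

/-- a finite nontrivial model -/
def HasFin (W : Variety) : Prop :=
  ∃ (M : Type) (J : Alg W.sig M), W.IsModel J ∧ Finite M ∧ Nontrivial M

theorem pprime (n : ℕ) (hn : 1 ≤ n) (hM : ∀ i, HasFin (V i)) (hP : PAn n (co V)) :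
    ∃ i, PAn n (V i) := by
  obtain ⟨X, hX⟩ := pprime_aux (V := V) (fun i => by
    obtain ⟨M, J, h1, _, h2⟩ := hM i
    exact ⟨M, J, h1, h2⟩)
  obtain ⟨q, hq⟩ := hP
  obtain ⟨h1, h2, h3⟩ := hq X.F (coAlg X.alg) hX X.c
  obtain ⟨G, hG1, hG2⟩ := exists_group (fun a b => q.eval (coAlg X.alg) ![a, b, X.c]) h1 h2 n hn
    h3 X.c
  let Y : GTF V :=
    { X with
      grp := G
      sub_add := by
        intro s a b
        change X.sub s (G.toAdd.add a b) = G.toAdd.add (X.sub s a) (X.sub s b)
        rw [hG1, hG1]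
        have hom : IsHom (coAlg X.alg) (coAlg X.alg) (X.sub s) :=
          coAlg_hom (fun i => X.sub_hom s i)
        rw [hom.map_eval]
        congr 1
        funext k
        fin_cases k
        · rfl
        · rfl
        · exact X.sub_c s }
  obtain ⟨j, nx, p1, p2, p3, p4, p5⟩ := GTF.chain (Y := Y) hM
  exact ⟨!j, GTF.PAn_of (Y := Y) (j := j) (nx := nx) ⟨p1, p2, p3, p4, p5⟩ n hn hG2⟩

theorem pan_of_trivial (n : ℕ) (W : Variety)
    (h : ¬ ∃ (N : Type) (I : Alg W.sig N), W.IsModel I ∧ Nontrivial N) : PAn n W := by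
  refine ⟨.var 0, ?_⟩
  intro N J hJ c
  have hs : Subsingleton N := by
    by_contra hns
    rw [not_subsingleton_iff_nontrivial] at hns
    exact h ⟨N, J, hJ, hns⟩
  refine ⟨fun a b => Subsingleton.elim _ _, fun a b d => Subsingleton.elim _ _,
    fun a b => Subsingleton.elim _ _⟩

theorem pprime_one (hP : PAn 1 (co V)) : ∃ i, PAn 1 (V i) := by
  by_contra hcon
  push Not at hcon
  obtain ⟨X, hX⟩ := pprime_aux (V := V) (fun i => by
    by_contra h
    exact hcon i (pan_of_trivial 1 (V i) h))
  obtain ⟨q, hq⟩ := hP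
  obtain ⟨h1, _, h3⟩ := hq X.F (coAlg X.alg) hX X.c
  have h4 := h3 (X.v 0) X.c
  have h5 := h3 X.c (X.v 0)
  simp only [Function.iterate_one] at h4 h5
  rw [h1] at h4
  exact X.v_ne_c 0 (h4.symm.trans h5)

theorem pprime' (n : ℕ) (hn : 1 ≤ n) (hM : n = 1 ∨ ∀ i, HasFin (V i)) (hP : PAn n (co V)) :
    ∃ i, PAn n (V i) := by
  rcases hM with hM | hM
  · subst hM
    exact pprime_one hP
  · exact pprime n hn hM hP

end Co

end Pool.Agent.Lib.MP_001d24_al
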