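import Mathlib

/-!
# Basic definitions: signatures, terms, varieties, strong Mal'cev conditions, dimension

All definitions used by the statement of the main theorem live in this file.
-/

namespace Pool.Agent.Lib.MP_001d24_al

universe u v

/-- A signature: a type of operation symbols, each with a finite arity
(arity `0`, i.e. nullary symbols, is allowed). -/
structure Sig : Type 1 where
  /-- the operation symbols -/
  Op : Type
  /-- the arity of a symbol -/
  ar : Op → ℕ

/-- Terms over the signature `S` with variables in `X`. -/
inductive Tm (S : Sig) (X : Type) : Type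
  | var (x : X) : Tm S X
  | app (o : S.Op) (args : Fin (S.ar o) → Tm S X) : Tm S X

/-- An algebra structure of signature `S` on the set `N`: an interpretation of every symbol. -/
def Alg (S : Sig) (N : Type u) : Type u := (o : S.Op) → (Fin (S.ar o) → N) → N

/-- The value of a term in an algebra under an assignment of the variables. -/
def Tm.eval {S : Sig} {X : Type} {N : Type u} (I : Alg S N) (f : X → N) : Tm S X → N
  | .var x => f x
  | .app o args => I o (fun k => (args k).eval I f)

/-- Simultaneous substitution of terms for the variables of a term. -/
def Tm.subst {S : Sig} {X Y : Type} (g : X → Tm S Y) : Tm S X → Tm S Y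
  | .var x => g x
  | .app o args => .app o (fun k => (args k).subst g)

/-- Translation of terms: every symbol `j` of the signature `S` is replaced by the term `t j`
of the signature `S'` (a term in `S.ar j` variables). -/
def Tm.interp {S S' : Sig} {X : Type} (t : (j : S.Op) → Tm S' (Fin (S.ar j))) :
    Tm S X → Tm S' X
  | .var x => .var x
  | .app o args => (t o).subst (fun k => (args k).interp t)

/-- A variety, given by its signature and a set of defining identities (pairs of terms in
countably many variables). -/
structure Variety : Type 1 where
  /-- the signature -/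
  sig : Sig
  /-- the defining identities -/
  ax : Set (Tm sig ℕ × Tm sig ℕ)

/-- The algebra `(N, I)` is a member of the variety `V`: it satisfies the defining identities. -/
def Variety.IsModel (V : Variety) {N : Type u} (I : Alg V.sig N) : Prop :=
  ∀ p ∈ V.ax, ∀ f : ℕ → N, p.1.eval I f = p.2.eval I f

/-- The identity `s ≈ t` holds in the variety `V`, i.e. in all its members. -/
def Variety.Holds (V : Variety) (s t : Tm V.sig ℕ) : Prop :=
  ∀ (N : Type) (I : Alg V.sig N), V.IsModel I → ∀ f : ℕ → N, s.eval I f = t.eval I f

/-- A strong Mal'cev condition: finitely many operation symbols `0, …, k-1` of arities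
`ar 0, …, ar (k-1)` and a finite list of identities in these symbols. -/
structure MalcevCond : Type where
  /-- the number of operation symbols -/
  k : ℕ
  /-- the arities -/
  ar : Fin k → ℕ
  /-- the identities -/
  ids : List (Tm ⟨Fin k, ar⟩ ℕ × Tm ⟨Fin k, ar⟩ ℕ)

/-- The variety `V` satisfies the strong Mal'cev condition `σ`: there are terms `t j` of `V` of
the same arities as the symbols of `σ` such that every identity of `σ`, with the symbols
replaced by the terms, holds in `V`. -/
def Variety.Satisfies (V : Variety) (σ : MalcevCond) : Prop :=
  ∃ t : (j : Fin σ.k) → Tm V.sig (Fin (σ.ar j)),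
    ∀ p ∈ σ.ids, V.Holds (Tm.interp (S := ⟨Fin σ.k, σ.ar⟩) t p.1)
      (Tm.interp (S := ⟨Fin σ.k, σ.ar⟩) t p.2)

/-- The SC-theory of a variety: the set of strong Mal'cev conditions it satisfies. -/
def SC (V : Variety) : Set MalcevCond := {σ | V.Satisfies σ}

/-- `τ` is implied by the conjunction of the conditions in `Γ`: every variety satisfying all
members of `Γ` satisfies `τ`. -/
def Implies (Γ : Set MalcevCond) (τ : MalcevCond) : Prop :=
  ∀ V : Variety, (∀ σ ∈ Γ, V.Satisfies σ) → V.Satisfies τ

/-- `τ` is implied by the conjunction of some finite subset of `Γ`. -/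
def FinImplies (Γ : Set MalcevCond) (τ : MalcevCond) : Prop :=
  ∃ Γ₀ : Set MalcevCond, Γ₀ ⊆ Γ ∧ Γ₀.Finite ∧ Implies Γ₀ τ

/-- `Γ` is a basis of `SC V`: a subset of `SC V` which generates `SC V` (every member of `SC V`
is implied by the conjunction of some finite subset of `Γ`) and is independent (no `σ ∈ Γ` is
implied by the conjunction of a finite subset of `Γ \ {σ}`). -/
def IsBasis (V : Variety) (Γ : Set MalcevCond) : Prop :=
  Γ ⊆ SC V ∧ (∀ τ ∈ SC V, FinImplies Γ τ) ∧ (∀ σ ∈ Γ, ¬ FinImplies (Γ \ {σ}) σ)

/-- The dimension of a variety: the supremum of the lengths (cardinalities) of the bases of its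
SC-theory. -/
noncomputable def dim (V : Variety) : ℕ∞ :=
  ⨆ (Γ : Set MalcevCond) (_ : IsBasis V Γ), Γ.encard

/-- The three symbols of the signature of groups. -/
inductive GOp : Type
  | mul : GOp
  | inv : GOp
  | one : GOp

/-- The signature of groups: a binary, a unary and a nullary symbol. -/
def groupSig : Sig where
  Op := GOp
  ar := fun o => match o with
    | .mul => 2
    | .inv => 1
    | .one => 0

/-- A group regarded as an algebra in the signature of groups. -/
def groupAlg (A : Type u) [Group A] : Alg groupSig A := fun o =>
  match o with
  | .mul => fun a => a (0 : Fin 2) * a (1 : Fin 2)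
  | .inv => fun a => (a (0 : Fin 1))⁻¹
  | .one => fun _ => 1

/-- The variety `V(A) = HSP(A)` generated by the group `A` (in the signature of groups): it is
axiomatised by all the identities that hold in `A` (Birkhoff's theorem). For a finite abelian
group `A` its members are exactly the abelian groups satisfying `x ^ n = 1`, where `n` is the
exponent of `A`: see `groupVariety_isModel_iff` in `Dim.lean`. -/
def groupVariety (A : Type u) [Group A] : Variety where
  sig := groupSig
  ax := {p | ∀ f : ℕ → A, p.1.eval (groupAlg A) f = p.2.eval (groupAlg A) f}

end Pool.Agent.Lib.MP_001d24_al
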