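import Pool.Agent.Lib.MP_001d24_al.Main

/-!
# The dimension of the variety generated by a finite abelian group
-/

namespace Pool.Agent.Lib.MP_001d24_al

universe u

section Terms

/-- commutative associative operation of exponent `n` gives a group -/
theorem exists_cgroup {F : Type} (op : F → F → F) (comm : ∀ a b, op a b = op b a)
    (assoc : ∀ a b d, op (op a b) d = op a (op b d)) (n : ℕ) (hn : 1 ≤ n)
    (exp : ∀ a b, (fun x => op x b)^[n] a = a) (c : F) :
    ∃ G : CommGroup F, (∀ a b, G.toMul.mul a b = op a b) ∧
      G.toOne.one = (fun x => op x c)^[n - 1] c ∧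
      (∀ b, G.toInv.inv b = (fun x => op x b)^[n - 1] ((fun x => op x c)^[n - 1] c)) ∧
      ∀ a : F, G.toDivInvMonoid.toMonoid.npow n a = G.toOne.one := by
  have h1 : ∀ (m : ℕ) (a : F), op a ((fun x => op x c)^[m] c) = (fun x => op x c)^[m + 1] a := by
    intro m
    induction m with
    | zero => intro a; rfl
    | succ m ih =>
      intro a
      rw [Function.iterate_succ_apply', ← assoc, ih, ← Function.iterate_succ_apply' (fun x => op x c)]
  have hz : ∀ a, op a ((fun x => op x c)^[n - 1] c) = a := by
    intro a
    rw [h1, Nat.sub_add_cancel hn]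
    exact exp a c
  generalize (fun x => op x c)^[n - 1] c = z at hz
  let I1 : Mul F := ⟨op⟩
  let I2 : One F := ⟨z⟩
  let I3 : Inv F := ⟨fun b => (fun x => op x b)^[n - 1] z⟩
  let G : CommGroup F :=
    { mul := op
      one := z
      inv := fun b => (fun x => op x b)^[n - 1] z
      mul_assoc := assoc
      one_mul := fun a => (comm z a).trans (hz a)
      mul_one := hz
      npow := npowRec
      zpow := zpowRec
      inv_mul_cancel := by
        intro b
        change op ((fun x => op x b)^[n - 1] z) b = z
        have h2 := exp z b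
        have h3 : n = (n - 1) + 1 := by omega
        rw [h3, Function.iterate_succ_apply'] at h2
        exact h2
      mul_comm := comm }
  refine ⟨G, fun a b => rfl, rfl, fun b => rfl, ?_⟩
  intro a
  have h4 : ∀ m : ℕ, G.toDivInvMonoid.toMonoid.npow m a = (fun x => op x a)^[m] z := by
    intro m
    induction m with
    | zero => rfl
    | succ m ih =>
      rw [Function.iterate_succ_apply', ← ih]
      rfl
  rw [h4]
  exact exp z a

variable {S : Sig} (n : ℕ) (q : Tm S (Fin 3)) (e : Tm S (Fin 0))

/-- the nullary term in any set of variables -/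
def ee0 (X : Type) : Tm S X := e.subst (fun k => k.elim0)

/-- the binary term -/
def qq {X : Type} (a b : Tm S X) : Tm S X := q.subst ![a, b, ee0 e X]

/-- the zero term -/
def zt (X : Type) : Tm S X := (fun t => qq q e t (ee0 e X))^[n - 1] (ee0 e X)

/-- the group terms -/
def gterm : (o : groupSig.Op) → Tm S (Fin (groupSig.ar o)) := fun o => match o with
  | .mul => qq q e (.var (0 : Fin 2)) (.var (1 : Fin 2))
  | .inv => (fun t => qq q e t (.var (0 : Fin 1)))^[n - 1] (zt n q e (Fin 1))
  | .one => zt n q e (Fin 0)

variable {N : Type} (J : Alg S N)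

/-- the value of the nullary term -/
def cval : N := e.eval J (fun k => k.elim0)

theorem eval_ee0 {X : Type} (f : X → N) : (ee0 e X).eval J f = cval e J := by
  unfold ee0 cval
  rw [Tm.eval_subst]
  congr 1
  funext k
  exact k.elim0

theorem eval_qq {X : Type} (f : X → N) (a b : Tm S X) : (qq q e a b).eval J f =
    q.eval J ![a.eval J f, b.eval J f, cval e J] := by
  unfold qq
  rw [Tm.eval_subst]
  congr 1
  funext k
  fin_cases k
  · rfl
  · rfl
  · exact eval_ee0 e J f

theorem eval_iter' {X : Type} (f : X → N) (b t : Tm S X) (m : ℕ) :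
    ((fun t => qq q e t b)^[m] t).eval J f =
      (fun x => q.eval J ![x, b.eval J f, cval e J])^[m] (t.eval J f) := by
  induction m generalizing t with
  | zero => rfl
  | succ m ih =>
    rw [Function.iterate_succ_apply, Function.iterate_succ_apply, ih, eval_qq]

theorem eval_zt {X : Type} (f : X → N) : (zt n q e X).eval J f =
    (fun x => q.eval J ![x, cval e J, cval e J])^[n - 1] (cval e J) := by
  unfold zt
  rw [eval_iter', eval_ee0]

end Terms

section Key

theorem key {A : Type} [CommGroup A] {n : ℕ} (hn : 1 ≤ n) (hexp : Monoid.exponent A = n)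
    {V : Variety} (hV : PAn n V) (e : Tm V.sig (Fin 0)) {τ : MalcevCond}
    (hτ : τ ∈ SC (groupVariety A)) : V.Satisfies τ := by
  obtain ⟨t, ht⟩ : ∃ t : (j : Fin τ.k) → Tm groupSig (Fin (τ.ar j)), ∀ p ∈ τ.ids,
    (groupVariety A).Holds (Tm.interp (S := ⟨Fin τ.k, τ.ar⟩) (S' := groupSig) t p.1)
      (Tm.interp (S := ⟨Fin τ.k, τ.ar⟩) (S' := groupSig) t p.2) := hτ
  obtain ⟨q, hq⟩ := hV
  refine ⟨fun j => (t j).interp (gterm n q e), ?_⟩
  intro p hp N J hJ f
  rw [Tm.eval_interp, Tm.eval_interp]
  have h1 : termAlg (S := ⟨Fin τ.k, τ.ar⟩) (fun j => (t j).interp (gterm n q e)) J =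
      termAlg (S := ⟨Fin τ.k, τ.ar⟩) t (termAlg (gterm n q e) J) := by
    funext o a
    exact Tm.eval_interp (gterm n q e) J a (t o)
  rw [h1]
  obtain ⟨g1, g2, g3⟩ := hq N J hJ (cval e J)
  obtain ⟨G, G1, G2, G3, G4⟩ := exists_cgroup (fun a b => q.eval J ![a, b, cval e J]) g1 g2 n hn g3
    (cval e J)
  have h2 : termAlg (gterm n q e) J = groupAlg N := by
    funext o a
    cases o with
    | mul =>
      exact (eval_qq q e J a (.var (0 : Fin 2)) (.var (1 : Fin 2))).trans (G1 _ _).symm
    | inv =>
      have h3 : (zt n q e (Fin 1)).eval J a =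
          (fun x => q.eval J ![x, cval e J, cval e J])^[n - 1] (cval e J) := eval_zt n q e J a
      have h4 := eval_iter' q e J a (.var (0 : Fin 1)) (zt n q e (Fin 1)) (n - 1)
      rw [h3] at h4
      exact h4.trans (G3 _).symm
    | one =>
      exact (eval_zt n q e J a).trans G2.symm
  rw [h2]
  have h3 := group_transfer (A := A) (N := N) (by
    intro x
    rw [hexp]
    exact G4 x) (Tm.interp (S := ⟨Fin τ.k, τ.ar⟩) (S' := groupSig) t p.1)
    (Tm.interp (S := ⟨Fin τ.k, τ.ar⟩) (S' := groupSig) t p.2)
    (fun g => ht p hp A (groupAlg A) (fun p hp => hp) g) f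
  rw [Tm.eval_interp, Tm.eval_interp] at h3
  exact h3

/-- product of group terms -/
def mulT {X : Type} (a b : Tm groupSig X) : Tm groupSig X :=
  .app GOp.mul (fun k : Fin 2 => if k = 0 then a else b)

theorem eval_mulT {X : Type} {N : Type u} (J : Alg groupSig N) (f : X → N) (a b : Tm groupSig X) :
    (mulT a b).eval J f = J GOp.mul (fun k : Fin 2 => if k = 0 then a.eval J f else b.eval J f) := by
  unfold mulT
  rw [Tm.eval]
  congr 1
  funext k
  fin_cases k <;> rfl

theorem eval_mulT_iter {X : Type} {N : Type u} (J : Alg groupSig N) (f : X → N)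
    (b t : Tm groupSig X) (m : ℕ) :
    ((fun t => mulT t b)^[m] t).eval J f =
      (fun x => J GOp.mul (fun k : Fin 2 => if k = 0 then x else b.eval J f))^[m] (t.eval J f) := by
  induction m generalizing t with
  | zero => rfl
  | succ m ih =>
    rw [Function.iterate_succ_apply, Function.iterate_succ_apply, ih, eval_mulT]

theorem iter_mul {A : Type u} [CommGroup A] (b : A) (m : ℕ) (a : A) :
    (fun x => (groupAlg A) GOp.mul (fun k : Fin 2 => if k = 0 then x else b))^[m] a = a * b ^ m := by
  induction m with
  | zero => simp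
  | succ m ih =>
    rw [Function.iterate_succ_apply', ih, pow_succ, ← mul_assoc]
    rfl

theorem groupVariety_pan (A : Type u) [CommGroup A] :
    PAn (Monoid.exponent A) (groupVariety A) := by
  refine ⟨mulT (.var 0) (.var 1), ?_⟩
  intro N J hJ c
  have hq : ∀ a b, (mulT (.var 0) (.var 1) : Tm groupSig (Fin 3)).eval J ![a, b, c] =
      J GOp.mul (fun k : Fin 2 => if k = 0 then a else b) := by
    intro a b
    exact eval_mulT J _ _ _
  refine ⟨?_, ?_, ?_⟩
  · intro a b
    have h1 : (mulT (.var 0) (.var 1), mulT (.var 1) (.var 0)) ∈ (groupVariety A).ax := by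
      intro f
      rw [eval_mulT, eval_mulT]
      exact mul_comm _ _
    have h2 := hJ _ h1 (fun k => if k = 0 then a else b)
    have e1 := eval_mulT J (fun k => if k = 0 then a else b) (.var 0) (.var 1)
    have e2 := eval_mulT J (fun k => if k = 0 then a else b) (.var 1) (.var 0)
    exact (hq a b).trans ((e1.symm.trans (h2.trans e2)).trans (hq b a).symm)
  · intro a b d
    have h1 : (mulT (mulT (.var 0) (.var 1)) (.var 2), mulT (.var 0) (mulT (.var 1) (.var 2))) ∈
        (groupVariety A).ax := by
      intro f
      simp only [eval_mulT]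
      exact mul_assoc _ _ _
    have h2 := hJ _ h1 (fun k => if k = 0 then a else if k = 1 then b else d)
    have e1 := eval_mulT J (fun k => if k = 0 then a else if k = 1 then b else d)
      (mulT (.var 0) (.var 1)) (.var 2)
    have e2 := eval_mulT J (fun k => if k = 0 then a else if k = 1 then b else d) (.var 0)
      (mulT (.var 1) (.var 2))
    rw [eval_mulT J _ (.var 0) (.var 1)] at e1
    rw [eval_mulT J _ (.var 1) (.var 2)] at e2
    exact (hq _ d).trans (((congrArg (fun y => J GOp.mul (fun k : Fin 2 => if k = 0 then y else d))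
      (hq a b)).trans ((e1.symm.trans (h2.trans e2)).trans
        (congrArg (fun y => J GOp.mul (fun k : Fin 2 => if k = 0 then a else y))
          (hq b d).symm))).trans (hq a _).symm)
  · intro a b
    have h1 : ((fun t => mulT t (.var 1))^[Monoid.exponent A] (.var 0), .var 0) ∈
        (groupVariety A).ax := by
      intro f
      simp only
      rw [eval_mulT_iter, iter_mul, Monoid.pow_exponent_eq_one, mul_one]
      rfl
    have h2 := hJ _ h1 (fun k => if k = 0 then a else b)
    have e1 := eval_mulT_iter J (fun k => if k = 0 then a else b) (.var 1) (.var 0)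
      (Monoid.exponent A)
    have e2 : (fun x => (mulT (.var 0) (.var 1) : Tm groupSig (Fin 3)).eval J ![x, b, c]) =
      fun x => J GOp.mul (fun k : Fin 2 => if k = 0 then x else b) := by
      funext x
      exact hq x b
    rw [e2]
    exact e1.symm.trans h2

theorem groupVariety_nul (A : Type u) [CommGroup A] :
    Nonempty (Tm (groupVariety A).sig (Fin 0)) :=
  ⟨.app (S := groupSig) GOp.one (fun k : Fin 0 => k.elim0)⟩

theorem hasOn_of_SC (A : Type) [CommGroup A] {σ : MalcevCond} (h : σ ∈ SC (groupVariety A)) :
    HasOn A σ.toVar := by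
  obtain ⟨t, ht⟩ := h
  exact ⟨_, Variety.Satisfies.model ht (J := groupAlg A) (fun p hp => hp)⟩

theorem upper (A : Type) [CommGroup A] [Finite A] {Γ : Set MalcevCond}
    (hΓ : IsBasis (groupVariety A) Γ) : Γ.encard ≤ 2 := by
  classical
  obtain ⟨hsub, hgen, hind⟩ := hΓ
  have hn : 1 ≤ Monoid.exponent A := Nat.one_le_iff_ne_zero.mpr Monoid.exponent_ne_zero_of_finite
  have hA : Monoid.exponent A = 1 ∨ Nontrivial A := by
    rcases subsingleton_or_nontrivial A with h | h
    · left
      exact Monoid.exp_eq_one_iff.mpr h
    · right; exact h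
  -- a condition with `PAn`
  obtain ⟨σ, hσ, hσP⟩ : ∃ σ ∈ Γ, PAn (Monoid.exponent A) σ.toVar := by
    obtain ⟨Γ₁, h1, h2, h3⟩ := hgen _ (show panCond (Monoid.exponent A) ∈ SC (groupVariety A) from
      pan_satisfies (groupVariety_pan A))
    have h4 : ∀ σ, σ ∈ h2.toFinset.toList ↔ σ ∈ Γ₁ := by
      intro σ
      rw [Finset.mem_toList, Set.Finite.mem_toFinset]
    have h5 := satisfies_pan (h3 (LV h2.toFinset.toList)
      (fun σ hσ => LV_satisfies _ σ ((h4 σ).mpr hσ)))
    obtain ⟨σ, hσ, h6⟩ := LV_pan A (Monoid.exponent A) hn hA _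
      (fun σ hσ => hasOn_of_SC A (hsub (h1 ((h4 σ).mp hσ)))) h5
    exact ⟨σ, h1 ((h4 σ).mp hσ), h6⟩
  obtain ⟨σ', hσ', j, hj⟩ : ∃ σ ∈ Γ, ∃ j, σ.ar j = 0 := by
    obtain ⟨Γ₁, h1, h2, h3⟩ := hgen _ (show nulCond ∈ SC (groupVariety A) from
      nul_satisfies (groupVariety_nul A).some)
    have h4 : ∀ σ, σ ∈ h2.toFinset.toList ↔ σ ∈ Γ₁ := by
      intro σ
      rw [Finset.mem_toList, Set.Finite.mem_toFinset]
    have h5 := satisfies_nul (h3 (LV h2.toFinset.toList)
      (fun σ hσ => LV_satisfies _ σ ((h4 σ).mpr hσ)))
    obtain ⟨σ, hσ, h6⟩ := LV_nullary _ (exists_nullary h5.some)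
    exact ⟨σ, h1 ((h4 σ).mp hσ), h6⟩
  have hΓ2 : Γ ⊆ {σ, σ'} := by
    intro τ hτ
    by_contra hne
    apply hind τ hτ
    refine ⟨{σ, σ'}, ?_, Set.toFinite _, ?_⟩
    · rintro ρ (hρ | hρ)
      · rw [hρ]
        refine ⟨hσ, fun h => hne ?_⟩
        left; exact h.symm
      · rw [Set.mem_singleton_iff] at hρ
        rw [hρ]
        refine ⟨hσ', fun h => hne ?_⟩
        right; exact h.symm
    · intro V hV
      exact key hn rfl (pan_of_satisfies (hV σ (Or.inl rfl)) hσP)
        (nul_of_satisfies (hV σ' (Or.inr rfl)) hj).some (hsub hτ)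
  refine (Set.encard_le_encard hΓ2).trans ((Set.encard_insert_le _ _).trans ?_)
  rw [Set.encard_singleton]
  norm_num

theorem nul_not_pan {n : ℕ} (hn : 1 ≤ n) : ¬ PAn n nulCond.toVar := by
  rintro ⟨q, hq⟩
  obtain ⟨h1, _, h3⟩ := hq Bool (fun _ _ => true) (fun p hp => by cases hp) true
  obtain ⟨m, rfl⟩ : ∃ m, n = m + 1 := ⟨n - 1, by omega⟩
  match q, h1, h3 with
  | .app o args, _, h3 =>
    have h4 := h3 false true
    rw [Function.iterate_succ_apply'] at h4
    simp [Tm.eval] at h4
  | .var k, h1, h3 =>
    fin_cases k
    · have := h1 true false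
      simp [Tm.eval] at this
    · have := h1 true false
      simp [Tm.eval] at this
    · have h4 := h3 false true
      rw [Function.iterate_succ_apply'] at h4
      simp [Tm.eval] at h4

theorem lower (A : Type) [CommGroup A] [Finite A] :
    IsBasis (groupVariety A) {panCond (Monoid.exponent A), nulCond} := by
  have hn : 1 ≤ Monoid.exponent A := Nat.one_le_iff_ne_zero.mpr Monoid.exponent_ne_zero_of_finite
  refine ⟨?_, ?_, ?_⟩
  · rintro σ (hσ | hσ)
    · rw [hσ]; exact pan_satisfies (groupVariety_pan A)
    · rw [Set.mem_singleton_iff] at hσ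
      rw [hσ]; exact nul_satisfies (groupVariety_nul A).some
  · intro τ hτ
    refine ⟨{panCond (Monoid.exponent A), nulCond}, subset_refl _, Set.toFinite _, ?_⟩
    intro V hV
    exact key hn rfl (satisfies_pan (hV _ (Or.inl rfl)))
      (satisfies_nul (hV _ (Or.inr rfl))).some hτ
  · rintro σ (hσ | hσ)
    · rintro ⟨Γ₀, h1, _, h3⟩
      rw [hσ] at h3
      apply nul_not_pan hn
      apply satisfies_pan
      apply h3
      intro ρ hρ
      obtain ⟨h4, h5⟩ := h1 hρ
      rcases h4 with h4 | h4
      · exact absurd (h4.trans hσ.symm) h5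
      · rw [Set.mem_singleton_iff] at h4
        rw [h4]
        exact toVar_satisfies _
    · rintro ⟨Γ₀, h1, _, h3⟩
      rw [Set.mem_singleton_iff] at hσ
      rw [hσ] at h3
      have h6 : (panCond (Monoid.exponent A)).toVar.Satisfies nulCond := by
        apply h3
        intro ρ hρ
        obtain ⟨h4, h5⟩ := h1 hρ
        rcases h4 with h4 | h4
        · rw [h4]
          exact toVar_satisfies _
        · rw [Set.mem_singleton_iff] at h4
          exact absurd (h4.trans hσ.symm) h5
      obtain ⟨o, ho⟩ := exists_nullary (satisfies_nul h6).some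
      have h7 : (3 : ℕ) = 0 := ho
      cases h7

theorem dim_eq_two (A : Type) [CommGroup A] [Finite A] : dim (groupVariety A) = 2 := by
  apply le_antisymm
  · apply iSup₂_le
    intro Γ hΓ
    exact upper A hΓ
  · have h1 : ({panCond (Monoid.exponent A), nulCond} : Set MalcevCond).encard = 2 := by
      apply Set.encard_pair
      intro h
      have := congrArg (fun σ : MalcevCond => σ.ids.length) h
      simp [panCond, nulCond] at this
    rw [← h1]
    exact le_iSup₂ (f := fun (Γ : Set MalcevCond) (_ : IsBasis (groupVariety A) Γ) => Γ.encard)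
      _ (lower A)

end Key

section Universe

universe v

theorem groupAlg_hom {A : Type u} {B : Type v} [Group A] [Group B] (e : A ≃* B) :
    IsHom (groupAlg A) (groupAlg B) e := by
  intro o a
  cases o with
  | mul => exact map_mul e _ _
  | inv => exact map_inv e _
  | one => exact map_one e

theorem groupVariety_ax_subset {A : Type u} {B : Type v} [Group A] [Group B] (e : A ≃* B) :
    {p : Tm groupSig ℕ × Tm groupSig ℕ |
      ∀ f : ℕ → B, p.1.eval (groupAlg B) f = p.2.eval (groupAlg B) f} ⊆
    {p : Tm groupSig ℕ × Tm groupSig ℕ |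
      ∀ f : ℕ → A, p.1.eval (groupAlg A) f = p.2.eval (groupAlg A) f} := by
  intro p hp f
  apply e.injective
  rw [(groupAlg_hom e).map_eval, (groupAlg_hom e).map_eval]
  exact hp _

theorem groupVariety_congr {A : Type u} {B : Type v} [Group A] [Group B] (e : A ≃* B) :
    groupVariety A = groupVariety B := by
  unfold groupVariety
  congr 1
  exact Set.Subset.antisymm (groupVariety_ax_subset e.symm) (groupVariety_ax_subset e)

/-- The dimension of the variety generated by a finite abelian group is `2`. -/
theorem dim_groupVariety (A : Type u) [CommGroup A] [Finite A] : dim (groupVariety A) = 2 := by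
  have h1 : Small.{0} A := inferInstance
  rw [groupVariety_congr (Shrink.mulEquiv.{0, u} (α := A)).symm]
  exact dim_eq_two (Shrink.{0} A)

/-- Members of `groupVariety A`, for `A` a finite abelian group, are exactly the abelian groups
satisfying `x ^ n = 1`, where `n` is the exponent of `A`. (Not used; a check of the definition.) -/
theorem groupVariety_isModel_iff (A : Type u) [CommGroup A] {N : Type} (J : Alg groupSig N) :
    (groupVariety A).IsModel (N := N) J ↔
      ∃ G : CommGroup N, J = groupAlg N ∧ ∀ x : N, x ^ Monoid.exponent A = 1 := by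
  constructor
  · intro hJ
    have hid : ∀ (s t : Tm groupSig ℕ), (∀ f : ℕ → A, s.eval (groupAlg A) f =
        t.eval (groupAlg A) f) → ∀ f : ℕ → N, s.eval J f = t.eval J f := by
      intro s t h f
      exact hJ (s, t) h f
    let m : N → N → N := fun a b => J GOp.mul (fun k : Fin 2 => if k = 0 then a else b)
    let e : N := J GOp.one (fun k : Fin 0 => k.elim0)
    let i : N → N := fun a => J GOp.inv (fun _ : Fin 1 => a)
    let oT : Tm groupSig ℕ := .app GOp.one (fun k : Fin 0 => k.elim0)
    let iT : Tm groupSig ℕ → Tm groupSig ℕ := fun t => .app GOp.inv (fun _ : Fin 1 => t)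
    have heT : ∀ {M : Type} (K : Alg groupSig M) (f : ℕ → M),
        oT.eval K f = K GOp.one (fun k : Fin 0 => k.elim0) := by
      intro M K f
      change K GOp.one _ = _
      congr 1
      funext k
      exact k.elim0
    have h_assoc : ∀ a b c, m (m a b) c = m a (m b c) := by
      intro a b c
      have := hid (mulT (mulT (.var 0) (.var 1)) (.var 2)) (mulT (.var 0) (mulT (.var 1) (.var 2)))
        (by intro f; simp only [eval_mulT]; exact mul_assoc _ _ _)
        (fun k => if k = 0 then a else if k = 1 then b else c)
      simp only [eval_mulT] at this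
      exact this
    have h_comm : ∀ a b, m a b = m b a := by
      intro a b
      have := hid (mulT (.var 0) (.var 1)) (mulT (.var 1) (.var 0))
        (by intro f; simp only [eval_mulT]; exact mul_comm _ _)
        (fun k => if k = 0 then a else b)
      simp only [eval_mulT] at this
      exact this
    have h_one : ∀ a, m e a = a := by
      intro a
      have := hid (mulT oT (.var 0)) (.var 0)
        (by intro f; simp only [eval_mulT]; exact one_mul _) (fun _ => a)
      simp only [eval_mulT, heT] at this
      exact this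
    have h_inv : ∀ a, m (i a) a = e := by
      intro a
      have := hid (mulT (iT (.var 0)) (.var 0)) oT
        (by intro f; simp only [eval_mulT]; exact inv_mul_cancel _) (fun _ => a)
      simp only [eval_mulT, heT] at this
      exact this
    let I1 : Mul N := ⟨m⟩
    let I2 : One N := ⟨e⟩
    let I3 : Inv N := ⟨i⟩
    let G : CommGroup N :=
      { mul := m
        one := e
        inv := i
        mul_assoc := h_assoc
        one_mul := h_one
        mul_one := fun a => (h_comm a e).trans (h_one a)
        npow := npowRec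
        zpow := zpowRec
        inv_mul_cancel := h_inv
        mul_comm := h_comm }
    have hJG : J = groupAlg N := by
      funext o a
      cases o with
      | mul =>
        change J GOp.mul a = J GOp.mul _
        congr 1
        funext k
        revert k
        change ∀ k : Fin 2, _
        intro k
        fin_cases k <;> rfl
      | inv =>
        change J GOp.inv a = J GOp.inv _
        congr 1
        funext k
        revert k
        change ∀ k : Fin 1, _
        intro k
        fin_cases k
        rfl
      | one =>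
        change J GOp.one a = J GOp.one _
        congr 1
        funext k
        exact Fin.elim0 k
    refine ⟨G, hJG, ?_⟩
    intro x
    have := hid ((fun t => mulT t (.var 1))^[Monoid.exponent A] (.var 0)) (.var 0)
      (by
        intro f
        rw [eval_mulT_iter, iter_mul, Monoid.pow_exponent_eq_one, mul_one])
      (fun k => if k = 0 then (1 : N) else x)
    rw [eval_mulT_iter, hJG, iter_mul] at this
    simpa [Tm.eval] using this
  · rintro ⟨_, rfl, hx⟩ p hp f
    exact group_transfer (A := A) hx p.1 p.2 hp f

end Universe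

end Pool.Agent.Lib.MP_001d24_al
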