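import Pool.Agent.Lib.MP_001d24_al.Defs

/-!
# Homomorphisms and free algebras
-/

namespace Pool.Agent.Lib.MP_001d24_al

universe u v w

section Hom

variable {S : Sig} {X Y : Type} {N : Type u} {M : Type v} {L : Type w}

/-- homomorphisms, as a predicate on functions -/
def IsHom (I : Alg S N) (J : Alg S M) (f : N → M) : Prop :=
  ∀ (o : S.Op) (a : Fin (S.ar o) → N), f (I o a) = J o (fun k => f (a k))

theorem IsHom.map_eval {I : Alg S N} {J : Alg S M} {φ : N → M} (h : IsHom I J φ)
    (t : Tm S X) (f : X → N) : φ (t.eval I f) = t.eval J (fun x => φ (f x)) := by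
  induction t with
  | var x => rfl
  | app o args ih =>
    simp only [Tm.eval]
    rw [h]
    congr 1
    funext k
    exact ih k

theorem IsHom.comp {I : Alg S N} {J : Alg S M} {K : Alg S L} {f : N → M} {g : M → L}
    (hg : IsHom J K g) (hf : IsHom I J f) : IsHom I K (fun x => g (f x)) := by
  intro o a
  simp only
  rw [hf, hg]

theorem IsHom.id (I : Alg S N) : IsHom I I (fun x => x) := by
  intro o a
  rfl

theorem Tm.eval_subst (I : Alg S N) (g : X → Tm S Y) (f : Y → N) (t : Tm S X) :
    (t.subst g).eval I f = t.eval I (fun x => (g x).eval I f) := by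
  induction t with
  | var x => rfl
  | app o args ih =>
    simp only [Tm.eval, Tm.subst]
    congr 1
    funext k
    exact ih k

theorem Tm.subst_var (t : Tm S X) : t.subst (fun x => Tm.var x) = t := by
  induction t with
  | var x => rfl
  | app o args ih =>
    simp only [Tm.subst]
    congr 1
    funext k
    exact ih k

/-- The algebra obtained from an `S'`-algebra by interpreting the symbols of `S` by terms. -/
def termAlg {S' : Sig} (t : (j : S.Op) → Tm S' (Fin (S.ar j))) (I : Alg S' N) : Alg S N :=
  fun o a => (t o).eval I a

theorem Tm.eval_interp {S' : Sig} (t : (j : S.Op) → Tm S' (Fin (S.ar j))) (I : Alg S' N)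
    (f : X → N) (s : Tm S X) : (s.interp t).eval I f = s.eval (termAlg t I) f := by
  induction s with
  | var x => rfl
  | app o args ih =>
    simp only [Tm.eval, Tm.interp, termAlg]
    rw [Tm.eval_subst]
    congr 1
    funext k
    exact ih k

theorem IsHom.termAlg {S' : Sig} (t : (j : S.Op) → Tm S' (Fin (S.ar j))) {I : Alg S' N}
    {J : Alg S' M} {φ : N → M} (h : IsHom I J φ) : IsHom (termAlg t I) (termAlg t J) φ := by
  intro o a
  exact h.map_eval _ _

/-- transport of a structure along a bijection -/
def transport (e : N ≃ M) (J : Alg S M) : Alg S N := fun o a => e.symm (J o (fun k => e (a k)))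

theorem transport_hom (e : N ≃ M) (J : Alg S M) : IsHom (transport e J) J e := by
  intro o a
  simp [transport]

theorem transport_hom_symm (e : N ≃ M) (J : Alg S M) : IsHom J (transport e J) e.symm := by
  intro o a
  simp [transport]

theorem Variety.IsModel.of_injective {V : Variety} {I : Alg V.sig N} {J : Alg V.sig M}
    {φ : N → M} (h : IsHom I J φ) (hφ : Function.Injective φ) (hJ : V.IsModel J) :
    V.IsModel I := by
  intro p hp f
  apply hφ
  rw [h.map_eval, h.map_eval]
  exact hJ p hp _

end Hom

section Free

variable (V : Variety) (X : Type)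

/-- semantic equality of terms -/
def freeSetoid : Setoid (Tm V.sig X) where
  r s t := ∀ (N : Type) (I : Alg V.sig N), V.IsModel I → ∀ f : X → N, s.eval I f = t.eval I f
  iseqv := by
    refine ⟨?_, ?_, ?_⟩
    · intro s N I _ f; rfl
    · intro s t h N I hI f; exact (h N I hI f).symm
    · intro s t r h1 h2 N I hI f; exact (h1 N I hI f).trans (h2 N I hI f)

/-- The free algebra of the variety `V` over `X`. -/
def FreeAlg : Type := Quotient (freeSetoid V X)

variable {V X}

/-- the class of a term -/
def FreeAlg.mk (t : Tm V.sig X) : FreeAlg V X := Quotient.mk (freeSetoid V X) t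

/-- the free generators -/
def FreeAlg.gen (x : X) : FreeAlg V X := FreeAlg.mk (.var x)

/-- a representative -/
noncomputable def FreeAlg.rep (a : FreeAlg V X) : Tm V.sig X := Quotient.out a

theorem FreeAlg.mk_rep (a : FreeAlg V X) : FreeAlg.mk a.rep = a := Quotient.out_eq a

theorem FreeAlg.mk_eq_mk {s t : Tm V.sig X} : FreeAlg.mk s = FreeAlg.mk t ↔
    ∀ (N : Type) (I : Alg V.sig N), V.IsModel I → ∀ f : X → N, s.eval I f = t.eval I f := by
  constructor
  · intro h; exact Quotient.exact h
  · intro h; exact Quotient.sound h

/-- the algebra structure -/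
noncomputable def FreeAlg.alg : Alg V.sig (FreeAlg V X) :=
  fun o a => FreeAlg.mk (.app o (fun k => (a k).rep))

theorem FreeAlg.eval_mk {Y : Type} (t : Tm V.sig Y) (g : Y → Tm V.sig X) :
    t.eval FreeAlg.alg (fun y => FreeAlg.mk (g y)) = FreeAlg.mk (t.subst g) := by
  induction t with
  | var x => rfl
  | app o args ih =>
    simp only [Tm.eval, Tm.subst, FreeAlg.alg]
    rw [FreeAlg.mk_eq_mk]
    intro N I hI f
    simp only [Tm.eval]
    congr 1
    funext k
    have h := ih k
    have h2 := FreeAlg.mk_rep (Tm.eval FreeAlg.alg (fun y => FreeAlg.mk (g y)) (args k))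
    rw [h] at h2
    rw [FreeAlg.mk_eq_mk] at h2
    rw [h]
    exact h2 N I hI f

theorem FreeAlg.eval_gen (t : Tm V.sig X) :
    t.eval FreeAlg.alg (fun y => FreeAlg.gen y) = FreeAlg.mk t := by
  have := FreeAlg.eval_mk t (fun x : X => Tm.var x)
  rw [Tm.subst_var] at this
  exact this

theorem FreeAlg.isModel : V.IsModel (FreeAlg.alg (V := V) (X := X)) := by
  intro p hp f
  have hf : f = fun y => FreeAlg.mk ((f y).rep) := by
    funext y; rw [FreeAlg.mk_rep]
  rw [hf, FreeAlg.eval_mk, FreeAlg.eval_mk, FreeAlg.mk_eq_mk]
  intro N I hI h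
  rw [Tm.eval_subst, Tm.eval_subst]
  exact hI p hp _

/-- the homomorphism extending a map on generators -/
noncomputable def FreeAlg.lift {N : Type} (I : Alg V.sig N) (f : X → N) :
    FreeAlg V X → N := fun a => a.rep.eval I f

theorem FreeAlg.lift_mk {N : Type} (I : Alg V.sig N) (hI : V.IsModel I) (f : X → N)
    (t : Tm V.sig X) : FreeAlg.lift I f (FreeAlg.mk t) = t.eval I f := by
  have := FreeAlg.mk_rep (FreeAlg.mk t)
  rw [FreeAlg.mk_eq_mk] at this
  exact this N I hI f

theorem FreeAlg.lift_gen {N : Type} (I : Alg V.sig N) (hI : V.IsModel I) (f : X → N)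
    (x : X) : FreeAlg.lift I f (FreeAlg.gen x) = f x := FreeAlg.lift_mk I hI f _

theorem FreeAlg.lift_hom {N : Type} (I : Alg V.sig N) (hI : V.IsModel I) (f : X → N) :
    IsHom FreeAlg.alg I (FreeAlg.lift I f) := by
  intro o a
  simp only [FreeAlg.alg]
  rw [FreeAlg.lift_mk I hI]
  rfl

theorem FreeAlg.gen_injective (h : ∃ (N : Type) (I : Alg V.sig N), V.IsModel I ∧ Nontrivial N) :
    Function.Injective (FreeAlg.gen : X → FreeAlg V X) := by
  classical
  obtain ⟨N, I, hI, hN⟩ := h
  intro x y hxy
  by_contra hne
  obtain ⟨a, b, hab⟩ := hN.exists_pair_ne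
  rw [FreeAlg.gen, FreeAlg.gen, FreeAlg.mk_eq_mk] at hxy
  have := hxy N I hI (fun z => if z = x then a else b)
  simp only [Tm.eval, if_true] at this
  rw [if_neg (fun h => hne h.symm)] at this
  exact hab this

end Free

section Count

/-- countably many terms -/
theorem Tm.countable (S : Sig) [Countable S.Op] (X : Type) [Countable X] :
    Countable (Tm S X) := by
  classical
  let α : Type := X ⊕ S.Op
  let β : α → Type := fun a => match a with
    | .inl _ => Fin 0
    | .inr o => Fin (S.ar o)
  have : ∀ a, Fintype (β a) := fun a => match a with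
    | .inl _ => inferInstanceAs (Fintype (Fin 0))
    | .inr o => inferInstanceAs (Fintype (Fin (S.ar o)))
  have : ∀ a, Encodable (β a) := fun a => match a with
    | .inl _ => inferInstanceAs (Encodable (Fin 0))
    | .inr o => inferInstanceAs (Encodable (Fin (S.ar o)))
  have : Encodable α := Encodable.ofCountable α
  have : Encodable (WType β) := inferInstance
  let enc : Tm S X → WType β := fun t => Tm.rec (fun x => WType.mk (Sum.inl x) (fun k => Fin.elim0 k))
    (fun o _ ih => WType.mk (Sum.inr o) ih) t
  have hinj : Function.Injective enc := by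
    intro s t h
    induction s generalizing t with
    | var x =>
      cases t with
      | var y =>
        simp only [enc] at h
        injection h with h1 h2
        injection h1 with h3
        rw [h3]
      | app o args =>
        simp only [enc] at h
        injection h with h1 h2
        cases h1
    | app o args ih =>
      cases t with
      | var y =>
        simp only [enc] at h
        injection h with h1 h2
        cases h1
      | app o' args' =>
        simp only [enc] at h
        injection h with h1 h2
        injection h1 with h3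
        subst h3
        have h4 := eq_of_heq h2
        congr 1
        funext k
        apply ih k
        exact congrFun h4 k
  exact Function.Injective.countable hinj

theorem FreeAlg.countable (V : Variety) [Countable V.sig.Op] (X : Type) [Countable X] :
    Countable (FreeAlg V X) := by
  have := Tm.countable V.sig X
  have : Function.Surjective (FreeAlg.mk : Tm V.sig X → FreeAlg V X) := by
    intro a
    exact ⟨a.rep, FreeAlg.mk_rep a⟩
  exact this.countable

end Count

end Pool.Agent.Lib.MP_001d24_al
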