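import Pool.Agent.Lib.MP_001d24_al.Sub

/-!
# Permutations of variables, group structure, supports of sums
-/

namespace Pool.Agent.Lib.MP_001d24_al

namespace TF

variable {V : Bool → Variety} {X : TF V}

/-- TP lemma: how an element can change its type under an injective endomorphism -/
theorem tp {s : ℕ → X.F} (hinj : Function.Injective (X.sub s)) {i : Bool} {w : X.F}
    (hw : X.ty w = some i) (hw' : X.ty (X.sub s w) ≠ some i) :
    ∃ l ∈ X.supp i w, X.ty (X.sub s l) = some i ∧ X.sub s w ∈ X.supp i (X.sub s l) := by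
  have hc : X.sub s w ≠ X.c := by
    intro h
    have : w = X.c := hinj (by rw [h, X.sub_c])
    rw [this, X.ty_c] at hw
    cases hw
  have hmem : X.sub s w ∈ X.supp i (X.sub s w) := by
    rw [X.supp_self hw' hc]; rfl
  obtain ⟨l, hl, hl'⟩ := X.supp_map (X.sub_hom s i) (X.sub_c s) hmem
  refine ⟨l, hl, ?_, hl'⟩
  by_contra hne
  have h1 := X.eq_of_mem_supp hl' hne
  have h2 := hinj h1
  rw [h2] at hw
  exact X.supp_ty hl hw

theorem strong_rk {P : X.F → Prop} (h : ∀ w, (∀ v, X.rk v < X.rk w → P v) → P w) (w : X.F) :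
    P w := by
  have hr : WellFounded (fun a b : X.F => X.rk a < X.rk b) := InvImage.wf X.rk wellFounded_lt
  induction w using hr.induction with
  | _ w ih => exact h w ih

variable (X) in
/-- renaming of variables -/
noncomputable def perm (π : Equiv.Perm ℕ) : X.F → X.F := X.sub (fun x => X.v (π x))

theorem perm_perm (π ρ : Equiv.Perm ℕ) (w : X.F) :
    X.perm π (X.perm ρ w) = X.perm (π * ρ) w := by
  unfold perm
  rw [X.sub_sub]
  congr 1
  funext x
  rw [X.sub_v]
  rfl

theorem perm_one (w : X.F) : X.perm 1 w = w := X.sub_id w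

theorem perm_inv_perm (π : Equiv.Perm ℕ) (w : X.F) : X.perm π⁻¹ (X.perm π w) = w := by
  rw [perm_perm, inv_mul_cancel, perm_one]

theorem perm_perm_inv (π : Equiv.Perm ℕ) (w : X.F) : X.perm π (X.perm π⁻¹ w) = w := by
  rw [perm_perm, mul_inv_cancel, perm_one]

theorem perm_inj (π : Equiv.Perm ℕ) : Function.Injective (X.perm π) := by
  intro a b h
  rw [← perm_inv_perm π a, h, perm_inv_perm]

theorem rk_perm (π : Equiv.Perm ℕ) (w : X.F) : X.rk (X.perm π w) = X.rk w := by
  apply le_antisymm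
  · exact rk_sub_le _ (fun x => X.ty_v _) w
  · have h := rk_sub_le (X := X) (fun x => X.v (π⁻¹ x)) (fun x => X.ty_v _) (X.perm π w)
    have h2 := perm_inv_perm π w
    unfold perm at h2 h ⊢
    rw [h2] at h
    exact h

theorem ty_perm (π : Equiv.Perm ℕ) (w : X.F) : X.ty (X.perm π w) = X.ty w := by
  have key : ∀ i, X.ty w = some i → X.ty (X.perm π w) = some i := by
    intro i hi
    by_contra hne
    obtain ⟨l, hl, _, hl2⟩ := tp (perm_inj π) hi hne
    have h1 := X.rk_le_of_mem hl2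
    have h2 := X.rk_lt hi hl
    have h3 := rk_perm π w
    have h4 := rk_perm π l
    unfold perm at h3 h4
    rw [h3, h4] at h1
    exact absurd h2 (not_lt.mpr h1)
  cases hw : X.ty w with
  | some i => exact key i hw
  | none =>
    rcases X.ty_none w hw with h | ⟨x, h⟩
    · rw [h]
      unfold perm
      rw [X.sub_c, X.ty_c]
    · rw [h]
      unfold perm
      rw [X.sub_v, X.ty_v]

theorem supp_perm_of {i : Bool} (π : Equiv.Perm ℕ) {w z : X.F} (hz : z ∈ X.supp i (X.perm π w)) :
    ∃ y ∈ X.supp i w, z = X.perm π y := by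
  obtain ⟨v, hv, hz'⟩ := X.supp_map (X.sub_hom _ i) (X.sub_c _) hz
  refine ⟨v, hv, ?_⟩
  apply X.eq_of_mem_supp hz'
  have := ty_perm π v
  unfold perm at this
  rw [this]
  exact X.supp_ty hv

theorem supp_perm {i : Bool} (π : Equiv.Perm ℕ) {w z : X.F} (hz : z ∈ X.supp i w) :
    X.perm π z ∈ X.supp i (X.perm π w) := by
  have h1 : z ∈ X.supp i (X.perm π⁻¹ (X.perm π w)) := by
    rw [perm_inv_perm]; exact hz
  obtain ⟨y, hy, hzy⟩ := supp_perm_of π⁻¹ h1
  rw [hzy, perm_perm_inv]
  exact hy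

theorem inF.perm {S T : Set ℕ} (π : Equiv.Perm ℕ) {w : X.F} (h : X.inF S w)
    (hST : ∀ x ∈ S, π x ∈ T) : X.inF T (X.perm π w) :=
  h.sub (fun x hx => inF_v (hST x hx))

end TF

/-- A `TF` with a commutative group structure invariant under all substitutions. -/
structure GTF (V : Bool → Variety) extends TF V where
  grp : AddCommGroup F
  sub_add : ∀ (s : ℕ → F) (a b : F), toTF.sub s (a + b) = toTF.sub s a + toTF.sub s b

namespace GTF

open TF

variable {V : Bool → Variety} {Y : GTF V}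

instance : AddCommGroup Y.F := Y.grp

/-- substitution as an additive homomorphism -/
noncomputable def subH (s : ℕ → Y.F) : Y.F →+ Y.F := AddMonoidHom.mk' (Y.sub s) (Y.sub_add s)

theorem sub_zero (s : ℕ → Y.F) : Y.sub s 0 = 0 := (subH s).map_zero

theorem sub_neg (s : ℕ → Y.F) (a : Y.F) : Y.sub s (-a) = - Y.sub s a := (subH s).map_neg a

theorem sub_minus (s : ℕ → Y.F) (a b : Y.F) : Y.sub s (a - b) = Y.sub s a - Y.sub s b :=
  (subH s).map_sub a b

theorem sub_sum (s : ℕ → Y.F) (A : Finset ℕ) (f : ℕ → Y.F) :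
    Y.sub s (∑ x ∈ A, f x) = ∑ x ∈ A, Y.sub s (f x) := map_sum (subH s) f A

theorem inF_zero (S : Set ℕ) : Y.inF S 0 := sub_zero _

theorem inF_add {S : Set ℕ} {a b : Y.F} (ha : Y.inF S a) (hb : Y.inF S b) :
    Y.inF S (a + b) := by
  unfold inF
  rw [Y.sub_add, ha, hb]

variable (Y) in
/-- the sum of the variables in `A` -/
noncomputable def sm (A : Finset ℕ) : Y.F := ∑ x ∈ A, Y.v x

variable (Y) in
/-- the substitution `x ↦ x + z` -/
noncomputable def al (x z : ℕ) : Y.F → Y.F := Y.sub (Function.update Y.v x (Y.v x + Y.v z))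

variable (Y) in
/-- the substitution `x ↦ x - z` -/
noncomputable def al' (x z : ℕ) : Y.F → Y.F := Y.sub (Function.update Y.v x (Y.v x - Y.v z))

variable (Y) in
/-- the substitution `z ↦ 0` -/
noncomputable def rh (z : ℕ) : Y.F → Y.F := Y.sub (Function.update Y.v z 0)

variable (Y) in
/-- `ap w a` replaces all variables in `w` by `a` -/
noncomputable def ap (w a : Y.F) : Y.F := Y.sub (fun _ => a) w

theorem al_v_self (x z : ℕ) : Y.al x z (Y.v x) = Y.v x + Y.v z := by
  unfold al; rw [Y.sub_v, Function.update_self]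

theorem al_v_ne {x y : ℕ} (z : ℕ) (h : y ≠ x) : Y.al x z (Y.v y) = Y.v y := by
  unfold al; rw [Y.sub_v, Function.update_of_ne h]

theorem al'_al {x z : ℕ} (h : x ≠ z) (w : Y.F) : Y.al' x z (Y.al x z w) = w := by
  unfold al' al
  rw [Y.sub_sub]
  conv_rhs => rw [← Y.sub_id w]
  congr 1
  funext y
  by_cases hy : y = x
  · subst hy
    rw [Function.update_self, Y.sub_add, Y.sub_v, Y.sub_v, Function.update_self,
      Function.update_of_ne h.symm]
    abel
  · rw [Function.update_of_ne hy, Y.sub_v, Function.update_of_ne hy]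

theorem al_inj {x z : ℕ} (h : x ≠ z) : Function.Injective (Y.al x z) := by
  intro a b hab
  rw [← al'_al h a, hab, al'_al h]

theorem rh_al {x z : ℕ} (h : x ≠ z) {w : Y.F} (hw : Y.inF {z}ᶜ w) : Y.rh z (Y.al x z w) = w := by
  unfold rh al
  rw [Y.sub_sub]
  apply hw.sub_eq_self
  intro y hy
  have hy' : y ≠ z := hy
  by_cases hyx : y = x
  · subst hyx
    rw [Function.update_self, Y.sub_add, Y.sub_v, Y.sub_v, Function.update_self,
      Function.update_of_ne hy', add_zero]
  · rw [Function.update_of_ne hyx, Y.sub_v, Function.update_of_ne hy']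

theorem rh_self {z : ℕ} {w : Y.F} (hw : Y.inF {z}ᶜ w) : Y.rh z w = w := by
  unfold rh
  apply hw.sub_eq_self
  intro y hy
  have hy' : y ≠ z := hy
  rw [Function.update_of_ne hy']

theorem rh_inF {z : ℕ} {S : Set ℕ} {w : Y.F} (hw : Y.inF S w) : Y.inF (S \ {z}) (Y.rh z w) := by
  unfold rh
  apply hw.sub
  intro y hy
  by_cases hyz : y = z
  · subst hyz
    rw [Function.update_self]
    exact inF_zero _
  · rw [Function.update_of_ne hyz]
    exact inF_v ⟨hy, hyz⟩

theorem al_inF {x z : ℕ} {S : Set ℕ} (hS : x ∈ S → z ∈ S) {w : Y.F} (hw : Y.inF S w) :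
    Y.inF S (Y.al x z w) := by
  unfold al
  apply hw.sub
  intro y hy
  by_cases hyx : y = x
  · subst hyx
    rw [Function.update_self]
    exact inF_add (inF_v hy) (inF_v (hS hy))
  · rw [Function.update_of_ne hyx]
    exact inF_v hy

theorem al_self {x z : ℕ} {w : Y.F} (hw : Y.inF {x}ᶜ w) : Y.al x z w = w := by
  unfold al
  apply hw.sub_eq_self
  intro y hy
  have hy' : y ≠ x := hy
  rw [Function.update_of_ne hy']

theorem sub_ap (s : ℕ → Y.F) (w a : Y.F) : Y.sub s (Y.ap w a) = Y.ap w (Y.sub s a) := by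
  unfold ap
  rw [Y.sub_sub]

theorem ap_inF {w a : Y.F} {S : Set ℕ} (ha : Y.inF S a) : Y.inF S (Y.ap w a) := by
  unfold ap
  exact (inF_univ w).sub (fun _ _ => ha)

theorem ap_v0 {w : Y.F} (hw : Y.inF {0} w) : Y.ap w (Y.v 0) = w := by
  unfold ap
  apply hw.sub_eq_self
  intro x hx
  rw [Set.mem_singleton_iff] at hx
  rw [hx]

theorem ap_const {w : Y.F} (hw : Y.inF ∅ w) (a : Y.F) : Y.ap w a = w := by
  unfold ap
  apply hw.sub_eq_self
  intro x hx
  exact hx.elim

theorem ap_of_v0 (a : Y.F) : Y.ap (Y.v 0) a = a := by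
  unfold ap; rw [Y.sub_v]

theorem sm_singleton (x : ℕ) : Y.sm {x} = Y.v x := by simp [sm]

theorem sub_sm (s : ℕ → Y.F) (A : Finset ℕ) : Y.sub s (Y.sm A) = ∑ x ∈ A, s x := by
  unfold sm
  rw [sub_sum]
  simp

theorem sm_inF {A : Finset ℕ} {S : Set ℕ} (h : ∀ x ∈ A, x ∈ S) : Y.inF S (Y.sm A) := by
  unfold inF
  rw [sub_sm]
  unfold sm
  apply Finset.sum_congr rfl
  intro x hx
  rw [Y.only_mem (h x hx)]

theorem al_sm {x z : ℕ} {A : Finset ℕ} (hx : x ∈ A) (hz : z ∉ A) :
    Y.al x z (Y.sm A) = Y.sm (insert z A) := by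
  unfold al
  rw [sub_sm]
  unfold sm
  rw [Finset.sum_insert hz, ← Finset.add_sum_erase A _ hx, ← Finset.add_sum_erase A Y.v hx,
    Function.update_self]
  have : ∑ y ∈ A.erase x, Function.update Y.v x (Y.v x + Y.v z) y = ∑ y ∈ A.erase x, Y.v y := by
    apply Finset.sum_congr rfl
    intro y hy
    rw [Function.update_of_ne (Finset.ne_of_mem_erase hy)]
  rw [this]
  abel

theorem al_sm_not_mem {x z : ℕ} {A : Finset ℕ} (hx : x ∉ A) :
    Y.al x z (Y.sm A) = Y.sm A := by
  apply al_self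
  apply sm_inF
  intro y hy
  exact fun h => hx (h ▸ hy)

theorem al_ap {x z : ℕ} {A : Finset ℕ} (hx : x ∈ A) (hz : z ∉ A) (w : Y.F) :
    Y.al x z (Y.ap w (Y.sm A)) = Y.ap w (Y.sm (insert z A)) := by
  rw [← al_sm hx hz]
  exact sub_ap _ _ _

theorem al_ap_not_mem {x z : ℕ} {A : Finset ℕ} (hx : x ∉ A) (w : Y.F) :
    Y.al x z (Y.ap w (Y.sm A)) = Y.ap w (Y.sm A) := by
  conv_rhs => rw [← al_sm_not_mem (Y := Y) (z := z) hx]
  exact sub_ap _ _ _

/-- recover `w` from `ap w (sm A)` -/
theorem rec_ap {w : Y.F} (hw : Y.inF {0} w) {A : Finset ℕ} {x : ℕ} (hx : x ∈ A) :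
    Y.sub (fun y => if y = x then Y.v 0 else 0) (Y.ap w (Y.sm A)) = w := by
  rw [sub_ap, sub_sm, Finset.sum_ite_eq' A x, if_pos hx, ap_v0 hw]

theorem ap_inj {w w' : Y.F} (hw : Y.inF {0} w) (hw' : Y.inF {0} w') {A : Finset ℕ}
    (hA : A.Nonempty) (h : Y.ap w (Y.sm A) = Y.ap w' (Y.sm A)) : w = w' := by
  obtain ⟨x, hx⟩ := hA
  rw [← rec_ap hw hx, h, rec_ap hw' hx]

/-- an element of the form `ap w (sm A)` with `w` nonconstant depends on all variables in `A` -/
theorem nf {w : Y.F} (hw : Y.inF {0} w) (hc : ¬ Y.inF ∅ w) {A : Finset ℕ} {x : ℕ}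
    (hx : x ∈ A) : ¬ Y.inF {x}ᶜ (Y.ap w (Y.sm A)) := by
  intro h
  have h1 : Y.sub (Function.update Y.v x (Y.v x - Y.sm (A.erase x))) (Y.ap w (Y.sm A)) =
      Y.ap w (Y.sm A) := by
    apply h.sub_eq_self
    intro y hy
    have hy' : y ≠ x := hy
    rw [Function.update_of_ne hy']
  have h2 : Y.sub (Function.update Y.v x (Y.v x - Y.sm (A.erase x))) (Y.ap w (Y.sm A)) =
      Y.ap w (Y.v x) := by
    rw [sub_ap, sub_sm, ← Finset.add_sum_erase A _ hx, Function.update_self]
    have : ∑ y ∈ A.erase x, Function.update Y.v x (Y.v x - Y.sm (A.erase x)) y =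
        Y.sm (A.erase x) := by
      unfold sm
      apply Finset.sum_congr rfl
      intro y hy
      rw [Function.update_of_ne (Finset.ne_of_mem_erase hy)]
    rw [this, sub_add_cancel]
  have h3 : Y.ap w (Y.sm A) = Y.ap w (Y.v x) := h1.symm.trans h2
  have h4 : Y.inF {x} (Y.ap w (Y.sm A)) := by
    rw [h3]
    exact ap_inF (inF_v rfl)
  have h5 : Y.inF ∅ (Y.ap w (Y.sm A)) := by
    have := h4.inter h
    rwa [Set.inter_compl_self] at this
  apply hc
  have h6 : Y.sub (fun _ => Y.v 0) (Y.ap w (Y.sm A)) = Y.ap w (Y.sm A) :=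
    h5.sub_eq_self (fun _ hx => hx.elim)
  have h7 : Y.sub (fun _ => Y.v 0) (Y.ap w (Y.sm A)) = w := by
    rw [h3, sub_ap, Y.sub_v, ap_v0 hw]
  rw [← h7, h6]
  exact h5

theorem ap_sm_inF (w : Y.F) (A : Finset ℕ) : Y.inF (A : Set ℕ) (Y.ap w (Y.sm A)) :=
  ap_inF (sm_inF (fun _ hx => hx))

theorem inF_compl_of_not_mem {A : Finset ℕ} {x : ℕ} (hx : x ∉ A) {w : Y.F}
    (h : Y.inF (A : Set ℕ) w) : Y.inF {x}ᶜ w := by
  apply h.mono
  intro y hy hyx
  rw [Set.mem_singleton_iff] at hyx
  rw [hyx] at hy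
  exact hx hy

theorem set_eq {w w' : Y.F} (hw : Y.inF {0} w) (hc : ¬ Y.inF ∅ w) (hw' : Y.inF {0} w')
    (hc' : ¬ Y.inF ∅ w') {A B : Finset ℕ} (h : Y.ap w (Y.sm A) = Y.ap w' (Y.sm B)) : A = B := by
  ext x
  constructor
  · intro hx
    by_contra hxB
    apply nf hw hc hx
    rw [h]
    exact inF_compl_of_not_mem hxB (ap_sm_inF w' B)
  · intro hx
    by_contra hxB
    apply nf hw' hc' hx
    rw [← h]
    exact inF_compl_of_not_mem hxB (ap_sm_inF w A)

/-- BT lemma -/
theorem bt {x z : ℕ} (hxz : x ≠ z) {w : Y.F} (hw : Y.inF {z}ᶜ w)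
    (h : Y.ty (Y.al x z w) ≠ Y.ty w) : Y.inF {x} w := by
  revert hw h
  induction w using strong_rk with
  | _ w ih =>
    intro hw h
    cases hty : Y.ty w with
    | none =>
      rcases Y.ty_none w hty with h1 | ⟨y, h1⟩
      · rw [h1]; exact inF_c _
      · rw [h1]
        by_cases hy : y = x
        · exact inF_v hy
        · exfalso
          apply h
          rw [h1, al_v_ne z hy]
    | some i =>
      rw [hty] at h
      obtain ⟨l, hl, hl1, hl2⟩ := tp (al_inj hxz) hty h
      have h1 : Y.inF {z}ᶜ l := hw.supp hl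
      have h2 : Y.inF {x} l := by
        apply ih l (Y.rk_lt hty hl) h1
        intro h3
        exact Y.supp_ty hl (h3.symm.trans hl1)
      have h3 : Y.inF {x, z} (Y.al x z l) := al_inF (by simp) (h2.mono (by simp))
      have h4 : Y.inF {x, z} (Y.al x z w) := h3.supp hl2
      have h5 := rh_inF (z := z) h4
      rw [rh_al hxz hw] at h5
      apply h5.mono
      rintro y ⟨hy1, hy2⟩
      rcases hy1 with hy1 | hy1
      · exact hy1
      · exact absurd hy1 hy2

theorem clB1 {x z : ℕ} (hxz : x ≠ z) {u : Y.F} (hu : Y.inF {z}ᶜ u) {i : Bool} {v : Y.F}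
    (hv : v ∈ Y.supp i (Y.al x z u)) :
    Y.inF {x, z} v ∨ ∃ v' ∈ Y.supp i u, ¬ Y.inF {x} v' ∧ v = Y.al x z v' := by
  obtain ⟨v', hv', hv2⟩ := Y.supp_map (Y.sub_hom _ i) (Y.sub_c _) hv
  by_cases h : Y.inF {x} v'
  · left
    have h3 : Y.inF {x, z} (Y.al x z v') := al_inF (by simp) (h.mono (by simp))
    exact h3.supp hv2
  · right
    refine ⟨v', hv', h, ?_⟩
    apply Y.eq_of_mem_supp hv2
    have h4 : Y.ty (Y.al x z v') = Y.ty v' := by
      by_contra hne
      exact h (bt hxz (hu.supp hv') hne)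
    intro h5
    exact Y.supp_ty hv' (h4.symm.trans h5)

theorem clB2 {x z : ℕ} (hxz : x ≠ z) {u : Y.F} (hu : Y.inF {z}ᶜ u) {i : Bool} {v' : Y.F}
    (hv' : v' ∈ Y.supp i u) (h : ¬ Y.inF {x} v') : Y.al x z v' ∈ Y.supp i (Y.al x z u) := by
  have h1 : v' ∈ Y.supp i (Y.al' x z (Y.al x z u)) := by
    rw [al'_al hxz]; exact hv'
  obtain ⟨y, hy, hy2⟩ := Y.supp_map (Y.sub_hom _ i) (Y.sub_c _) h1
  rcases clB1 hxz hu hy with h2 | ⟨v'', hv'', _, h3⟩
  · exfalso
    apply h
    have h4 : Y.inF {x, z} (Y.al' x z y) := by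
      unfold al'
      apply h2.sub
      intro t ht
      by_cases htx : t = x
      · subst htx
        rw [Function.update_self, sub_eq_add_neg]
        apply inF_add (inF_v ht)
        unfold inF
        rw [sub_neg, Y.sub_v, Y.only_mem (by simp)]
      · rw [Function.update_of_ne htx]
        exact inF_v ht
    have h5 : Y.inF {x, z} v' := h4.supp hy2
    have h6 := h5.inter (hu.supp hv')
    apply h6.mono
    rintro t ⟨ht1, ht2⟩
    rcases ht1 with ht1 | ht1
    · exact ht1
    · exact absurd ht1 ht2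
  · rw [h3] at hy2
    have h4 : v' ∈ Y.supp i v'' := by
      have := al'_al hxz v''
      unfold al' at this
      rw [this] at hy2
      exact hy2
    have h5 := Y.eq_of_mem_supp h4 (Y.supp_ty hv'')
    rw [h5, ← h3]
    exact hy

theorem ind2 {P : Finset ℕ → Prop} (h2 : ∀ x y, x ≠ y → P {x, y})
    (hi : ∀ (A : Finset ℕ) z, 2 ≤ A.card → z ∉ A → P A → P (insert z A)) :
    ∀ A : Finset ℕ, 2 ≤ A.card → P A := by
  intro A
  induction A using Finset.induction_on with
  | empty => intro h; simp at h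
  | insert z B hz ih =>
    intro h
    rw [Finset.card_insert_of_notMem hz] at h
    by_cases hB : 2 ≤ B.card
    · exact hi B z hB hz (ih hB)
    · have : B.card = 1 := by omega
      obtain ⟨y, hy⟩ := Finset.card_eq_one.mp this
      rw [hy]
      apply h2
      intro e
      apply hz
      rw [hy, e]
      simp

/-- FS lemma: the support of `ap w (sm A)` -/
theorem fs {i : Bool} : ∀ A : Finset ℕ, 2 ≤ A.card → ∀ w : Y.F, Y.inF {0} w →
    ∀ v ∈ Y.supp i (Y.ap w (Y.sm A)),
      (∃ x ∈ A, Y.inF {x} v) ∨ (∃ h, Y.inF {0} h ∧ v = Y.ap h (Y.sm A)) := by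
  apply ind2
  · intro x y hxy w hw v hv
    by_cases hx : Y.inF {x} v
    · left; exact ⟨x, by simp, hx⟩
    by_cases hy : Y.inF {y} v
    · left; exact ⟨y, by simp, hy⟩
    right
    obtain ⟨z, hz1, hz2⟩ : ∃ z : ℕ, z ≠ x ∧ z ≠ y := ⟨x + y + 1, by omega, by omega⟩
    have hzA : z ∉ ({x, y} : Finset ℕ) := by simp [hz1, hz2]
    have hW : Y.inF {z}ᶜ (Y.ap w (Y.sm {x, y})) := by
      apply (ap_sm_inF w {x, y}).mono
      intro t ht htz
      rw [Set.mem_singleton_iff] at htz
      rw [htz] at ht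
      exact hzA ht
    have hvxy : Y.inF {x, y} v := by
      have := (ap_sm_inF w {x, y}).supp hv
      apply this.mono
      intro t ht
      simpa using ht
    have hvz : Y.inF {z}ᶜ v := hW.supp hv
    have h1 := clB2 hz1.symm hW hv hx
    have h2 : Y.al x z (Y.ap w (Y.sm {x, y})) = Y.al y z (Y.ap w (Y.sm {x, y})) := by
      rw [al_ap (by simp) hzA, al_ap (by simp) hzA]
    rw [h2] at h1
    rcases clB1 hz2.symm hW h1 with h3 | ⟨v'', hv'', _, h3⟩
    · exfalso
      apply hy
      have h5 := rh_inF (z := z) h3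
      rw [rh_al hz1.symm hvz] at h5
      apply h5.mono
      rintro t ⟨ht1, ht2⟩
      rcases ht1 with ht1 | ht1
      · exact ht1
      · exact absurd ht1 ht2
    · have h4 : v = v'' := by
        rw [← rh_al hz1.symm hvz, h3, rh_al hz2.symm (hW.supp hv'')]
      rw [← h4] at h3
      refine ⟨Y.sub (fun t => if t = x then Y.v 0 else 0) v, ?_, ?_⟩
      · apply hvxy.sub
        intro t _
        split_ifs
        · exact inF_v rfl
        · exact inF_zero _
      · have h5 : Y.ap (Y.sub (fun t => if t = x then Y.v 0 else 0) v) (Y.sm {x, y}) =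
            Y.sub (fun t => if t = x then Y.v x + Y.v y else 0) v := by
          unfold ap
          rw [Y.sub_sub]
          congr 1
          funext t
          split_ifs
          · rw [Y.sub_v]
            unfold sm
            rw [Finset.sum_pair hxy]
          · exact sub_zero _
        rw [h5]
        let τ : ℕ → Y.F := fun t => if t = z then Y.v y else if t = y then 0 else Y.v t
        have h6 : Y.sub τ (Y.al x z v) = Y.sub (fun t => if t = x then Y.v x + Y.v y else 0) v := by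
          unfold al
          rw [Y.sub_sub]
          apply hvxy.sub_congr
          intro t ht
          rcases ht with ht | ht
          · rw [ht, Function.update_self, Y.sub_add, Y.sub_v, Y.sub_v]
            simp [τ, hz1.symm, hxy]
          · have ht' : t = y := ht
            rw [ht', Function.update_of_ne hxy.symm, Y.sub_v]
            simp [τ, hz2.symm, hxy.symm]
        have h7 : Y.sub τ (Y.al y z v) = v := by
          unfold al
          rw [Y.sub_sub]
          apply hvxy.sub_eq_self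
          intro t ht
          rcases ht with ht | ht
          · rw [ht, Function.update_of_ne hxy, Y.sub_v]
            simp [τ, hz1.symm, hxy]
          · have ht' : t = y := ht
            rw [ht', Function.update_self, Y.sub_add, Y.sub_v, Y.sub_v]
            simp [τ, hz2.symm]
        rw [← h6, h3, h7]
  · intro A z hA hz ih w hw v hv
    by_cases hvz : Y.inF {z} v
    · left; exact ⟨z, by simp, hvz⟩
    by_cases hv1 : ∃ y ∈ A, Y.inF {y} v
    · left
      obtain ⟨y, hy, hy2⟩ := hv1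
      exact ⟨y, by simp [hy], hy2⟩
    right
    by_contra hno
    have hW : Y.inF {z}ᶜ (Y.ap w (Y.sm A)) := by
      apply (ap_sm_inF w A).mono
      intro t ht htz
      rw [Set.mem_singleton_iff] at htz
      rw [htz] at ht
      exact hz ht
    have key : ∀ x ∈ A, Y.inF {x, z} v := by
      intro x hx
      have hxz : x ≠ z := fun e => hz (e ▸ hx)
      rw [← al_ap hx hz] at hv
      rcases clB1 hxz hW hv with h3 | ⟨v', hv', h4, h3⟩
      · exact h3
      · exfalso
        rcases ih w hw v' hv' with ⟨y, hy, hy2⟩ | ⟨h, hh1, hh2⟩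
        · have hyx : y ≠ x := fun e => h4 (e ▸ hy2)
          have h5 : Y.al x z v' = v' := al_self (hy2.mono (by
            intro t ht htx
            rw [Set.mem_singleton_iff] at ht htx
            exact hyx (ht.symm.trans htx)))
          rw [h5] at h3
          apply hv1
          exact ⟨y, hy, h3 ▸ hy2⟩
        · apply hno
          refine ⟨h, hh1, ?_⟩
          rw [h3, hh2, al_ap hx hz]
    obtain ⟨x, hx, x', hx', hne⟩ := Finset.one_lt_card.mp (show 1 < A.card by omega)
    apply hvz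
    have h6 := (key x hx).inter (key x' hx')
    apply h6.mono
    rintro t ⟨ht1, ht2⟩
    rcases ht1 with ht1 | ht1
    · rcases ht2 with ht2 | ht2
      · exact absurd (ht1.symm.trans ht2) hne
      · exact ht2
    · exact ht1

theorem ty_insert {w : Y.F} (hw : Y.inF {0} w) {A : Finset ℕ} (hA : 2 ≤ A.card) (z : ℕ) :
    Y.ty (Y.ap w (Y.sm (insert z A))) = Y.ty (Y.ap w (Y.sm A)) := by
  by_cases hz : z ∈ A
  · rw [Finset.insert_eq_of_mem hz]
  by_cases hc : Y.inF ∅ w
  · rw [ap_const hc, ap_const hc]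
  by_contra hne
  obtain ⟨x, hx, x', hx', hxx⟩ := Finset.one_lt_card.mp (show 1 < A.card by omega)
  have hxz : x ≠ z := fun e => hz (e ▸ hx)
  rw [← al_ap hx hz] at hne
  have hW : Y.inF {z}ᶜ (Y.ap w (Y.sm A)) := by
    apply (ap_sm_inF w A).mono
    intro t ht htz
    rw [Set.mem_singleton_iff] at htz
    rw [htz] at ht
    exact hz ht
  have h1 := bt hxz hW hne
  apply nf hw hc hx'
  apply h1.mono
  intro t ht htx
  rw [Set.mem_singleton_iff] at ht htx
  exact hxx (ht.symm.trans htx)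

theorem ty_union {w : Y.F} (hw : Y.inF {0} w) {A : Finset ℕ} (hA : 2 ≤ A.card) (B : Finset ℕ) :
    Y.ty (Y.ap w (Y.sm (A ∪ B))) = Y.ty (Y.ap w (Y.sm A)) := by
  induction B using Finset.induction_on with
  | empty => rw [Finset.union_empty]
  | insert z B _ ih =>
    rw [Finset.union_insert, ty_insert hw, ih]
    exact hA.trans (Finset.card_le_card Finset.subset_union_left)

theorem ty_sum {w : Y.F} (hw : Y.inF {0} w) {A B : Finset ℕ} (hA : 2 ≤ A.card)
    (hB : 2 ≤ B.card) : Y.ty (Y.ap w (Y.sm A)) = Y.ty (Y.ap w (Y.sm B)) := by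
  rw [← ty_union hw hA B, Finset.union_comm, ty_union hw hB]

theorem ty_sum_ne_none {w : Y.F} (hw : Y.inF {0} w) (hc : ¬ Y.inF ∅ w) {A : Finset ℕ}
    (hA : 2 ≤ A.card) : Y.ty (Y.ap w (Y.sm A)) ≠ none := by
  intro h
  obtain ⟨x, hx, x', hx', hxx⟩ := Finset.one_lt_card.mp (show 1 < A.card by omega)
  rcases Y.ty_none _ h with h1 | ⟨y, h1⟩
  · apply nf hw hc hx
    rw [h1]
    exact inF_c _
  · by_cases hyx : y = x
    · apply nf hw hc hx'
      rw [h1]
      apply inF_v
      rw [hyx]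
      exact hxx
    · apply nf hw hc hx
      rw [h1]
      apply inF_v
      exact hyx

end GTF

end Pool.Agent.Lib.MP_001d24_al
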