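import Pool.Agent.Lib.MP_001d24_al.Coprod

/-!
# Strong Mal'cev conditions and the dimension of the varieties generated by finite abelian groups
-/

namespace Pool.Agent.Lib.MP_001d24_al

universe u

/-- the variety of all algebras satisfying the identities of `σ` in the signature of `σ` -/
abbrev MalcevCond.toVar (σ : MalcevCond) : Variety where
  sig := ⟨Fin σ.k, σ.ar⟩
  ax := {p | p ∈ σ.ids}

theorem toVar_satisfies (σ : MalcevCond) : σ.toVar.Satisfies σ := by
  refine ⟨fun j => .app j (fun k => .var k), ?_⟩
  intro p hp N J hJ f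
  rw [Tm.eval_interp, Tm.eval_interp]
  exact hJ p hp f

theorem Variety.Satisfies.model {V : Variety} {σ : MalcevCond}
    {t : (j : Fin σ.k) → Tm V.sig (Fin (σ.ar j))}
    (ht : ∀ p ∈ σ.ids, V.Holds (Tm.interp (S := ⟨Fin σ.k, σ.ar⟩) t p.1)
      (Tm.interp (S := ⟨Fin σ.k, σ.ar⟩) t p.2)) {N : Type} {J : Alg V.sig N}
    (hJ : V.IsModel J) : σ.toVar.IsModel (termAlg (S := ⟨Fin σ.k, σ.ar⟩) t J) := by
  intro p hp f
  have := ht p hp N J hJ f
  rw [Tm.eval_interp, Tm.eval_interp] at this
  exact this

section Lists

/-- the theory of a list of conditions: disjoint union of all of them -/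
def LV : List MalcevCond → Variety
  | [] => ⟨⟨Empty, fun e => e.elim⟩, ∅⟩
  | σ :: L => co (fun b => match b with
    | true => σ.toVar
    | false => LV L)

theorem LV_satisfies (L : List MalcevCond) : ∀ σ ∈ L, (LV L).Satisfies σ := by
  induction L with
  | nil => intro σ h; simp at h
  | cons τ L ih =>
    intro σ h
    rw [List.mem_cons] at h
    rcases h with h | h
    · subst h
      exact co_satisfies (V := fun b => match b with
        | true => σ.toVar
        | false => LV L) (i := true) (toVar_satisfies σ)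
    · exact co_satisfies (V := fun b => match b with
        | true => τ.toVar
        | false => LV L) (i := false) (ih σ h)

theorem LV_countable (L : List MalcevCond) : Countable (LV L).sig.Op := by
  induction L with
  | nil => exact inferInstanceAs (Countable Empty)
  | cons τ L ih =>
    have : ∀ b : Bool, Countable ((match b with
        | true => τ.toVar
        | false => LV L : Variety)).sig.Op := by
      intro b
      cases b
      · exact ih
      · exact inferInstanceAs (Countable (Fin τ.k))
    exact inferInstanceAs (Countable (Σ b : Bool, ((match b with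
        | true => τ.toVar
        | false => LV L : Variety)).sig.Op))

theorem LV_nullary (L : List MalcevCond) (h : ∃ o : (LV L).sig.Op, (LV L).sig.ar o = 0) :
    ∃ σ ∈ L, ∃ j, σ.ar j = 0 := by
  induction L with
  | nil => obtain ⟨o, _⟩ := h; exact o.elim
  | cons τ L ih =>
    obtain ⟨⟨b, o⟩, ho⟩ := h
    cases b
    · obtain ⟨σ, hσ, j, hj⟩ := ih ⟨o, ho⟩
      exact ⟨σ, by simp [hσ], j, hj⟩
    · exact ⟨τ, by simp, o, ho⟩

/-- models on the set `A` -/
def HasOn (A : Type) (W : Variety) : Prop := ∃ J : Alg W.sig A, W.IsModel J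

theorem LV_hasOn (A : Type) (L : List MalcevCond) (h : ∀ σ ∈ L, HasOn A σ.toVar) :
    HasOn A (LV L) := by
  induction L with
  | nil =>
    refine ⟨fun o => o.elim, ?_⟩
    intro p hp
    exact hp.elim
  | cons τ L ih =>
    obtain ⟨J1, h1⟩ := h τ (by simp)
    obtain ⟨J2, h2⟩ := ih (fun σ hσ => h σ (by simp [hσ]))
    let V : Bool → Variety := fun b => match b with
        | true => τ.toVar
        | false => LV L
    let J : ∀ b, Alg (V b).sig A := fun b => match b with
        | true => J1
        | false => J2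
    have hJ : ∀ b, (V b).IsModel (J b) := fun b => match b with
        | true => h1
        | false => h2
    exact ⟨coAlg J, coAlg_model hJ⟩

theorem LV_pan (A : Type) [Finite A] (n : ℕ) (hn : 1 ≤ n) (hA : n = 1 ∨ Nontrivial A)
    (L : List MalcevCond) (h : ∀ σ ∈ L, HasOn A σ.toVar) (hP : PAn n (LV L)) :
    ∃ σ ∈ L, PAn n σ.toVar := by
  induction L with
  | nil =>
    exfalso
    obtain ⟨q, hq⟩ := hP
    obtain ⟨h1, h2, h3⟩ := hq Bool (fun o => o.elim) (fun p hp => hp.elim) true
    match q, h1, h3 with
    | .app o _, _, _ => exact o.elim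
    | .var k, h1, h3 =>
      fin_cases k
      · have := h1 true false
        simp [Tm.eval] at this
      · have := h1 true false
        simp [Tm.eval] at this
      · have h4 := h3 false true
        obtain ⟨m, rfl⟩ : ∃ m, n = m + 1 := ⟨n - 1, by omega⟩
        rw [Function.iterate_succ_apply'] at h4
        simp [Tm.eval] at h4
  | cons τ L ih =>
    let V : Bool → Variety := fun b => match b with
        | true => τ.toVar
        | false => LV L
    have hc : ∀ b, Countable (V b).sig.Op := by
      intro b
      cases b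
      · exact LV_countable L
      · exact inferInstanceAs (Countable (Fin τ.k))
    have h1 : n = 1 ∨ ∀ i, HasFin (V i) := by
      rcases hA with hA | hA
      · left; exact hA
      · right
        intro i
        cases i
        · obtain ⟨J, hJ⟩ := LV_hasOn A L (fun σ hσ => h σ (by simp [hσ]))
          exact ⟨A, J, hJ, inferInstance, hA⟩
        · obtain ⟨J, hJ⟩ := h τ (by simp)
          exact ⟨A, J, hJ, inferInstance, hA⟩
    obtain ⟨i, hi⟩ := pprime' (V := V) n hn h1 hP
    cases i
    · obtain ⟨σ, hσ, h2⟩ := ih (fun σ hσ => h σ (by simp [hσ])) hi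
      exact ⟨σ, by simp [hσ], h2⟩
    · exact ⟨τ, by simp, hi⟩

end Lists

section Conds

/-- the signature with one ternary symbol -/
abbrev qSig : Sig := ⟨Fin 1, fun _ => 3⟩

/-- the ternary symbol -/
def qt (a b c : Tm qSig ℕ) : Tm qSig ℕ := .app (S := qSig) (0 : Fin 1) ![a, b, c]

/-- the condition `PAn` -/
def panCond (n : ℕ) : MalcevCond where
  k := 1
  ar := fun _ => 3
  ids := [(qt (.var 0) (.var 1) (.var 2), qt (.var 1) (.var 0) (.var 2)),
    (qt (qt (.var 0) (.var 1) (.var 3)) (.var 2) (.var 3),
      qt (.var 0) (qt (.var 1) (.var 2) (.var 3)) (.var 3)),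
    ((fun t => qt t (.var 1) (.var 2))^[n] (.var 0), .var 0)]

/-- existence of a nullary term -/
def nulCond : MalcevCond where
  k := 1
  ar := fun _ => 0
  ids := []

theorem eval_qt {N : Type u} (J : Alg qSig N) (f : ℕ → N) (a b c : Tm qSig ℕ) :
    (qt a b c).eval J f = J (0 : Fin 1) ![a.eval J f, b.eval J f, c.eval J f] := by
  unfold qt
  rw [Tm.eval]
  congr 1
  funext k
  fin_cases k <;> rfl

theorem eval_iter {N : Type u} (J : Alg qSig N) (f : ℕ → N) (n : ℕ) (t : Tm qSig ℕ) :
    ((fun t => qt t (.var 1) (.var 2))^[n] t).eval J f =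
      (fun x => J (0 : Fin 1) ![x, f 1, f 2])^[n] (t.eval J f) := by
  induction n generalizing t with
  | zero => rfl
  | succ n ih =>
    rw [Function.iterate_succ_apply, Function.iterate_succ_apply, ih, eval_qt]
    rfl

theorem pan_model_iff {n : ℕ} {N : Type} (J : Alg qSig N) :
    (panCond n).toVar.IsModel (N := N) J ↔ ∀ c : N,
      (∀ a b, J (0 : Fin 1) ![a, b, c] = J (0 : Fin 1) ![b, a, c]) ∧
      (∀ a b d, J (0 : Fin 1) ![J (0 : Fin 1) ![a, b, c], d, c] =
        J (0 : Fin 1) ![a, J (0 : Fin 1) ![b, d, c], c]) ∧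
      (∀ a b, (fun x => J (0 : Fin 1) ![x, b, c])^[n] a = a) := by
  constructor
  · intro hm c
    refine ⟨?_, ?_, ?_⟩
    · intro a b
      have h1 := hm (qt (.var 0) (.var 1) (.var 2), qt (.var 1) (.var 0) (.var 2))
        (List.Mem.head _) (fun k => ![a, b, c] (Fin.ofNat 3 k))
      have e1 := eval_qt J (fun k => ![a, b, c] (Fin.ofNat 3 k)) (.var 0) (.var 1) (.var 2)
      have e2 := eval_qt J (fun k => ![a, b, c] (Fin.ofNat 3 k)) (.var 1) (.var 0) (.var 2)
      exact e1.symm.trans (h1.trans e2)
    · intro a b d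
      have h1 := hm (qt (qt (.var 0) (.var 1) (.var 3)) (.var 2) (.var 3),
        qt (.var 0) (qt (.var 1) (.var 2) (.var 3)) (.var 3))
        (List.Mem.tail _ (List.Mem.head _)) (fun k => ![a, b, d, c] (Fin.ofNat 4 k))
      have e1 := eval_qt J (fun k => ![a, b, d, c] (Fin.ofNat 4 k))
        (qt (.var 0) (.var 1) (.var 3)) (.var 2) (.var 3)
      have e2 := eval_qt J (fun k => ![a, b, d, c] (Fin.ofNat 4 k))
        (.var 0) (qt (.var 1) (.var 2) (.var 3)) (.var 3)
      rw [eval_qt J _ (.var 0) (.var 1) (.var 3)] at e1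
      rw [eval_qt J _ (.var 1) (.var 2) (.var 3)] at e2
      exact e1.symm.trans (h1.trans e2)
    · intro a b
      have h1 := hm ((fun t => qt t (.var 1) (.var 2))^[n] (.var 0), .var 0)
        (List.Mem.tail _ (List.Mem.tail _ (List.Mem.head _)))
        (fun k => ![a, b, c] (Fin.ofNat 3 k))
      have e1 := eval_iter J (fun k => ![a, b, c] (Fin.ofNat 3 k)) n (.var 0)
      exact e1.symm.trans h1
  · intro hq p hp f
    change p ∈ (panCond n).ids at hp
    unfold panCond at hp
    rcases hp with _ | ⟨_, _ | ⟨_, _ | ⟨_, hp⟩⟩⟩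
    · exact (eval_qt J f (.var 0) (.var 1) (.var 2)).trans (((hq (f 2)).1 (f 0) (f 1)).trans
        (eval_qt J f (.var 1) (.var 0) (.var 2)).symm)
    · have e1 := eval_qt J f (qt (.var 0) (.var 1) (.var 3)) (.var 2) (.var 3)
      have e2 := eval_qt J f (.var 0) (qt (.var 1) (.var 2) (.var 3)) (.var 3)
      rw [eval_qt J _ (.var 0) (.var 1) (.var 3)] at e1
      rw [eval_qt J _ (.var 1) (.var 2) (.var 3)] at e2
      exact e1.trans (((hq (f 3)).2.1 (f 0) (f 1) (f 2)).trans e2.symm)
    · exact (eval_iter J f n (.var 0)).trans ((hq (f 2)).2.2 (f 0) (f 1))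
    · cases hp

theorem pan_satisfies {n : ℕ} {V : Variety} (h : PAn n V) : V.Satisfies (panCond n) := by
  obtain ⟨q, hq⟩ := h
  refine ⟨fun _ => q, ?_⟩
  intro p hp N J hJ f
  rw [Tm.eval_interp, Tm.eval_interp]
  exact (pan_model_iff (n := n) (termAlg (S := qSig) (fun _ => q) J)).mpr (hq N J hJ) p hp f

theorem satisfies_pan {n : ℕ} {V : Variety} (h : V.Satisfies (panCond n)) : PAn n V := by
  obtain ⟨t, ht⟩ := h
  refine ⟨t (0 : Fin 1), ?_⟩
  intro N J hJ c
  have hm := Variety.Satisfies.model ht hJ
  exact (pan_model_iff (n := n) (termAlg (S := qSig) t J)).mp hm c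

/-- change of variables to the empty set of variables and back -/
theorem exists_nullary {S : Sig} (t : Tm S (Fin 0)) : ∃ o : S.Op, S.ar o = 0 := by
  induction t with
  | var x => exact x.elim0
  | app o args ih =>
    by_cases h : S.ar o = 0
    · exact ⟨o, h⟩
    · exact ih ⟨0, by omega⟩

theorem satisfies_nul {V : Variety} (h : V.Satisfies nulCond) : Nonempty (Tm V.sig (Fin 0)) := by
  obtain ⟨t, _⟩ := h
  exact ⟨t (0 : Fin 1)⟩

theorem nul_satisfies {V : Variety} (t : Tm V.sig (Fin 0)) : V.Satisfies nulCond :=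
  ⟨fun _ => t, by intro p hp; cases hp⟩

theorem pan_of_satisfies {n : ℕ} {V : Variety} {σ : MalcevCond} (h : V.Satisfies σ)
    (hσ : PAn n σ.toVar) : PAn n V := by
  obtain ⟨t, ht⟩ := h
  obtain ⟨q, hq⟩ := hσ
  refine ⟨q.interp t, ?_⟩
  intro N J hJ c
  have hm := hq N _ (Variety.Satisfies.model ht hJ) c
  simp only [Tm.eval_interp]
  exact hm

theorem nul_of_satisfies {V : Variety} {σ : MalcevCond} (h : V.Satisfies σ) {j : Fin σ.k}
    (hj : σ.ar j = 0) : Nonempty (Tm V.sig (Fin 0)) := by
  obtain ⟨t, _⟩ := h
  have := t j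
  rw [hj] at this
  exact ⟨this⟩

end Conds

section Groups

/-- exponents of the variables in a group term, for commutative groups -/
noncomputable def coef {X : Type} : Tm groupSig X → (X →₀ ℤ)
  | .var x => Finsupp.single x 1
  | .app GOp.mul args => coef (args (0 : Fin 2)) + coef (args (1 : Fin 2))
  | .app GOp.inv args => - coef (args (0 : Fin 1))
  | .app GOp.one _ => 0

theorem eval_coef {X : Type} {N : Type u} [CommGroup N] (t : Tm groupSig X) (f : X → N) :
    t.eval (groupAlg N) f = (coef t).prod (fun x m => f x ^ m) := by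
  induction t with
  | var x =>
    rw [coef, Finsupp.prod_single_index]
    · simp [Tm.eval]
    · simp
  | app o args ih =>
    cases o with
    | mul =>
      rw [coef, Finsupp.prod_add_index', ← ih, ← ih]
      · rfl
      · intro a; simp
      · intro a b c; exact zpow_add _ _ _
    | inv =>
      rw [coef, Finsupp.prod_neg_index]
      · simp only [zpow_neg]
        rw [Finsupp.prod_inv, ← ih]
        rfl
      · intro a; simp
    | one =>
      rw [coef, Finsupp.prod_zero_index]
      rfl

theorem group_transfer {A : Type u} [CommGroup A] {N : Type} [CommGroup N]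
    (hN : ∀ x : N, x ^ (Monoid.exponent A) = 1) (s t : Tm groupSig ℕ)
    (h : ∀ f : ℕ → A, s.eval (groupAlg A) f = t.eval (groupAlg A) f) (f : ℕ → N) :
    s.eval (groupAlg N) f = t.eval (groupAlg N) f := by
  classical
  have key : ∀ {M : Type u} [CommGroup M] (g : ℕ → M),
      (coef s - coef t).prod (fun x m => g x ^ m) =
      (coef s).prod (fun x m => g x ^ m) / (coef t).prod (fun x m => g x ^ m) := by
    intro M _ g
    rw [sub_eq_add_neg, Finsupp.prod_add_index', Finsupp.prod_neg_index, div_eq_mul_inv]
    · simp only [zpow_neg]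
      rw [Finsupp.prod_inv]
    · intro a; simp
    · intro a; simp
    · intro a b c; exact zpow_add _ _ _
  have key' : ∀ (g : ℕ → N),
      (coef s - coef t).prod (fun x m => g x ^ m) =
      (coef s).prod (fun x m => g x ^ m) / (coef t).prod (fun x m => g x ^ m) := by
    intro g
    rw [sub_eq_add_neg, Finsupp.prod_add_index', Finsupp.prod_neg_index, div_eq_mul_inv]
    · simp only [zpow_neg]
      rw [Finsupp.prod_inv]
    · intro a; simp
    · intro a; simp
    · intro a b c; exact zpow_add _ _ _
  have h1 : ∀ k : ℕ, (Monoid.exponent A : ℤ) ∣ (coef s - coef t) k := by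
    intro k
    have h2 : ∀ a : A, a ^ ((coef s - coef t) k) = 1 := by
      intro a
      have h3 := h (fun x => if x = k then a else 1)
      rw [eval_coef, eval_coef] at h3
      have h4 := key (fun x => if x = k then a else 1)
      rw [h3, div_self'] at h4
      rw [Finsupp.prod] at h4
      by_cases hk : k ∈ (coef s - coef t).support
      · rw [Finset.prod_eq_single k] at h4
        · simpa using h4
        · intro b _ hb
          simp [hb]
        · intro h5; exact absurd hk h5
      · rw [Finsupp.mem_support_iff, not_not] at hk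
        rw [hk]; simp
    rw [← Int.natAbs_dvd_natAbs]
    simp only [Int.natAbs_natCast]
    apply Monoid.exponent_dvd_of_forall_pow_eq_one
    intro a
    have h3 := h2 a
    rcases Int.natAbs_eq ((coef s - coef t) k) with h4 | h4
    · rw [h4, zpow_natCast] at h3
      exact h3
    · rw [h4, zpow_neg, inv_eq_one, zpow_natCast] at h3
      exact h3
  rw [eval_coef, eval_coef, ← div_eq_one, ← key']
  apply Finset.prod_eq_one
  intro k _
  obtain ⟨m, hm⟩ := h1 k
  simp only
  rw [hm, zpow_mul, zpow_natCast, hN, one_zpow]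

end Groups

end Pool.Agent.Lib.MP_001d24_al
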