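import Pool.Agent.Lib.MP_001d24_al.Bad

/-!
# The collapsing maps and the descent of the group operation to one of the two theories
-/

namespace Pool.Agent.Lib.MP_001d24_al

/-- `V` has a term `q(x, y, c)` which for every `c` is a commutative and associative operation
with `x + y + ⋯ + y = x` (`n` summands `y`). -/
def PAn (n : ℕ) (V : Variety) : Prop :=
  ∃ q : Tm V.sig (Fin 3), ∀ (N : Type) (J : Alg V.sig N), V.IsModel J → ∀ c : N,
    (∀ a b, q.eval J ![a, b, c] = q.eval J ![b, a, c]) ∧
    (∀ a b d, q.eval J ![q.eval J ![a, b, c], d, c] = q.eval J ![a, q.eval J ![b, d, c], c]) ∧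
    (∀ a b, (fun x => q.eval J ![x, b, c])^[n] a = a)

namespace GTF

open TF

variable {V : Bool → Variety} {Y : GTF V}

/-- the chain data -/
structure CD (Y : GTF V) (j : Bool) (nx : Y.F → Y.F → Prop) : Prop where
  prop : ∀ l w, nx l w → Y.DD l ∧ Y.Bd w ∧ Y.rk l < Y.rk w ∧ Y.ty w = some j ∧
      Y.ty (Y.al 0 1 l) = some j ∧ Y.al 0 1 w ∈ Y.supp j (Y.al 0 1 l)
  left : ∀ w, Y.Bd w → Y.ty w = some j → ∃ l, nx l w
  right : ∀ l, Y.DD l → Y.ty (Y.al 0 1 l) = some j → ∃ w, nx l w
  uniq_r : ∀ l w w', nx l w → nx l w' → w = w'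
  uniq_l : ∀ l l' w, nx l w → nx l' w → l = l'

/-- partner relation -/
def PR (nx : Y.F → Y.F → Prop) (g g' : Y.F) : Prop :=
  ∃ (l w : Y.F) (A : Finset ℕ), nx l w ∧
    ((A.card = 1 ∧ g = Y.ap w (Y.sm A) ∧ g' = Y.ap l (Y.sm A)) ∨
     (2 ≤ A.card ∧ g = Y.ap l (Y.sm A) ∧ g' = Y.ap w (Y.sm A)))

theorem ap_v_eq_perm {w : Y.F} (hw : Y.inF {0} w) (x : ℕ) :
    Y.ap w (Y.v x) = Y.perm (Equiv.swap 0 x) w := by
  unfold ap TF.perm
  apply hw.sub_congr
  intro y hy
  rw [Set.mem_singleton_iff] at hy
  rw [hy, Equiv.swap_apply_left]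

theorem perm_ap_sm (π : Equiv.Perm ℕ) (w : Y.F) (A : Finset ℕ) :
    Y.perm π (Y.ap w (Y.sm A)) = Y.ap w (Y.sm (A.map π.toEmbedding)) := by
  unfold TF.perm
  rw [sub_ap, sub_sm]
  unfold sm
  rw [Finset.sum_map]
  rfl

theorem exists_perm {x y : ℕ} (hxy : x ≠ y) : ∃ π : Equiv.Perm ℕ, π 0 = x ∧ π 1 = y := by
  refine ⟨Equiv.swap (Equiv.swap 0 x 1) y * Equiv.swap 0 x, ?_, ?_⟩
  · rw [Equiv.Perm.mul_apply, Equiv.swap_apply_left]
    apply Equiv.swap_apply_of_ne_of_ne
    · intro h
      have h2 : Equiv.swap 0 x 0 = x := Equiv.swap_apply_left 0 x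
      have h3 : Equiv.swap 0 x 0 = Equiv.swap 0 x 1 := h2.trans h
      have := (Equiv.swap 0 x).injective h3
      cases this
    · exact hxy
  · rw [Equiv.Perm.mul_apply, Equiv.swap_apply_left]

theorem ty_ap_v {w : Y.F} (hw : Y.inF {0} w) (x : ℕ) : Y.ty (Y.ap w (Y.v x)) = Y.ty w := by
  rw [ap_v_eq_perm hw, ty_perm]

theorem rk_ap_v {w : Y.F} (hw : Y.inF {0} w) (x : ℕ) : Y.rk (Y.ap w (Y.v x)) = Y.rk w := by
  rw [ap_v_eq_perm hw, rk_perm]

theorem ty_ap_sm {w : Y.F} (hw : Y.inF {0} w) {A : Finset ℕ} (hA : 2 ≤ A.card) :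
    Y.ty (Y.ap w (Y.sm A)) = Y.ty (Y.al 0 1 w) := by
  rw [al01_eq hw]
  exact ty_sum hw hA (by simp)

variable {j : Bool} {nx : Y.F → Y.F → Prop} (h : CD Y j nx)

include h in
theorem nx_supp {l w : Y.F} (hlw : nx l w) : ∀ A : Finset ℕ, 2 ≤ A.card →
    Y.ap w (Y.sm A) ∈ Y.supp j (Y.ap l (Y.sm A)) := by
  obtain ⟨hl, hw, _, _, _, h6⟩ := h.prop l w hlw
  apply ind2
  · intro x y hxy
    obtain ⟨π, h0, h1⟩ := exists_perm hxy
    rw [al01_eq hw.1, al01_eq hl.inF] at h6
    have h7 := supp_perm π h6
    rw [perm_ap_sm, perm_ap_sm] at h7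
    have h8 : Finset.map π.toEmbedding {0, 1} = {x, y} := by
      rw [Finset.map_insert, Finset.map_singleton]
      simp [h0, h1]
    rw [h8] at h7
    exact h7
  · intro A z hA hz ih
    obtain ⟨x, hx, x', hx', hxx⟩ := Finset.one_lt_card.mp (show 1 < A.card by omega)
    have hxz : x ≠ z := fun e => hz (e ▸ hx)
    rw [← al_ap hx hz, ← al_ap hx hz]
    apply clB2 hxz (inF_compl_of_not_mem hz (ap_sm_inF l A)) ih
    intro h7
    apply nf hw.1 hw.nonconst hx'
    apply h7.mono
    intro t ht htx
    rw [Set.mem_singleton_iff] at ht htx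
    exact hxx (ht.symm.trans htx)

include h in
theorem PR_ty {g g' : Y.F} (hg : PR nx g g') : Y.ty g = some j := by
  obtain ⟨l, w, A, hlw, hA⟩ := hg
  obtain ⟨hl, hw, _, h4, h5, h6⟩ := h.prop l w hlw
  rcases hA with ⟨hA, hg, _⟩ | ⟨hA, hg, _⟩
  · obtain ⟨x, hx⟩ := Finset.card_eq_one.mp hA
    rw [hg, hx, sm_singleton, ty_ap_v hw.1, h4]
  · rw [hg, ty_ap_sm hl.inF hA, h5]

include h in
theorem PR_rk {g g' : Y.F} (hg : PR nx g g') : Y.rk g' < Y.rk g := by
  have hty := PR_ty h hg
  obtain ⟨l, w, A, hlw, hA⟩ := hg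
  obtain ⟨hl, hw, h3, h4, h5, h6⟩ := h.prop l w hlw
  rcases hA with ⟨hA, hg, hg'⟩ | ⟨hA, hg, hg'⟩
  · obtain ⟨x, hx⟩ := Finset.card_eq_one.mp hA
    rw [hg, hg', hx, sm_singleton, rk_ap_v hw.1, rk_ap_v hl.inF]
    exact h3
  · apply Y.rk_lt hty
    rw [hg, hg']
    exact nx_supp h hlw A hA

include h in
theorem PR_fun {g g1 g2 : Y.F} (hg1 : PR nx g g1) (hg2 : PR nx g g2) : g1 = g2 := by
  obtain ⟨l, w, A, hlw, hA⟩ := hg1
  obtain ⟨l', w', A', hlw', hA'⟩ := hg2
  obtain ⟨hl, hw, _⟩ := h.prop l w hlw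
  obtain ⟨hl', hw', _⟩ := h.prop l' w' hlw'
  rcases hA with ⟨hA, hg, hg1⟩ | ⟨hA, hg, hg1⟩
  · rcases hA' with ⟨hA', hg', hg2⟩ | ⟨hA', hg', hg2⟩
    · have h1 := hg.symm.trans hg'
      have h2 := set_eq hw.1 hw.nonconst hw'.1 hw'.nonconst h1
      subst h2
      have hne : A.Nonempty := Finset.card_pos.mp (by omega)
      have h3 := ap_inj hw.1 hw'.1 hne h1
      subst h3
      rw [hg1, hg2, h.uniq_l l l' w hlw hlw']
    · have h1 := hg.symm.trans hg'
      have h2 := set_eq hw.1 hw.nonconst hl'.inF hl'.nonconst h1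
      rw [h2] at hA
      omega
  · rcases hA' with ⟨hA', hg', hg2⟩ | ⟨hA', hg', hg2⟩
    · have h1 := hg.symm.trans hg'
      have h2 := set_eq hl.inF hl.nonconst hw'.1 hw'.nonconst h1
      rw [h2] at hA
      omega
    · have h1 := hg.symm.trans hg'
      have h2 := set_eq hl.inF hl.nonconst hl'.inF hl'.nonconst h1
      subst h2
      have hne : A.Nonempty := Finset.card_pos.mp (by omega)
      have h3 := ap_inj hl.inF hl'.inF hne h1
      subst h3
      rw [hg1, hg2, h.uniq_r l w w' hlw hlw']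

theorem PR_perm (π : Equiv.Perm ℕ) {g g' : Y.F} (hg : PR nx g g') :
    PR nx (Y.perm π g) (Y.perm π g') := by
  obtain ⟨l, w, A, hlw, hA⟩ := hg
  refine ⟨l, w, A.map π.toEmbedding, hlw, ?_⟩
  rw [Finset.card_map, ← perm_ap_sm, ← perm_ap_sm]
  rcases hA with ⟨hA, hg, hg1⟩ | ⟨hA, hg, hg1⟩
  · left; rw [hg, hg1]; exact ⟨hA, rfl, rfl⟩
  · right; rw [hg, hg1]; exact ⟨hA, rfl, rfl⟩

include h in
theorem PR_inF {S : Set ℕ} {g g' : Y.F} (hg : PR nx g g') (hS : Y.inF S g) : Y.inF S g' := by
  obtain ⟨l, w, A, hlw, hA⟩ := hg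
  obtain ⟨hl, hw, _⟩ := h.prop l w hlw
  have key : ∀ u, Y.inF {0} u → ¬ Y.inF ∅ u → g = Y.ap u (Y.sm A) → (A : Set ℕ) ⊆ S := by
    intro u hu hc hg x hx
    by_contra hxS
    apply nf hu hc hx
    rw [← hg]
    apply hS.mono
    intro y hy hyx
    rw [Set.mem_singleton_iff] at hyx
    rw [hyx] at hy
    exact hxS hy
  rcases hA with ⟨hA, hg, hg1⟩ | ⟨hA, hg, hg1⟩
  · rw [hg1]
    exact (ap_sm_inF l A).mono (key w hw.1 hw.nonconst hg)
  · rw [hg1]
    exact (ap_sm_inF w A).mono (key l hl.inF hl.nonconst hg)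

/-- characterisation of the collapsing maps -/
structure IsPsi (nx : Y.F → Y.F → Prop) {N : Type} (J : Alg (V (!j)).sig N) (cN : N)
    (s : ℕ → N) (f : Y.F → N) : Prop where
  hom : IsHom (Y.alg (!j)) J f
  map_c : f Y.c = cN
  map_v : ∀ x, f (Y.v x) = s x
  pair : ∀ g g', PR nx g g' → f g = f g'
  other : ∀ g, Y.ty g = some j → (¬ ∃ g', PR nx g g') → f g = cN

section

variable {N : Type} {J : Alg (V (!j)).sig N} (hJ : (V (!j)).IsModel J) (cN : N) (s : ℕ → N)

theorem not_ty {w : Y.F} (hw : Y.ty w ≠ some (!j)) : Y.ty w = none ∨ Y.ty w = some j := by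
  cases h : Y.ty w with
  | none => left; rfl
  | some k =>
    right
    rw [h] at hw
    cases k <;> cases j <;> simp_all

theorem not_ne_self (j : Bool) : j ≠ !j := by cases j <;> decide

include h hJ in
theorem psi_exists : ∃ f : Y.F → N, IsPsi nx J cN s f := by
  classical
  let step : Y.F → (Y.F → N) → N := fun w f =>
    if w = Y.c then cN else if h : ∃ x, w = Y.v x then s h.choose else
      if h : ∃ g', PR nx w g' then f h.choose else cN
  have hstep : ∀ w f g, (∀ v, Y.rk v < Y.rk w → f v = g v) → step w f = step w g := by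
    intro w f g hfg
    simp only [step]
    split_ifs with h1 h2 h3
    · rfl
    · rfl
    · exact hfg _ (PR_rk h h3.choose_spec)
    · rfl
  have hc : ∀ f, step Y.c f = cN := by
    intro f
    exact if_pos rfl
  obtain ⟨f, h1, h2⟩ := Y.rec_exists (fun i => i = !j) (fun i hi => hi ▸ J)
    (by rintro i rfl; exact hJ) cN step hstep hc
  have hne : ∀ w, Y.ty w ≠ some (!j) → f w = step w f := by
    intro w hw
    apply h2
    rintro i rfl
    exact hw
  refine ⟨f, h1 _ rfl, ?_, ?_, ?_, ?_⟩
  · rw [hne _ (by rw [Y.ty_c]; simp)]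
    exact hc f
  · intro x
    rw [hne _ (by rw [Y.ty_v]; simp)]
    have hn : ∃ y, Y.v x = Y.v y := ⟨x, rfl⟩
    simp only [step]
    rw [if_neg (Y.v_ne_c x), dif_pos hn]
    congr 1
    exact (Y.v_inj hn.choose_spec).symm
  · intro g g' hg
    have hty := PR_ty h hg
    rw [hne g (by rw [hty]; intro e; exact not_ne_self j (Option.some.inj e))]
    have hn : ∃ g', PR nx g g' := ⟨g', hg⟩
    simp only [step]
    rw [if_neg, dif_neg, dif_pos hn]
    · rw [PR_fun h hn.choose_spec hg]
    · rintro ⟨x, hx⟩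
      rw [hx, Y.ty_v] at hty
      cases hty
    · intro hx
      rw [hx, Y.ty_c] at hty
      cases hty
  · intro g hty hno
    rw [hne g (by rw [hty]; intro e; exact not_ne_self j (Option.some.inj e))]
    simp only [step]
    rw [if_neg, dif_neg, dif_neg hno]
    · rintro ⟨x, hx⟩
      rw [hx, Y.ty_v] at hty
      cases hty
    · intro hx
      rw [hx, Y.ty_c] at hty
      cases hty

/-- the collapsing map -/
noncomputable def psi : Y.F → N := (psi_exists h hJ cN s).choose

theorem psi_isPsi : IsPsi nx J cN s (psi h hJ cN s) := (psi_exists h hJ cN s).choose_spec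

variable {cN} {s}

include h in
theorem IsPsi.local {S : Set ℕ} {s' : ℕ → N} {f g : Y.F → N} (hf : IsPsi nx J cN s f)
    (hg : IsPsi nx J cN s' g) (hs : ∀ x ∈ S, s x = s' x) {w : Y.F} (hw : Y.inF S w) :
    f w = g w := by
  apply Y.rec_unique (fun i => i = !j) (fun i hi => hi ▸ J) f g
    (by rintro i rfl; exact hf.hom) (by rintro i rfl; exact hg.hom)
    (by rw [hf.map_c, hg.map_c]) (Y.inF S) (fun i w hw z hz => hw.supp hz) _ w hw
  intro w hw hty ih
  have hty' := not_ty (hty (!j) rfl)
  rcases hty' with hty' | hty'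
  · rcases Y.ty_none w hty' with h1 | ⟨x, h1⟩
    · rw [h1, hf.map_c, hg.map_c]
    · rw [h1, hf.map_v, hg.map_v]
      apply hs
      rw [h1, inF_v_iff] at hw
      exact hw
  · by_cases hp : ∃ g', PR nx w g'
    · obtain ⟨g', hg'⟩ := hp
      rw [hf.pair _ _ hg', hg.pair _ _ hg']
      exact ih g' (PR_inF h hg' hw) (PR_rk h hg')
    · rw [hf.other w hty' hp, hg.other w hty' hp]

include h in
theorem IsPsi.unique {f g : Y.F → N} (hf : IsPsi nx J cN s f)
    (hg : IsPsi nx J cN s g) (w : Y.F) : f w = g w :=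
  IsPsi.local h hf hg (fun _ _ => rfl) (inF_univ w)

theorem IsPsi.perm {f : Y.F → N} (hf : IsPsi nx J cN s f) (π : Equiv.Perm ℕ) :
    IsPsi nx J cN (fun x => s (π x)) (fun w => f (Y.perm π w)) where
  hom := hf.hom.comp (Y.sub_hom _ _)
  map_c := by
    have : Y.perm π Y.c = Y.c := Y.sub_c _
    rw [this, hf.map_c]
  map_v := by
    intro x
    have : Y.perm π (Y.v x) = Y.v (π x) := Y.sub_v _ _
    rw [this, hf.map_v]
  pair := by
    intro g g' hg
    exact hf.pair _ _ (PR_perm π hg)
  other := by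
    intro g hty hno
    apply hf.other
    · rw [ty_perm, hty]
    · rintro ⟨g', hg'⟩
      apply hno
      have := PR_perm π⁻¹ hg'
      rw [perm_inv_perm] at this
      exact ⟨_, this⟩

theorem IsPsi.map {f : Y.F → N} (hf : IsPsi nx J cN s f) {N' : Type}
    {J' : Alg (V (!j)).sig N'} {θ : N → N'} (hθ : IsHom J J' θ) :
    IsPsi nx J' (θ cN) (fun x => θ (s x)) (fun w => θ (f w)) where
  hom := hθ.comp hf.hom
  map_c := by rw [hf.map_c]
  map_v := by
    intro x
    rw [hf.map_v]
  pair := by
    intro g g' hg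
    rw [hf.pair _ _ hg]
  other := by
    intro g hty hno
    rw [hf.other g hty hno]

theorem rh_sm {z : ℕ} {A : Finset ℕ} (hz : z ∈ A) : Y.rh z (Y.sm A) = Y.sm (A.erase z) := by
  unfold rh
  rw [sub_sm, ← Finset.add_sum_erase A _ hz, Function.update_self, zero_add]
  unfold sm
  apply Finset.sum_congr rfl
  intro y hy
  rw [Function.update_of_ne (Finset.ne_of_mem_erase hy)]

include h in
/-- equivariance -/
theorem equiv {x z : ℕ} (hxz : x ≠ z) {s' : ℕ → N} {f f' : Y.F → N} (hf : IsPsi nx J cN s f)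
    (hf' : IsPsi nx J cN s' f') (h1 : s' x = f (Y.v x + Y.v z)) (h2 : ∀ y, y ≠ x → s' y = s y)
    {w : Y.F} (hw : Y.inF {z}ᶜ w) : f (Y.al x z w) = f' w := by
  apply Y.rec_unique (fun i => i = !j) (fun i hi => hi ▸ J) (fun u => f (Y.al x z u)) f'
    (by rintro i rfl; exact hf.hom.comp (Y.sub_hom _ _)) (by rintro i rfl; exact hf'.hom)
    (by
      have : Y.al x z Y.c = Y.c := Y.sub_c _
      simp only [this]
      rw [hf.map_c, hf'.map_c]) (Y.inF {z}ᶜ) (fun i w hw z hz => hw.supp hz) _ w hw
  intro w hw hty ih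
  have hty' := not_ty (hty (!j) rfl)
  rcases hty' with hty' | hty'
  · rcases Y.ty_none w hty' with h3 | ⟨y, h3⟩
    · rw [h3]
      have : Y.al x z Y.c = Y.c := Y.sub_c _
      simp only [this]
      rw [hf.map_c, hf'.map_c]
    · rw [h3, hf'.map_v]
      by_cases hy : y = x
      · rw [hy, al_v_self, h1]
      · rw [al_v_ne z hy, hf.map_v, h2 y hy]
  · by_cases hp : ∃ g', PR nx w g'
    · obtain ⟨g', hg'⟩ := hp
      rw [hf'.pair _ _ hg', ← ih g' (PR_inF h hg' hw) (PR_rk h hg')]
      obtain ⟨l, u, A, hlw, hA⟩ := hg'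
      obtain ⟨hl, hu, _⟩ := h.prop l u hlw
      have hzA : z ∉ A := by
        intro hzA
        rcases hA with ⟨hA, hg, hg1⟩ | ⟨hA, hg, hg1⟩
        · apply nf hu.1 hu.nonconst hzA
          rw [← hg]; exact hw
        · apply nf hl.inF hl.nonconst hzA
          rw [← hg]; exact hw
      rcases hA with ⟨hA, hg, hg1⟩ | ⟨hA, hg, hg1⟩
      · by_cases hx : x ∈ A
        · rw [hg, hg1, al_ap hx hzA, al_ap hx hzA]
          symm
          apply hf.pair
          refine ⟨l, u, insert z A, hlw, Or.inr ⟨?_, rfl, rfl⟩⟩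
          rw [Finset.card_insert_of_notMem hzA]
          omega
        · rw [hg, hg1, al_ap_not_mem hx, al_ap_not_mem hx]
          apply hf.pair
          exact ⟨l, u, A, hlw, Or.inl ⟨hA, rfl, rfl⟩⟩
      · by_cases hx : x ∈ A
        · rw [hg, hg1, al_ap hx hzA, al_ap hx hzA]
          apply hf.pair
          refine ⟨l, u, insert z A, hlw, Or.inr ⟨?_, rfl, rfl⟩⟩
          rw [Finset.card_insert_of_notMem hzA]
          omega
        · rw [hg, hg1, al_ap_not_mem hx, al_ap_not_mem hx]
          apply hf.pair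
          exact ⟨l, u, A, hlw, Or.inr ⟨hA, rfl, rfl⟩⟩
    · rw [hf'.other w hty' hp]
      by_cases hty2 : Y.ty (Y.al x z w) = some j
      · apply hf.other _ hty2
        rintro ⟨g', hg'⟩
        obtain ⟨l, u, A, hlw, hA⟩ := hg'
        obtain ⟨hl, hu, _, _, hl2, _⟩ := h.prop l u hlw
        by_cases hzA : z ∈ A
        · rcases hA with ⟨hA, hg, hg1⟩ | ⟨hA, hg, hg1⟩
          · -- `A = {z}`
            have h3 : w = Y.ap u (Y.sm (A.erase z)) := by
              rw [← rh_sm hzA, ← rh_al hxz hw, hg]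
              exact sub_ap _ _ _
            have h4 : A.erase z = ∅ := by
              rw [← Finset.card_eq_zero, Finset.card_erase_of_mem hzA, hA]
            rw [h4] at h3
            have h5 : Y.inF ∅ w := by
              rw [h3]
              apply ap_inF
              apply sm_inF
              simp
            rw [al_const h5] at hg
            apply nf hu.1 hu.nonconst hzA
            rw [← hg]
            exact h5.mono (Set.empty_subset _)
          · have h3 : w = Y.ap l (Y.sm (A.erase z)) := by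
              rw [← rh_sm hzA, ← rh_al hxz hw, hg]
              exact sub_ap _ _ _
            have h4 : (A.erase z).card = A.card - 1 := Finset.card_erase_of_mem hzA
            by_cases h5 : 2 ≤ (A.erase z).card
            · apply hp
              exact ⟨_, l, u, A.erase z, hlw, Or.inr ⟨h5, h3, rfl⟩⟩
            · obtain ⟨y, hy⟩ := Finset.card_eq_one.mp (show (A.erase z).card = 1 by omega)
              rw [hy, sm_singleton] at h3
              rw [h3, ty_ap_v hl.inF] at hty'
              rcases hl with hl | hl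
              · rw [hl, Y.ty_v] at hty'
                cases hty'
              · exact hl.2.2 (hl2.trans hty'.symm)
        · have h3 : Y.inF {z}ᶜ (Y.al x z w) := by
            rcases hA with ⟨hA, hg, hg1⟩ | ⟨hA, hg, hg1⟩
            · rw [hg]
              exact inF_compl_of_not_mem hzA (ap_sm_inF u A)
            · rw [hg]
              exact inF_compl_of_not_mem hzA (ap_sm_inF l A)
          have h4 : Y.al x z w = w := by
            rw [← rh_self h3, rh_al hxz hw]
          rw [h4] at hA
          exact hp ⟨g', l, u, A, hlw, hA⟩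
      · exfalso
        have h3 : Y.inF {x} w := bt hxz hw (by rw [hty']; exact hty2)
        have h4 : Y.inF {0} (Y.ap w (Y.v 0)) := ap_inF (inF_v rfl)
        have h5 : w = Y.ap (Y.ap w (Y.v 0)) (Y.sm {x}) := by
          rw [sm_singleton]
          have h6 : Y.ap (Y.ap w (Y.v 0)) (Y.v x) = Y.sub (fun _ => Y.v x) w := by
            unfold ap
            rw [Y.sub_sub]
            congr 1
            funext t
            rw [Y.sub_v]
          rw [h6]
          symm
          apply h3.sub_eq_self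
          intro t ht
          rw [Set.mem_singleton_iff] at ht
          rw [ht]
        have h6 : Y.ty (Y.ap w (Y.v 0)) = some j := by
          rw [← hty']
          conv_rhs => rw [h5]
          rw [sm_singleton, ty_ap_v h4]
        have hzx : z ∉ ({x} : Finset ℕ) := by
          rw [Finset.mem_singleton]
          exact hxz.symm
        have h7 : Y.ty (Y.al 0 1 (Y.ap w (Y.v 0))) = Y.ty (Y.al x z w) := by
          conv_rhs => rw [h5]
          rw [al_ap (by simp) hzx, ty_ap_sm h4]
          rw [Finset.card_insert_of_notMem hzx]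
          simp
        have h8 : Y.Bd (Y.ap w (Y.v 0)) := by
          refine ⟨h4, ?_, ?_⟩
          · rw [h6]; simp
          · rw [h6, h7]; exact hty2
        obtain ⟨l, hl⟩ := h.left _ h8 h6
        exact hp ⟨_, l, _, {x}, hl, Or.inl ⟨by simp, h5, rfl⟩⟩

include h in
/-- the exponent -/
theorem expo {n : ℕ} (hn : 1 ≤ n) (hexp : ∀ a : Y.F, n • a = 0) {s' : ℕ → N} {f f' : Y.F → N}
    (hf : IsPsi nx J cN s f) (hf' : IsPsi nx J cN s' f') (h1 : s' 0 = s 0)
    (h2 : ∀ k, k ≠ 0 → s' k = s 1) (w : Y.F) (hw : Y.inF {0} w) :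
    f' (Y.ap w (Y.sm (Finset.range (n + 1)))) = f w := by
  classical
  have hA : 2 ≤ (Finset.range (n + 1)).card := by
    rw [Finset.card_range]; omega
  have h0A : 0 ∈ Finset.range (n + 1) := by simp
  generalize hAdef : Finset.range (n + 1) = A at hA h0A ⊢
  let ε : ℕ → Y.F := fun k => if k = 0 then Y.v 0 else Y.v 1
  have hε : Y.sub ε (Y.sm A) = Y.v 0 := by
    rw [sub_sm, ← hAdef, Finset.sum_range_succ']
    simp [ε, hexp]
  have hεap : ∀ u, Y.inF {0} u → Y.sub ε (Y.ap u (Y.sm A)) = u := by
    intro u hu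
    rw [sub_ap, hε, ap_v0 hu]
  have hsing : ∀ x u, Y.inF {x} u → f' u = f (Y.sub ε u) := by
    intro x u hu
    by_cases hx : x = 0
    · have h3 : Y.sub ε u = u := by
        apply hu.sub_eq_self
        intro y hy
        rw [Set.mem_singleton_iff] at hy
        simp [ε, hy, hx]
      rw [h3]
      apply IsPsi.local h hf' hf _ hu
      intro y hy
      rw [Set.mem_singleton_iff] at hy
      rw [hy, hx, h1]
    · have h3 : Y.sub ε u = Y.perm (Equiv.swap x 1) u := by
        unfold TF.perm
        apply hu.sub_congr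
        intro y hy
        rw [Set.mem_singleton_iff] at hy
        rw [hy, Equiv.swap_apply_left]
        simp [ε, hx]
      rw [h3]
      apply IsPsi.local h hf' (hf.perm (Equiv.swap x 1)) _ hu
      intro y hy
      rw [Set.mem_singleton_iff] at hy
      rw [hy, Equiv.swap_apply_left]
      exact h2 x hx
  have main : ∀ g w, Y.inF {0} w → g = Y.ap w (Y.sm A) → f' g = f w := by
    intro g
    induction g using strong_rk with
    | _ g ih =>
      intro w hw hg
      by_cases hc : Y.inF ∅ w
      · rw [hg, ap_const hc]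
        exact IsPsi.local h hf' hf (fun x hx => hx.elim) hc
      by_cases hty : Y.ty g = some (!j)
      · have h3 : f' g = f (Y.sub ε g) := by
          apply Y.hom_eq (i := !j) hf'.hom (hf.hom.comp (Y.sub_hom ε _)) (w := g)
          · rw [Y.sub_c, hf.map_c, hf'.map_c]
          · intro u hu
            have hu' := hu
            rw [hg] at hu'
            rcases fs A hA w hw u hu' with ⟨x, _, hx⟩ | ⟨t, ht1, ht2⟩
            · exact hsing x u hx
            · rw [ih u (Y.rk_lt hty hu) t ht1 ht2, ht2, hεap t ht1]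
        rw [h3, hg, hεap w hw]
      · have hty2 : Y.ty g = some j := by
          rcases not_ty hty with h3 | h3
          · rw [hg] at h3
            exact absurd h3 (ty_sum_ne_none hw hc hA)
          · exact h3
        have hty3 : Y.ty (Y.al 0 1 w) = some j := by
          rw [← ty_ap_sm hw hA, ← hg]
          exact hty2
        have hright : Y.DD w → ∃ g', PR nx g g' := by
          intro hd
          obtain ⟨u, hu⟩ := h.right w hd hty3
          exact ⟨_, w, u, A, hu, Or.inr ⟨hA, hg, rfl⟩⟩
        by_cases hp : ∃ g', PR nx g g'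
        · obtain ⟨g', hg'⟩ := hp
          have hrk := PR_rk h hg'
          rw [hf'.pair _ _ hg']
          obtain ⟨l, u, B, hlw, hB⟩ := hg'
          obtain ⟨hl, hu, _⟩ := h.prop l u hlw
          rcases hB with ⟨hB, hg2, hg3⟩ | ⟨hB, hg2, hg3⟩
          · exfalso
            have h3 := set_eq hw hc hu.1 hu.nonconst (hg.symm.trans hg2)
            rw [h3] at hA
            omega
          · have h3 := set_eq hw hc hl.inF hl.nonconst (hg.symm.trans hg2)
            subst h3
            have h4 := ap_inj hw hl.inF ⟨0, h0A⟩ (hg.symm.trans hg2)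
            subst h4
            rw [ih g' hrk u hu.1 hg3]
            apply hf.pair
            refine ⟨w, u, {0}, hlw, Or.inl ⟨by simp, ?_, ?_⟩⟩
            · rw [sm_singleton, ap_v0 hu.1]
            · rw [sm_singleton, ap_v0 hw]
        · rw [hf'.other g hty2 hp]
          symm
          cases htw : Y.ty w with
          | none =>
            exfalso
            apply hp
            apply hright
            left
            rcases Y.ty_none w htw with h3 | ⟨x, h3⟩
            · exfalso
              apply hc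
              rw [h3]
              exact inF_c _
            · rw [h3, inF_v_iff, Set.mem_singleton_iff] at hw
              rw [h3, hw]
          | some k =>
            by_cases hk : k = j
            · apply hf.other w (by rw [htw, hk])
              rintro ⟨g', l, u, B, hlw, hB⟩
              obtain ⟨hl, hu, _⟩ := h.prop l u hlw
              have hw0 : w = Y.ap w (Y.sm {0}) := by
                rw [sm_singleton, ap_v0 hw]
              rcases hB with ⟨hB, hg2, hg3⟩ | ⟨hB, hg2, hg3⟩
              · have h3 := set_eq hw hc hu.1 hu.nonconst (hw0.symm.trans hg2)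
                subst h3
                have h4 := ap_inj hw hu.1 ⟨0, by simp⟩ (hw0.symm.trans hg2)
                rw [← h4] at hu
                apply hu.2.2
                rw [hty3, htw, hk]
              · have h3 := set_eq hw hc hl.inF hl.nonconst (hw0.symm.trans hg2)
                rw [← h3] at hB
                simp at hB
            · exfalso
              apply hp
              apply hright
              right
              refine ⟨hw, by rw [htw]; simp, ?_⟩
              rw [hty3, htw]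
              intro e
              exact hk (Option.some.inj e).symm
  exact main _ w hw rfl

end

section Final

variable (n : ℕ) (hn : 1 ≤ n) (hexp : ∀ a : Y.F, n • a = 0)

/-- two given values -/
def two {N : Type} (a b : N) : ℕ → N := fun k => if k = 0 then a else b

/-- the operation on models of the target theory -/
noncomputable def pl {N : Type} {J : Alg (V (!j)).sig N} (hJ : (V (!j)).IsModel J) (cN : N)
    (a b : N) : N := psi h hJ cN (two a b) (Y.v 0 + Y.v 1)

variable {N : Type} {J : Alg (V (!j)).sig N} (hJ : (V (!j)).IsModel J) (cN : N)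

theorem pl_eq (s : ℕ → N) {x y : ℕ} (hxy : x ≠ y) :
    psi h hJ cN s (Y.v x + Y.v y) = pl h hJ cN (s x) (s y) := by
  obtain ⟨π, h0, h1⟩ := exists_perm hxy
  have h2 : Y.v x + Y.v y = Y.perm π (Y.v 0 + Y.v 1) := by
    unfold TF.perm
    rw [Y.sub_add, Y.sub_v, Y.sub_v, h0, h1]
  rw [h2]
  unfold pl
  apply IsPsi.local h ((psi_isPsi h hJ cN s).perm π) (psi_isPsi h hJ cN (two (s x) (s y)))
    (S := {0, 1})
  · intro t ht
    rcases ht with ht | ht
    · rw [ht, h0]; simp [two]
    · have ht' : t = 1 := ht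
      rw [ht', h1]; simp [two]
  · apply inF_add
    · exact inF_v (by simp)
    · exact inF_v (by simp)

theorem pl_comm (a b : N) : pl h hJ cN a b = pl h hJ cN b a := by
  have h1 := pl_eq h hJ cN (two a b) (x := 0) (y := 1) (by decide)
  have h2 := pl_eq h hJ cN (two a b) (x := 1) (y := 0) (by decide)
  rw [add_comm] at h2
  rw [h1] at h2
  simpa [two] using h2

theorem pl_assoc (a b d : N) :
    pl h hJ cN (pl h hJ cN a b) d = pl h hJ cN a (pl h hJ cN b d) := by
  let s : ℕ → N := fun k => if k = 0 then a else if k = 1 then b else d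
  have hin : ∀ x y z : ℕ, x ≠ z → y ≠ z → Y.inF {z}ᶜ (Y.v x + Y.v y) := by
    intro x y z h1 h2
    exact inF_add (inF_v h1) (inF_v h2)
  have e1 := equiv h (x := 0) (z := 1) (by decide) (psi_isPsi h hJ cN s)
    (psi_isPsi h hJ cN (Function.update s 0 (psi h hJ cN s (Y.v 0 + Y.v 1))))
    (by rw [Function.update_self]) (fun y hy => by rw [Function.update_of_ne hy])
    (hin 0 2 1 (by decide) (by decide))
  have e2 := equiv h (x := 1) (z := 2) (by decide) (psi_isPsi h hJ cN s)
    (psi_isPsi h hJ cN (Function.update s 1 (psi h hJ cN s (Y.v 1 + Y.v 2))))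
    (by rw [Function.update_self]) (fun y hy => by rw [Function.update_of_ne hy])
    (hin 0 1 2 (by decide) (by decide))
  have h1 : Y.al 0 1 (Y.v 0 + Y.v 2) = Y.al 1 2 (Y.v 0 + Y.v 1) := by
    unfold al
    rw [Y.sub_add, Y.sub_add, Y.sub_v, Y.sub_v, Y.sub_v, Y.sub_v, Function.update_self,
      Function.update_self, Function.update_of_ne (by decide), Function.update_of_ne (by decide)]
    abel
  rw [h1, e2] at e1
  rw [pl_eq h hJ cN _ (by decide), pl_eq h hJ cN _ (by decide), pl_eq h hJ cN _ (by decide),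
    pl_eq h hJ cN _ (by decide)] at e1
  simp [s, Function.update] at e1
  exact e1.symm

theorem pl_sum (b : N) (m : ℕ) : ∀ a : N, psi h hJ cN (two a b) (Y.sm (Finset.range (m + 1))) =
    (fun x => pl h hJ cN x b)^[m] a := by
  induction m with
  | zero =>
    intro a
    have : Y.sm (Finset.range (0 + 1)) = Y.v 0 := by simp [sm]
    rw [this, (psi_isPsi h hJ cN (two a b)).map_v]
    rfl
  | succ m ih =>
    intro a
    rw [Function.iterate_succ, Function.comp_apply, ← ih (pl h hJ cN a b)]
    have h1 : Y.sm (Finset.range (m + 1 + 1)) = Y.al 0 (m + 1) (Y.sm (Finset.range (m + 1))) := by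
      rw [al_sm (by simp) (by simp), ← Finset.range_add_one]
    rw [h1]
    apply equiv h (x := 0) (z := m + 1) (by omega) (psi_isPsi h hJ cN _) (psi_isPsi h hJ cN _)
    · rw [pl_eq h hJ cN _ (by omega)]
      simp [two]
    · intro y hy
      simp [two, hy]
    · apply sm_inF
      intro x hx
      have : x < m + 1 := by simpa using hx
      intro e
      rw [Set.mem_singleton_iff] at e
      omega

include hn hexp in
theorem pl_exp (a b : N) : (fun x => pl h hJ cN x b)^[n] a = a := by
  rw [← pl_sum h hJ cN b n a]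
  have h1 := expo h hn hexp (psi_isPsi h hJ cN (two a b)) (psi_isPsi h hJ cN (two a b)) rfl
    (fun k hk => by simp [two, hk]) (Y.v 0) (inF_v rfl)
  rw [ap_of_v0] at h1
  rw [h1, (psi_isPsi h hJ cN (two a b)).map_v]
  rfl

end Final

include h in
theorem PAn_of (n : ℕ) (hn : 1 ≤ n) (hexp : ∀ a : Y.F, n • a = 0) : PAn n (V (!j)) := by
  let N0 := FreeAlg (V (!j)) (Fin 3)
  let e : N0 := psi h FreeAlg.isModel (FreeAlg.gen 2 : N0) (two (FreeAlg.gen 0) (FreeAlg.gen 1))
    (Y.v 0 + Y.v 1)
  refine ⟨e.rep, ?_⟩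
  intro N J hJ c
  have key : ∀ a b : N, e.rep.eval J ![a, b, c] = pl h hJ c a b := by
    intro a b
    let θ : N0 → N := FreeAlg.lift J ![a, b, c]
    have hθ : IsHom FreeAlg.alg J θ := FreeAlg.lift_hom J hJ _
    have h1 : θ e = e.rep.eval J ![a, b, c] := rfl
    rw [← h1]
    have h2 := (psi_isPsi h FreeAlg.isModel (FreeAlg.gen 2 : N0)
      (two (FreeAlg.gen 0) (FreeAlg.gen 1))).map hθ
    have h3 : θ (FreeAlg.gen 2) = c := FreeAlg.lift_gen J hJ _ _
    have h4 : (fun x => θ (two (FreeAlg.gen 0) (FreeAlg.gen 1) x)) = two a b := by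
      funext x
      unfold two
      split_ifs
      · exact FreeAlg.lift_gen J hJ _ _
      · exact FreeAlg.lift_gen J hJ _ _
    rw [h3, h4] at h2
    exact IsPsi.unique h h2 (psi_isPsi h hJ c (two a b)) _
  refine ⟨?_, ?_, ?_⟩
  · intro a b
    rw [key, key]
    exact pl_comm h hJ c a b
  · intro a b d
    rw [key, key, key, key]
    exact pl_assoc h hJ c a b d
  · intro a b
    have : (fun x => e.rep.eval J ![x, b, c]) = fun x => pl h hJ c x b := by
      funext x
      exact key x b
    rw [this]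
    exact pl_exp h n hn hexp hJ c a b

end GTF

end Pool.Agent.Lib.MP_001d24_al
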