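import Pool.Agent.Lib.MP_001d24_al.Two

/-!
# Ranks, recursion, substitutions, and elements depending only on given variables
-/

namespace Pool.Agent.Lib.MP_001d24_al

namespace TF

variable {V : Bool → Variety} (X : TF V)

/-- the rank of an element -/
noncomputable def rk (w : X.F) : Ordinal.{0} := (X.wf.apply w).rank

theorem rk_lt {i : Bool} {v w : X.F} (hi : X.ty w = some i) (hv : v ∈ X.supp i w) :
    X.rk v < X.rk w := Acc.rank_lt_of_rel (X.wf.apply w) (show X.R v w from ⟨i, hi, hv⟩)

theorem rk_le_of {w : X.F} {o : Ordinal.{0}}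
    (h : ∀ i, X.ty w = some i → ∀ v ∈ X.supp i w, X.rk v < o) : X.rk w ≤ o := by
  unfold rk
  rw [Acc.rank_eq]
  apply Ordinal.iSup_le
  rintro ⟨b, i, hi, hb⟩
  exact Order.succ_le_of_lt (h i hi b hb)

theorem rk_none {w : X.F} (h : X.ty w = none) : X.rk w = 0 := by
  apply le_antisymm _ (zero_le)
  apply X.rk_le_of
  intro i hi
  rw [h] at hi
  cases hi

theorem supp_ty {i : Bool} {v w : X.F} (h : v ∈ X.supp i w) : X.ty v ≠ some i := h.1

theorem supp_ne_c {i : Bool} {v w : X.F} (h : v ∈ X.supp i w) : v ≠ X.c := h.2.1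

theorem supp_self {i : Bool} {w : X.F} (h : X.ty w ≠ some i) (hc : w ≠ X.c) :
    X.supp i w = {w} := (X.fo i).supp_self h hc

theorem supp_c (i : Bool) : X.supp i X.c = ∅ := (X.fo i).supp_c (X.c_mem i)

theorem eq_of_mem_supp {i : Bool} {v w : X.F} (h : v ∈ X.supp i w) (hw : X.ty w ≠ some i) :
    v = w := by
  by_cases hc : w = X.c
  · rw [hc, X.supp_c] at h
    exact h.elim
  · rw [X.supp_self hw hc] at h
    exact h

theorem supp_finite (i : Bool) (w : X.F) : (X.supp i w).Finite := (X.fo i).supp_finite _ _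

theorem hom_eq {i : Bool} {N : Type} {J : Alg (V i).sig N} {f g : X.F → N}
    (hf : IsHom (X.alg i) J f) (hg : IsHom (X.alg i) J g) {w : X.F} (h1 : f X.c = g X.c)
    (h2 : ∀ z ∈ X.supp i w, f z = g z) : f w = g w :=
  (X.fo i).hom_eq (X.c_mem i) hf hg h1 h2

theorem supp_map {i : Bool} {φ : X.F → X.F} (hφ : IsHom (X.alg i) (X.alg i) φ)
    (hφc : φ X.c = X.c) {w z : X.F} (hz : z ∈ X.supp i (φ w)) :
    ∃ v ∈ X.supp i w, z ∈ X.supp i (φ v) := (X.fo i).supp_map (X.c_mem i) hφ hφc hz

/-- The rank of a member of the support never exceeds the rank. -/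
theorem rk_le_of_mem {i : Bool} {v w : X.F} (h : v ∈ X.supp i w) : X.rk v ≤ X.rk w := by
  by_cases hw : X.ty w = some i
  · exact (X.rk_lt hw h).le
  · rw [X.eq_of_mem_supp h hw]

/-- Recursion over the rank. -/
theorem rec_exists {N : Type} (P : Bool → Prop) (J : ∀ i, P i → Alg (V i).sig N)
    (hJ : ∀ i (h : P i), (V i).IsModel (J i h)) (cN : N) (step : X.F → (X.F → N) → N)
    (hstep : ∀ w f g, (∀ v, X.rk v < X.rk w → f v = g v) → step w f = step w g)
    (hc : ∀ f, step X.c f = cN) :
    ∃ f : X.F → N, (∀ i (h : P i), IsHom (X.alg i) (J i h) f) ∧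
      (∀ w, (∀ i, P i → X.ty w ≠ some i) → f w = step w f) := by
  classical
  let r : X.F → X.F → Prop := fun a b => X.rk a < X.rk b
  have hr : WellFounded r := InvImage.wf X.rk wellFounded_lt
  let ex : (w : X.F) → ((v : X.F) → r v w → N) → (X.F → N) :=
    fun w rec z => if h : r z w then rec z h else cN
  let body : (w : X.F) → ((v : X.F) → r v w → N) → N := fun w rec =>
    if h : ∃ i, ∃ _ : P i, X.ty w = some i then
      (X.fo h.choose).lift (hJ _ h.choose_spec.choose) (ex w rec) w
    else step w (ex w rec)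
  let f : X.F → N := hr.fix body
  have hf : ∀ w, f w = body w (fun v _ => f v) := hr.fix_eq body
  have hex : ∀ w z, X.rk z < X.rk w → ex w (fun v _ => f v) z = f z := by
    intro w z hz
    simp only [ex]
    rw [dif_pos hz]
  have hno : ∀ w, (∀ i, P i → X.ty w ≠ some i) → f w = step w f := by
    intro w hw
    rw [hf w]
    have hn : ¬ ∃ i, ∃ _ : P i, X.ty w = some i := by
      rintro ⟨i, hi, h⟩
      exact hw i hi h
    simp only [body]
    rw [dif_neg hn]
    apply hstep
    intro v hv
    exact hex w v hv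
  have hfc : f X.c = cN := by
    rw [hno X.c (fun i _ h => by rw [X.ty_c] at h; cases h)]
    exact hc f
  have hexc : ∀ w, ex w (fun v _ => f v) X.c = f X.c := by
    intro w
    simp only [ex]
    split_ifs
    · rfl
    · exact hfc.symm
  have hyes : ∀ w i (hi : P i), X.ty w = some i →
      f w = (X.fo i).lift (hJ i hi) (ex w (fun v _ => f v)) w := by
    intro w i hi hw
    rw [hf w]
    have hn : ∃ i, ∃ _ : P i, X.ty w = some i := ⟨i, hi, hw⟩
    simp only [body]
    rw [dif_pos hn]
    have h1 : hn.choose = i := by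
      have h3 := hn.choose_spec.choose_spec
      exact (Option.some.inj (hw.symm.trans h3)).symm
    have key : ∀ (j : Bool) (hj : P j), j = i → (X.fo j).lift (hJ _ hj)
        (ex w (fun v _ => f v)) w = (X.fo i).lift (hJ i hi) (ex w (fun v _ => f v)) w := by
      rintro j hj rfl
      rfl
    exact key _ _ h1
  refine ⟨f, ?_, hno⟩
  intro i hi
  have hg : f = (X.fo i).lift (hJ i hi) f := by
    funext w
    by_cases hw : X.ty w = some i
    · rw [hyes w i hi hw]
      apply X.hom_eq (i := i) ((X.fo i).lift_hom _ _) ((X.fo i).lift_hom _ _)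
      · rw [(X.fo i).lift_eq _ _ (X.c_mem i), (X.fo i).lift_eq _ _ (X.c_mem i)]
        exact hexc w
      · intro z hz
        rw [(X.fo i).lift_eq _ _ (X.supp_ty hz), (X.fo i).lift_eq _ _ (X.supp_ty hz)]
        exact hex w z (X.rk_lt hw hz)
    · exact ((X.fo i).lift_eq _ _ hw).symm
  have := (X.fo i).lift_hom (hJ i hi) f
  rw [← hg] at this
  exact this

/-- Uniqueness on a hereditary set of elements. -/
theorem rec_unique {N : Type} (P : Bool → Prop) (J : ∀ i, P i → Alg (V i).sig N)
    (f g : X.F → N)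
    (hf : ∀ i (h : P i), IsHom (X.alg i) (J i h) f)
    (hg : ∀ i (h : P i), IsHom (X.alg i) (J i h) g)
    (hc : f X.c = g X.c)
    (Q : X.F → Prop) (hQ : ∀ i w, Q w → ∀ z ∈ X.supp i w, Q z)
    (hs : ∀ w, Q w → (∀ i, P i → X.ty w ≠ some i) →
      (∀ v, Q v → X.rk v < X.rk w → f v = g v) → f w = g w) :
    ∀ w, Q w → f w = g w := by
  have hr : WellFounded (fun a b : X.F => X.rk a < X.rk b) := InvImage.wf X.rk wellFounded_lt
  intro w
  induction w using hr.induction with
  | _ w ih =>
    intro hw
    by_cases h : ∀ i, P i → X.ty w ≠ some i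
    · exact hs w hw h (fun v hv hvw => ih v hvw hv)
    · push Not at h
      obtain ⟨i, hi, h2⟩ := h
      apply X.hom_eq (i := i) (hf i hi) (hg i hi) hc
      intro z hz
      exact ih z (X.rk_lt h2 hz) (hQ i w hw z hz)

theorem sub_exists (s : ℕ → X.F) : ∃ f : X.F → X.F,
    (∀ i, IsHom (X.alg i) (X.alg i) f) ∧ f X.c = X.c ∧ ∀ x, f (X.v x) = s x := by
  classical
  let step : X.F → (X.F → X.F) → X.F := fun w _ =>
    if h : ∃ x, w = X.v x then s h.choose else X.c
  have hc : ∀ f, step X.c f = X.c := by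
    intro f
    simp only [step]
    rw [dif_neg]
    rintro ⟨x, hx⟩
    exact X.v_ne_c x hx.symm
  obtain ⟨f, h1, h2⟩ := X.rec_exists (fun _ => True) (fun i _ => X.alg i)
    (fun i _ => (X.fo i).model) X.c step (fun w f g _ => rfl) hc
  refine ⟨f, fun i => h1 i trivial, ?_, ?_⟩
  · rw [h2 X.c (fun i _ h => by rw [X.ty_c] at h; cases h)]
    exact hc f
  · intro x
    rw [h2 (X.v x) (fun i _ h => by rw [X.ty_v] at h; cases h)]
    have hn : ∃ y, X.v x = X.v y := ⟨x, rfl⟩
    simp only [step]
    rw [dif_pos hn]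
    congr 1
    exact (X.v_inj hn.choose_spec).symm

/-- The endomorphism for both structures that fixes `c` and sends the variable `v x` to `s x`. -/
noncomputable def sub (s : ℕ → X.F) : X.F → X.F := (X.sub_exists s).choose

theorem sub_hom (s : ℕ → X.F) (i : Bool) : IsHom (X.alg i) (X.alg i) (X.sub s) :=
  (X.sub_exists s).choose_spec.1 i

@[simp] theorem sub_c (s : ℕ → X.F) : X.sub s X.c = X.c := (X.sub_exists s).choose_spec.2.1

@[simp] theorem sub_v (s : ℕ → X.F) (x : ℕ) : X.sub s (X.v x) = s x :=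
  (X.sub_exists s).choose_spec.2.2 x

theorem thom_unique {f g : X.F → X.F} (hf : ∀ i, IsHom (X.alg i) (X.alg i) f)
    (hg : ∀ i, IsHom (X.alg i) (X.alg i) g) (hc : f X.c = g X.c)
    (hv : ∀ x, f (X.v x) = g (X.v x)) (w : X.F) : f w = g w := by
  apply X.rec_unique (fun _ => True) (fun i _ => X.alg i) f g (fun i _ => hf i)
    (fun i _ => hg i) hc (fun _ => True) (fun _ _ _ _ _ => trivial) _ w trivial
  intro w _ h _
  have hty : X.ty w = none := by
    cases h2 : X.ty w with
    | none => rfl
    | some i => exact absurd h2 (h i trivial)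
  rcases X.ty_none w hty with h3 | ⟨x, h3⟩
  · rw [h3]; exact hc
  · rw [h3]; exact hv x

theorem thom_eq_sub {f : X.F → X.F} (hf : ∀ i, IsHom (X.alg i) (X.alg i) f)
    (hc : f X.c = X.c) (w : X.F) : f w = X.sub (fun x => f (X.v x)) w := by
  apply X.thom_unique hf (X.sub_hom _)
  · rw [hc, X.sub_c]
  · intro x; rw [X.sub_v]

theorem sub_sub (s t : ℕ → X.F) (w : X.F) :
    X.sub s (X.sub t w) = X.sub (fun x => X.sub s (t x)) w := by
  have h := X.thom_eq_sub (f := fun y => X.sub s (X.sub t y))
    (fun i => (X.sub_hom s i).comp (X.sub_hom t i)) (by simp) w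
  simpa using h

theorem sub_id (w : X.F) : X.sub X.v w = w := by
  have h := X.thom_eq_sub (f := fun y => y) (fun i => IsHom.id _) rfl w
  exact h.symm

theorem sub_id' (w : X.F) : X.sub (fun x => X.v x) w = w := X.sub_id w

open Classical in
/-- the variables in `S`, all other variables replaced by `c` -/
noncomputable def only (S : Set ℕ) : ℕ → X.F := fun x => if x ∈ S then X.v x else X.c

theorem only_mem {S : Set ℕ} {x : ℕ} (h : x ∈ S) : X.only S x = X.v x := if_pos h

theorem only_not_mem {S : Set ℕ} {x : ℕ} (h : x ∉ S) : X.only S x = X.c := if_neg h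

/-- `w` depends only on the variables in `S` -/
def inF (S : Set ℕ) (w : X.F) : Prop := X.sub (X.only S) w = w

variable {X}

theorem inF.sub_congr {S : Set ℕ} {w : X.F} (h : X.inF S w) {s t : ℕ → X.F}
    (hst : ∀ x ∈ S, s x = t x) : X.sub s w = X.sub t w := by
  rw [← h, X.sub_sub, X.sub_sub]
  congr 1
  funext x
  by_cases hx : x ∈ S
  · rw [X.only_mem hx, X.sub_v, X.sub_v]; exact hst x hx
  · rw [X.only_not_mem hx, X.sub_c, X.sub_c]

theorem inF.sub_eq_self {S : Set ℕ} {w : X.F} (h : X.inF S w) {s : ℕ → X.F}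
    (hst : ∀ x ∈ S, s x = X.v x) : X.sub s w = w := by
  rw [h.sub_congr hst, X.sub_id']

theorem inF.inter {S T : Set ℕ} {w : X.F} (h : X.inF S w) (h' : X.inF T w) :
    X.inF (S ∩ T) w := by
  unfold inF
  have h2 : X.sub (X.only (S ∩ T)) w = X.sub (X.only S) (X.sub (X.only T) w) := by
    rw [X.sub_sub]
    congr 1
    funext x
    by_cases hT : x ∈ T
    · rw [X.only_mem hT, X.sub_v]
      by_cases hS : x ∈ S
      · rw [X.only_mem hS, X.only_mem (show x ∈ S ∩ T from ⟨hS, hT⟩)]
      · rw [X.only_not_mem hS, X.only_not_mem (fun h => hS h.1)]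
    · rw [X.only_not_mem hT, X.sub_c, X.only_not_mem (fun h => hT h.2)]
  rw [h2, h', h]

theorem inF.mono {S T : Set ℕ} (hST : S ⊆ T) {w : X.F} (h : X.inF S w) : X.inF T w := by
  have h2 := h.sub_eq_self (s := X.only T) (fun x hx => X.only_mem (hST hx))
  exact h2

theorem inF.sub {S T : Set ℕ} {w : X.F} (h : X.inF S w) {s : ℕ → X.F}
    (hs : ∀ x ∈ S, X.inF T (s x)) : X.inF T (X.sub s w) := by
  unfold inF
  rw [X.sub_sub]
  exact h.sub_congr (fun x hx => hs x hx)

theorem inF_c (S : Set ℕ) : X.inF S X.c := X.sub_c _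

theorem inF_v {S : Set ℕ} {x : ℕ} (h : x ∈ S) : X.inF S (X.v x) := by
  unfold inF
  rw [X.sub_v, X.only_mem h]

theorem inF_v_iff {S : Set ℕ} {x : ℕ} : X.inF S (X.v x) ↔ x ∈ S := by
  constructor
  · intro h
    by_contra hx
    unfold inF at h
    rw [X.sub_v, X.only_not_mem hx] at h
    exact X.v_ne_c x h.symm
  · exact inF_v

theorem inF_only_sub (S : Set ℕ) (w : X.F) : X.inF S (X.sub (X.only S) w) := by
  unfold inF
  rw [X.sub_sub]
  congr 1
  funext x
  by_cases hx : x ∈ S
  · rw [X.only_mem hx, X.sub_v, X.only_mem hx]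
  · rw [X.only_not_mem hx, X.sub_c]

theorem inF_univ (w : X.F) : X.inF Set.univ w := by
  unfold inF
  have : X.only Set.univ = X.v := by
    funext x
    exact X.only_mem (Set.mem_univ x)
  rw [this, X.sub_id]

theorem inF_compl_of_subset {S T : Set ℕ} {w : X.F} (h : X.inF S w) (hST : Disjoint S T) :
    X.inF Tᶜ w := h.mono (Set.subset_compl_iff_disjoint_right.mpr hST)

/-- substitutions by variables or `c` do not increase the rank -/
theorem rk_sub_le (s : ℕ → X.F) (hs : ∀ x, X.ty (s x) = none) (w : X.F) :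
    X.rk (X.sub s w) ≤ X.rk w := by
  have hr : WellFounded (fun a b : X.F => X.rk a < X.rk b) := InvImage.wf X.rk wellFounded_lt
  induction w using hr.induction with
  | _ w ih =>
    cases hw : X.ty w with
    | none =>
      have : X.ty (X.sub s w) = none := by
        rcases X.ty_none w hw with h | ⟨x, h⟩
        · rw [h, X.sub_c, X.ty_c]
        · rw [h, X.sub_v, hs]
      rw [X.rk_none this]
      exact zero_le
    | some i =>
      cases hw' : X.ty (X.sub s w) with
      | none =>
        rw [X.rk_none hw']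
        exact zero_le
      | some j =>
        by_cases hij : i = j
        · subst hij
          apply X.rk_le_of
          intro i' hi' z hz
          rw [hw'] at hi'
          cases hi'
          obtain ⟨v, hv, hz'⟩ := X.supp_map (X.sub_hom s i) (X.sub_c s) hz
          exact ((X.rk_le_of_mem hz').trans (ih v (X.rk_lt hw hv))).trans_lt (X.rk_lt hw hv)
        · have hne : X.ty (X.sub s w) ≠ some i := by
            rw [hw']
            intro h
            exact hij (Option.some.inj h).symm
          have hc : X.sub s w ≠ X.c := by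
            intro h
            rw [h, X.ty_c] at hw'
            cases hw'
          have hmem : X.sub s w ∈ X.supp i (X.sub s w) := by
            rw [X.supp_self hne hc]; rfl
          obtain ⟨v, hv, hz'⟩ := X.supp_map (X.sub_hom s i) (X.sub_c s) hmem
          exact ((X.rk_le_of_mem hz').trans (ih v (X.rk_lt hw hv))).trans (X.rk_lt hw hv).le

theorem ty_only (S : Set ℕ) (x : ℕ) : X.ty (X.only S x) = none := by
  by_cases hx : x ∈ S
  · rw [X.only_mem hx, X.ty_v]
  · rw [X.only_not_mem hx, X.ty_c]

/-- the support of an element depends only on the variables on which the element depends -/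
theorem inF.supp {S : Set ℕ} {w : X.F} (h : X.inF S w) {i : Bool} {z : X.F}
    (hz : z ∈ X.supp i w) : X.inF S z := by
  have hr : WellFounded (fun a b : X.F => X.rk a < X.rk b) := InvImage.wf X.rk wellFounded_lt
  induction w using hr.induction generalizing z with
  | _ w ih =>
    by_cases hw : X.ty w = some i
    · have hz2 := hz
      rw [← h] at hz2
      obtain ⟨v, hv, hz'⟩ := X.supp_map (X.sub_hom _ i) (X.sub_c _) hz2
      by_cases hv' : X.ty (X.sub (X.only S) v) = some i
      · exact ih _ ((rk_sub_le _ (ty_only S) v).trans_lt (X.rk_lt hw hv)) (inF_only_sub S v) hz'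
      · rw [X.eq_of_mem_supp hz' hv']
        exact inF_only_sub S v
    · rw [X.eq_of_mem_supp hz hw]
      exact h

end TF

end Pool.Agent.Lib.MP_001d24_al
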