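import Pool.Agent.Lib.MP_001d24_al.Free

/-!
# Algebras that are free over a subset, and supports
-/

namespace Pool.Agent.Lib.MP_001d24_al

universe u v

/-- `Cl I D w`: the element `w` lies in the subalgebra generated by `D`. -/
inductive Cl {S : Sig} {W : Type u} (I : Alg S W) (D : Set W) : W → Prop
  | base {w : W} (h : w ∈ D) : Cl I D w
  | op (o : S.Op) (a : Fin (S.ar o) → W) (h : ∀ k, Cl I D (a k)) : Cl I D (I o a)

section Cl

variable {S : Sig} {W : Type u} {N : Type v} {I : Alg S W} {J : Alg S N}

theorem Cl.mono {D E : Set W} (hDE : D ⊆ E) {w : W} (h : Cl I D w) : Cl I E w := by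
  induction h with
  | base h => exact Cl.base (hDE h)
  | op o a _ ih => exact Cl.op o a ih

theorem Cl.hom_eq {D : Set W} {f g : W → N} (hf : IsHom I J f) (hg : IsHom I J g)
    (h : ∀ z ∈ D, f z = g z) {w : W} (hw : Cl I D w) : f w = g w := by
  induction hw with
  | base h' => exact h _ h'
  | op o a _ ih =>
    rw [hf, hg]
    congr 1
    funext k
    exact ih k

theorem Cl.map {D : Set W} {E : Set N} {f : W → N} (hf : IsHom I J f)
    (hDE : ∀ z ∈ D, f z ∈ E) {w : W} (hw : Cl I D w) : Cl J E (f w) := by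
  induction hw with
  | base h' => exact Cl.base (hDE _ h')
  | op o a _ ih =>
    rw [hf]
    exact Cl.op o _ ih

theorem Cl.exists_finite {D : Set W} {w : W} (hw : Cl I D w) :
    ∃ E : Set W, E.Finite ∧ E ⊆ D ∧ Cl I E w := by
  induction hw with
  | @base w h' =>
    exact ⟨{w}, Set.finite_singleton w, by simpa using h', Cl.base rfl⟩
  | op o a _ ih =>
    choose E h1 h2 h3 using ih
    refine ⟨⋃ k, E k, Set.finite_iUnion h1, Set.iUnion_subset h2, ?_⟩
    exact Cl.op o a (fun k => (h3 k).mono (Set.subset_iUnion E k))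

theorem Cl.of_eval {X : Type} (t : Tm S X) (f : X → W) {D : Set W} (h : ∀ x, f x ∈ D) :
    Cl I D (t.eval I f) := by
  induction t with
  | var x => exact Cl.base (h x)
  | app o args ih => exact Cl.op o _ ih

end Cl

/-- The algebra `(W, I)` belongs to `V` and is free over its subset `Z`. -/
structure FreeOver (V : Variety) {W : Type} (I : Alg V.sig W) (Z : Set W) : Prop where
  model : V.IsModel I
  gen : ∀ w, Cl I Z w
  ext : ∀ (N : Type) (J : Alg V.sig N), V.IsModel J → ∀ g : W → N,
    ∃ f : W → N, IsHom I J f ∧ ∀ z ∈ Z, f z = g z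

namespace FreeOver

variable {V : Variety} {W : Type} {I : Alg V.sig W} {Z : Set W} (h : FreeOver V I Z)

section lift

variable {N : Type} {J : Alg V.sig N} (hJ : V.IsModel J) (g : W → N)

/-- the homomorphism prescribed on the free generators -/
noncomputable def lift : W → N := Classical.choose (h.ext N J hJ g)

theorem lift_hom : IsHom I J (h.lift hJ g) := (Classical.choose_spec (h.ext N J hJ g)).1

theorem lift_eq {z : W} (hz : z ∈ Z) : h.lift hJ g z = g z :=
  (Classical.choose_spec (h.ext N J hJ g)).2 z hz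

end lift

open Classical in
/-- the endomorphism sending the generator `z` to `c` and fixing all other generators -/
noncomputable def kap (c z : W) : W → W := h.lift h.model (fun y => if y = z then c else y)

theorem kap_hom (c z : W) : IsHom I I (h.kap c z) := h.lift_hom _ _

theorem kap_self (c : W) {z : W} (hz : z ∈ Z) : h.kap c z z = c := by
  unfold kap
  rw [h.lift_eq _ _ hz, if_pos rfl]

theorem kap_ne (c : W) {z y : W} (hy : y ∈ Z) (hyz : y ≠ z) : h.kap c z y = y := by
  unfold kap
  rw [h.lift_eq _ _ hy, if_neg hyz]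

theorem kap_of_Cl (c : W) {z w : W} {D : Set W} (hD : D ⊆ Z) (hz : z ∉ D) (hw : Cl I D w) :
    h.kap c z w = w := by
  apply Cl.hom_eq (J := I) (h.kap_hom c z) (IsHom.id I) _ hw
  intro y hy
  exact h.kap_ne c (hD hy) (fun e => hz (e ▸ hy))

/-- the support of `w` -/
def supp (c w : W) : Set W := {z | z ∈ Z ∧ z ≠ c ∧ h.kap c z w ≠ w}

theorem supp_subset (c : W) {w : W} {D : Set W} (hD : D ⊆ Z) (hw : Cl I D w) :
    h.supp c w ⊆ D := by
  intro z hz
  by_contra hzD
  exact hz.2.2 (h.kap_of_Cl c hD hzD hw)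

theorem supp_finite (c w : W) : (h.supp c w).Finite := by
  obtain ⟨E, h1, h2, h3⟩ := (h.gen w).exists_finite
  exact h1.subset (h.supp_subset c h2 h3)

theorem supp_sub_Z (c w : W) : h.supp c w ⊆ Z := fun _ hz => hz.1

theorem ne_of_mem_supp {c w z : W} (hz : z ∈ h.supp c w) : z ≠ c := hz.2.1

theorem Cl_supp {c : W} (hc : c ∈ Z) (w : W) : Cl I (insert c (h.supp c w)) w := by
  classical
  have key : ∀ (E : Finset W), (∀ z ∈ E, z ∈ Z ∧ z ∉ h.supp c w ∧ z ≠ c) →
      ∀ D : Set W, D ⊆ Z → Cl I D w → Cl I (insert c (D \ (E : Set W))) w := by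
    intro E
    induction E using Finset.induction_on with
    | empty =>
      intro _ D _ hw
      apply hw.mono
      intro y hy
      right
      exact ⟨hy, by simp⟩
    | insert z E _ ih =>
      intro hE D hD hw
      have hz := hE z (Finset.mem_insert_self z E)
      have h1 : h.kap c z w = w := by
        by_contra hne
        exact hz.2.1 ⟨hz.1, hz.2.2, hne⟩
      have h2 : Cl I (insert c (D \ (E : Set W))) w :=
        ih (fun y hy => hE y (Finset.mem_insert_of_mem hy)) D hD hw
      have h3 := h2.map (E := insert c (D \ ((insert z E : Finset W) : Set W)))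
        (h.kap_hom c z) (by
        intro y hy
        by_cases hyz : y = z
        · subst hyz
          rw [h.kap_self c hz.1]
          left; rfl
        · rcases hy with hy | hy
          · left
            rw [hy]
            rw [h.kap_ne c hc (fun e => hz.2.2 e.symm)]
          · rw [h.kap_ne c (hD hy.1) hyz]
            right
            refine ⟨hy.1, ?_⟩
            simp only [Finset.coe_insert, Set.mem_insert_iff, not_or]
            exact ⟨hyz, hy.2⟩)
      rw [h1] at h3
      exact h3
  obtain ⟨D, h1, h2, h3⟩ := (h.gen w).exists_finite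
  have hfin : (D \ insert c (h.supp c w)).Finite := h1.subset Set.sdiff_subset
  have h4 := key hfin.toFinset (by
    intro z hz
    rw [Set.Finite.mem_toFinset] at hz
    refine ⟨h2 hz.1, fun hh => hz.2 (Or.inr hh), fun hh => hz.2 (Or.inl hh)⟩) D h2 h3
  apply h4.mono
  intro y hy
  rcases hy with hy | hy
  · left; exact hy
  · rw [Set.Finite.coe_toFinset] at hy
    by_contra hne
    exact hy.2 ⟨hy.1, hne⟩

theorem hom_eq {c : W} (hc : c ∈ Z) {N : Type v} {J : Alg V.sig N} {f g : W → N}
    (hf : IsHom I J f) (hg : IsHom I J g) {w : W} (h1 : f c = g c)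
    (h2 : ∀ z ∈ h.supp c w, f z = g z) : f w = g w := by
  apply Cl.hom_eq hf hg _ (h.Cl_supp hc w)
  intro z hz
  rcases hz with hz | hz
  · rw [hz]; exact h1
  · exact h2 z hz

theorem supp_map {c : W} (hc : c ∈ Z) {φ : W → W} (hφ : IsHom I I φ) (hφc : φ c = c) {w z : W}
    (hz : z ∈ h.supp c (φ w)) : ∃ v ∈ h.supp c w, z ∈ h.supp c (φ v) := by
  by_contra hcon
  push Not at hcon
  apply hz.2.2
  apply h.hom_eq (f := fun x => h.kap c z (φ x)) (g := φ) hc ((h.kap_hom c z).comp hφ) hφ
  · simp only [hφc]
    exact h.kap_ne c hc (fun e => hz.2.1 e.symm)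
  · intro v hv
    by_contra hne
    exact hcon v hv ⟨hz.1, hz.2.1, hne⟩

theorem supp_self {c z : W} (hz : z ∈ Z) (hzc : z ≠ c) : h.supp c z = {z} := by
  apply Set.Subset.antisymm
  · exact h.supp_subset c (by simpa using hz) (Cl.base rfl)
  · intro y hy
    rw [Set.mem_singleton_iff] at hy
    subst hy
    refine ⟨hz, hzc, ?_⟩
    rw [h.kap_self c hz]
    exact fun e => hzc e.symm

theorem supp_c {c : W} (hc : c ∈ Z) : h.supp c c = ∅ := by
  apply Set.eq_empty_of_subset_empty
  intro y hy
  have := h.supp_subset c (D := {c}) (by simpa using hc) (Cl.base rfl) hy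
  exact absurd this hy.2.1

theorem supp_op {c : W} {o : V.sig.Op} {a : Fin (V.sig.ar o) → W} {z : W}
    (hz : z ∈ h.supp c (I o a)) : ∃ k, z ∈ h.supp c (a k) := by
  by_contra hcon
  push Not at hcon
  apply hz.2.2
  rw [h.kap_hom c z]
  congr 1
  funext k
  by_contra hne
  exact hcon k ⟨hz.1, hz.2.1, hne⟩

end FreeOver

end Pool.Agent.Lib.MP_001d24_al
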