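import Pool.Agent.Lib.MP_001d24_al.Supp

/-!
# A model of two disjoint theories, free over its elements of the other type
-/

namespace Pool.Agent.Lib.MP_001d24_al

/-- A set carrying the structures of two varieties such that it is, for each `i`, free
over the set of the elements of type different from `some i`. -/
structure PreTF (V : Bool → Variety) where
  /-- carrier -/
  F : Type
  /-- the two structures -/
  alg : ∀ i, Alg (V i).sig F
  /-- types of the elements -/
  ty : F → Option Bool
  /-- the variables -/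
  v : ℕ → F
  /-- the point -/
  c : F
  fo : ∀ i, FreeOver (V i) (alg i) {w | ty w ≠ some i}
  ty_c : ty c = none
  ty_v : ∀ x, ty (v x) = none
  v_inj : Function.Injective v
  v_ne_c : ∀ x, v x ≠ c
  ty_none : ∀ w, ty w = none → w = c ∨ ∃ x, w = v x

namespace PreTF

variable {V : Bool → Variety} (X : PreTF V)

/-- the support of `w` w.r.t. the `i`-th structure -/
def supp (i : Bool) (w : X.F) : Set X.F := (X.fo i).supp X.c w

/-- `a` is in the support of `b` w.r.t. the structure of the type of `b` -/
def R (a b : X.F) : Prop := ∃ i, X.ty b = some i ∧ a ∈ X.supp i b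

theorem c_mem (i : Bool) : X.c ∈ {w | X.ty w ≠ some i} := by
  simp [X.ty_c]

theorem acc_c : Acc X.R X.c := by
  constructor
  rintro y ⟨i, hi, _⟩
  rw [X.ty_c] at hi
  cases hi

theorem acc_of_supp (i : Bool) {w : X.F} (h : ∀ z ∈ X.supp i w, Acc X.R z) : Acc X.R w := by
  by_cases hi : X.ty w = some i
  · constructor
    rintro y ⟨i', hi', hy⟩
    rw [hi] at hi'
    cases hi'
    exact h y hy
  · by_cases hc : w = X.c
    · rw [hc]; exact X.acc_c
    · apply h
      unfold supp
      rw [(X.fo i).supp_self hi hc]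
      rfl

theorem acc_supp (i : Bool) {w : X.F} (h : Acc X.R w) : ∀ z ∈ X.supp i w, Acc X.R z := by
  intro z hz
  by_cases hi : X.ty w = some i
  · exact h.inv ⟨i, hi, hz⟩
  · by_cases hc : w = X.c
    · rw [hc] at hz
      unfold supp at hz
      rw [(X.fo i).supp_c (X.c_mem i)] at hz
      exact hz.elim
    · unfold supp at hz
      rw [(X.fo i).supp_self hi hc] at hz
      rw [Set.mem_singleton_iff] at hz
      rw [hz]; exact h

theorem acc_op (i : Bool) (o : (V i).sig.Op) (a : Fin ((V i).sig.ar o) → X.F)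
    (h : ∀ k, Acc X.R (a k)) : Acc X.R (X.alg i o a) := by
  apply X.acc_of_supp i
  intro z hz
  obtain ⟨k, hk⟩ := (X.fo i).supp_op hz
  exact X.acc_supp i (h k) z hk

theorem acc_v (x : ℕ) : Acc X.R (X.v x) := by
  constructor
  rintro y ⟨i, hi, _⟩
  rw [X.ty_v] at hi
  cases hi

/-- the accessible elements -/
abbrev G : Type := {w : X.F // Acc X.R w}

/-- the structures on the accessible elements -/
def galg (i : Bool) : Alg (V i).sig X.G := fun o a =>
  ⟨X.alg i o (fun k => (a k).1), X.acc_op i o _ (fun k => (a k).2)⟩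

theorem galg_hom (i : Bool) : IsHom (X.galg i) (X.alg i) (fun w : X.G => w.1) := by
  intro o a
  rfl

theorem cl_lift (i : Bool) {D : Set X.F} (hD : ∀ z ∈ D, Acc X.R z) {w : X.F}
    (h : Cl (X.alg i) D w) : ∃ hw : Acc X.R w, Cl (X.galg i) {z : X.G | z.1 ∈ D} ⟨w, hw⟩ := by
  induction h with
  | @base w h => exact ⟨hD w h, Cl.base h⟩
  | op o a _ ih =>
    choose h1 h2 using ih
    refine ⟨X.acc_op i o a h1, ?_⟩
    exact Cl.op (I := X.galg i) o (fun k => ⟨a k, h1 k⟩) h2

theorem gfo (i : Bool) : FreeOver (V i) (X.galg i) {w : X.G | X.ty w.1 ≠ some i} where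
  model := Variety.IsModel.of_injective (X.galg_hom i) Subtype.val_injective (X.fo i).model
  gen := by
    rintro ⟨w, hw⟩
    have h := (X.fo i).Cl_supp (X.c_mem i) w
    obtain ⟨hw', h2⟩ := X.cl_lift i (by
      intro z hz
      rcases hz with hz | hz
      · rw [hz]; exact X.acc_c
      · exact X.acc_supp i hw z hz) h
    apply h2.mono
    intro z hz
    rcases hz with hz | hz
    · rw [show z = ⟨X.c, X.acc_c⟩ from Subtype.ext hz]
      exact X.c_mem i
    · exact (X.fo i).supp_sub_Z _ _ hz
  ext := by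
    classical
    intro N J hJ g
    let g' : X.F → N := fun w => if h : Acc X.R w then g ⟨w, h⟩ else g ⟨X.c, X.acc_c⟩
    refine ⟨fun w => (X.fo i).lift hJ g' w.1, ?_, ?_⟩
    · exact ((X.fo i).lift_hom hJ g').comp (X.galg_hom i)
    · intro z hz
      simp only
      rw [(X.fo i).lift_eq hJ g' hz]
      simp only [g']
      rw [dif_pos z.2]

/-- the restriction to the accessible elements -/
def acc : PreTF V where
  F := X.G
  alg := X.galg
  ty := fun w => X.ty w.1
  v := fun x => ⟨X.v x, X.acc_v x⟩
  c := ⟨X.c, X.acc_c⟩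
  fo := X.gfo
  ty_c := X.ty_c
  ty_v := X.ty_v
  v_inj := by
    intro x y hxy
    exact X.v_inj (congrArg Subtype.val hxy)
  v_ne_c := by
    intro x h
    exact X.v_ne_c x (congrArg Subtype.val h)
  ty_none := by
    rintro ⟨w, hw⟩ h
    rcases X.ty_none w h with h' | ⟨x, h'⟩
    · left; exact Subtype.ext h'
    · right; exact ⟨x, Subtype.ext h'⟩

theorem acc_supp_val (i : Bool) (w z : X.G) (h : z ∈ X.acc.supp i w) : z.1 ∈ X.supp i w.1 := by
  obtain ⟨h1, h2, h3⟩ := h
  refine ⟨h1, fun e => h2 (Subtype.ext e), ?_⟩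
  intro h4
  apply h3
  apply Subtype.ext
  rw [← h4]
  have := (X.gfo i).hom_eq (c := ⟨X.c, X.acc_c⟩) (X.c_mem i) (J := X.alg i)
    (f := fun y => ((X.gfo i).kap ⟨X.c, X.acc_c⟩ z y).1)
    (g := fun y => (X.fo i).kap X.c z.1 y.1)
    ((X.galg_hom i).comp ((X.gfo i).kap_hom _ _))
    (((X.fo i).kap_hom _ _).comp (X.galg_hom i)) (w := w) ?_ ?_
  · exact this
  · have e1 := (X.gfo i).kap_ne (⟨X.c, X.acc_c⟩ : X.G) (z := z) (X.c_mem i) (fun e => h2 e.symm)
    have e2 := (X.fo i).kap_ne X.c (z := z.1) (X.c_mem i) (fun e => h2 (Subtype.ext e.symm))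
    exact (congrArg Subtype.val e1).trans e2.symm
  · intro y hy
    by_cases hyz : y = z
    · subst hyz
      have e1 := (X.gfo i).kap_self (⟨X.c, X.acc_c⟩ : X.G) (z := y) h1
      have e2 := (X.fo i).kap_self X.c (z := y.1) h1
      exact (congrArg Subtype.val e1).trans e2.symm
    · have e1 := (X.gfo i).kap_ne (⟨X.c, X.acc_c⟩ : X.G) (z := z) hy.1 hyz
      have e2 := (X.fo i).kap_ne X.c (z := z.1) hy.1 (fun e => hyz (Subtype.ext e))
      exact (congrArg Subtype.val e1).trans e2.symm

theorem acc_wf : WellFounded X.acc.R := by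
  constructor
  intro a
  have h1 : Acc (InvImage X.R (fun w : X.G => w.1)) a := InvImage.accessible _ a.2
  apply Subrelation.accessible _ h1
  rintro x y ⟨i, hi, hx⟩
  exact ⟨i, hi, X.acc_supp_val i y x hx⟩

end PreTF

/-- A `PreTF` with a well-founded support relation. -/
structure TF (V : Bool → Variety) extends PreTF V where
  wf : WellFounded toPreTF.R

section Exist

variable (V : Bool → Variety)

/-- non-generators of the free algebra -/
abbrev NG (i : Bool) : Type := {w : FreeAlg (V i) ℕ // ¬ ∃ k, FreeAlg.gen k = w}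

/-- the universe -/
abbrev UU : Type := Option ℕ ⊕ (Σ i : Bool, NG V i)

variable {V}

/-- types -/
def UU.ty (u : UU V) : Option Bool := match u with
  | .inl _ => none
  | .inr ⟨i, _⟩ => some i

/-- elements of type different from `some i` -/
abbrev ZZ (V : Bool → Variety) (i : Bool) : Type := {u : UU V // UU.ty u ≠ some i}

variable [∀ i, Countable (V i).sig.Op]

theorem UU.countable : Countable (UU V) := by
  have : ∀ i, Countable (FreeAlg (V i) ℕ) := fun i => FreeAlg.countable (V i) ℕ
  have : ∀ i, Countable (NG V i) := fun i => inferInstanceAs (Countable {w // _})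
  exact inferInstanceAs (Countable (Option ℕ ⊕ (Σ i : Bool, NG V i)))

theorem ZZ.equiv (i : Bool) : Nonempty (ZZ V i ≃ ℕ) := by
  have := UU.countable (V := V)
  have h1 : Countable (ZZ V i) := inferInstanceAs (Countable {u // _})
  have h2 : Infinite (ZZ V i) := by
    let f : ℕ → ZZ V i := fun n => ⟨Sum.inl (some n), by simp [UU.ty]⟩
    apply Infinite.of_injective f
    intro a b hab
    have h3 := congrArg Subtype.val hab
    simp only [f] at h3
    injection h3 with h4
    injection h4
  exact nonempty_equiv_of_countable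

/-- an enumeration of the generators -/
noncomputable def bb (i : Bool) : ZZ V i ≃ ℕ := Classical.choice (ZZ.equiv i)

open Classical in
/-- the identification -/
noncomputable def ff (i : Bool) (w : FreeAlg (V i) ℕ) : UU V :=
  if h : ∃ k, FreeAlg.gen k = w then ((bb i).symm (Classical.choose h)).1
  else Sum.inr ⟨i, ⟨w, h⟩⟩

variable (hN : ∀ i, ∃ (N : Type) (I : Alg (V i).sig N), (V i).IsModel I ∧ Nontrivial N)

include hN in
theorem ff_gen (i : Bool) (k : ℕ) : ff i (FreeAlg.gen k : FreeAlg (V i) ℕ) =
    ((bb i).symm k).1 := by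
  have h : ∃ k', FreeAlg.gen k' = (FreeAlg.gen k : FreeAlg (V i) ℕ) := ⟨k, rfl⟩
  unfold ff
  rw [dif_pos h]
  have h2 := Classical.choose_spec h
  rw [FreeAlg.gen_injective (hN i) h2]

theorem ff_ng (i : Bool) (w : FreeAlg (V i) ℕ) (h : ¬ ∃ k, FreeAlg.gen k = w) :
    ff i w = Sum.inr ⟨i, ⟨w, h⟩⟩ := by
  unfold ff
  rw [dif_neg h]

include hN in
theorem ff_bij (i : Bool) : Function.Bijective (ff (V := V) i) := by
  constructor
  · intro w w' hw
    by_cases h : ∃ k, FreeAlg.gen k = w
    · by_cases h' : ∃ k, FreeAlg.gen k = w'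
      · obtain ⟨k, rfl⟩ := h
        obtain ⟨k', rfl⟩ := h'
        rw [ff_gen hN, ff_gen hN] at hw
        have := (bb i).symm.injective (Subtype.ext hw)
        rw [this]
      · obtain ⟨k, rfl⟩ := h
        rw [ff_gen hN, ff_ng i w' h'] at hw
        exact absurd (by rw [hw]; rfl) ((bb i).symm k).2
    · by_cases h' : ∃ k, FreeAlg.gen k = w'
      · obtain ⟨k, rfl⟩ := h'
        rw [ff_gen hN, ff_ng i w h] at hw
        exact absurd (by rw [← hw]; rfl) ((bb i).symm k).2
      · rw [ff_ng i w h, ff_ng i w' h'] at hw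
        injection hw with hw
        injection hw with h1 h2
        exact congrArg Subtype.val h2
  · intro u
    by_cases hu : UU.ty u ≠ some i
    · refine ⟨FreeAlg.gen (bb i ⟨u, hu⟩), ?_⟩
      rw [ff_gen hN]
      simp
    · match u, hu with
      | .inl _, hu => simp [UU.ty] at hu
      | .inr ⟨j, w⟩, hu =>
        have : j = i := by simpa [UU.ty] using hu
        subst this
        exact ⟨w.1, ff_ng _ _ w.2⟩

/-- the bijection as an equivalence -/
noncomputable def ee (i : Bool) : UU V ≃ FreeAlg (V i) ℕ :=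
  (Equiv.ofBijective _ (ff_bij hN i)).symm

theorem ee_symm_gen (i : Bool) (k : ℕ) : (ee hN i).symm (FreeAlg.gen k) =
    ((bb i).symm k).1 := ff_gen hN i k

theorem ee_gen (i : Bool) (u : UU V) (hu : UU.ty u ≠ some i) :
    ee hN i u = FreeAlg.gen (bb i ⟨u, hu⟩) := by
  rw [← Equiv.eq_symm_apply, ee_symm_gen hN]
  simp

theorem UU.fo (i : Bool) : FreeOver (V i) (transport (ee hN i) FreeAlg.alg)
    {w : UU V | UU.ty w ≠ some i} where
  model := Variety.IsModel.of_injective (transport_hom _ _) (ee hN i).injective FreeAlg.isModel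
  gen := by
    intro w
    have h1 : w = (ee hN i).symm (ee hN i w) := by simp
    rw [h1, ← FreeAlg.mk_rep (ee hN i w), ← FreeAlg.eval_gen,
      (transport_hom_symm (ee hN i) FreeAlg.alg).map_eval]
    apply Cl.of_eval
    intro k
    rw [ee_symm_gen hN]
    exact ((bb i).symm k).2
  ext := by
    intro N J hJ g
    refine ⟨fun w => FreeAlg.lift J (fun k => g ((ee hN i).symm (FreeAlg.gen k))) (ee hN i w),
      ?_, ?_⟩
    · exact (FreeAlg.lift_hom J hJ _).comp (transport_hom _ _)
    · intro z hz
      simp only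
      rw [ee_gen hN i z hz, FreeAlg.lift_gen J hJ, ee_symm_gen hN]
      simp

/-- the `PreTF` -/
noncomputable def UU.pre : PreTF V where
  F := UU V
  alg := fun i => transport (ee hN i) FreeAlg.alg
  ty := UU.ty
  v := fun n => Sum.inl (some n)
  c := Sum.inl none
  fo := UU.fo hN
  ty_c := rfl
  ty_v := fun _ => rfl
  v_inj := by
    intro a b hab
    simp only at hab
    injection hab with h
    injection h
  v_ne_c := by
    intro x h
    injection h with h
    cases h
  ty_none := by
    intro w hw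
    match w, hw with
    | .inl none, _ => left; rfl
    | .inl (some n), _ => right; exact ⟨n, rfl⟩
    | .inr ⟨j, w⟩, hu => simp [UU.ty] at hu

include hN in
theorem TF.exists : Nonempty (TF V) :=
  ⟨⟨(UU.pre hN).acc, (UU.pre hN).acc_wf⟩⟩

end Exist

end Pool.Agent.Lib.MP_001d24_al
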